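import Pool.Agent.KS6_77.IC.CReg

/-!
# Finite generation of the cover
-/

set_option autoImplicit false
set_option linter.unusedVariables false
set_option linter.unusedSectionVars false

universe u v w

namespace Pool.Agent.KS6_77.IC

open MvPolynomial IsLocalRing Pool.Agent.Q40.RP Pool.Agent.W418.LU2 Pool.Agent.TH188.QS

section tr

variable {K : Type u} [Field K] {V : ValuationSubring K}

/-- Common denominators in a localization. -/
lemma exists_cd {B : Subring K} {F : Set K} (hF : F.Finite) (h : ∀ z ∈ F, z ∈ lo V.toSubring B) :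
    ∃ b ∈ B, b ≠ 0 ∧ b⁻¹ ∈ V ∧ ∀ z ∈ F, b * z ∈ B := by
  induction F, hF using Set.Finite.induction_on with
  | empty => exact ⟨1, B.one_mem, one_ne_zero, by rw [inv_one]; exact V.one_mem,
      fun z hz => hz.elim⟩
  | @insert a F _ _ ih =>
    obtain ⟨b, hb, hb0, hbV, hbz⟩ := ih fun z hz => h z (Or.inr hz)
    obtain ⟨c, hc, d, hd, hd0, hdV, rfl⟩ := h a (Or.inl rfl)
    refine ⟨b * d, B.mul_mem hb hd, mul_ne_zero hb0 hd0, ?_, ?_⟩
    · rw [mul_inv]
      exact V.mul_mem _ _ hbV hdV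
    · rintro z (rfl | hz)
      · have h1 : b * d * (c * d⁻¹) = b * c := by field_simp
        rw [h1]
        exact B.mul_mem hb hc
      · have h1 : b * d * z = d * (b * z) := by ring
        rw [h1]
        exact B.mul_mem hd (hbz z hz)

/-- Common powers of the denominator. -/
lemma exists_dens {A : Subring K} {T : Set K} {g : K} (hg : g ∈ A) (hT : ∀ t ∈ T, t * g ∈ A)
    {F : Set K} (hF : F.Finite) (h : ∀ a ∈ F, a ∈ Subring.closure ((A : Set K) ∪ T)) :
    ∃ k : ℕ, ∀ a ∈ F, ∀ l, k ≤ l → g ^ l * a ∈ A := by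
  induction F, hF using Set.Finite.induction_on with
  | empty => exact ⟨0, fun z hz => hz.elim⟩
  | @insert a F _ _ ih =>
    obtain ⟨k, hk⟩ := ih fun z hz => h z (Or.inr hz)
    obtain ⟨k', hk'⟩ := exists_den hg hT (h a (Or.inl rfl))
    refine ⟨max k k', ?_⟩
    rintro z (rfl | hz) l hl
    · exact hk' l (le_trans (le_max_right _ _) hl)
    · exact hk z hz l (le_trans (le_max_left _ _) hl)

theorem fg_trans {A P P' : Subring K} (hA : A ≤ V.toSubring) {g0 D : K} (h : Fg V A P g0)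
    (h' : Fg V P P' D) : ∃ (u : K) (m : ℕ), U P u ∧ Fg V A P' (g0 ^ m * (u * D)) := by
  classical
  obtain ⟨hg0, hg00, T0, hT0, hT0A, hP⟩ := h
  obtain ⟨hD, hD0, T1, hT1, hT1P, hP'⟩ := h'
  set B := Subring.closure ((A : Set K) ∪ T0) with hB
  have hBV : B ≤ V.toSubring := cl_le hA fun t ht => (hT0A t ht).1
  obtain ⟨b, hb, hb0, hbV, hbz⟩ := exists_cd (V := V) (B := B)
    (F := insert D ((fun t => t * D) '' T1)) ((hT1.image _).insert _) (by
      rintro z (rfl | ⟨t, ht, rfl⟩)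
      · rw [← hP]; exact hD
      · rw [← hP]; exact (hT1P t ht).2)
  obtain ⟨k, hk⟩ := exists_dens (A := A) (T := T0) hg0 (fun t ht => (hT0A t ht).2)
    (F := insert (b * D) ((fun t => b * (t * D)) '' T1)) ((hT1.image _).insert _) (by
      rintro z (rfl | ⟨t, ht, rfl⟩)
      · exact hbz D (Or.inl rfl)
      · exact hbz _ (Or.inr ⟨t, ht, rfl⟩))
  have hbP : b ∈ P := by rw [hP]; exact le_lo _ _ hb
  have hbiP : b⁻¹ ∈ P := by
    rw [hP]
    exact inv_mem_lo hBV (le_lo _ _ hb) hb0 hbV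
  refine ⟨b, k + 1, ⟨hb0, hbP, hbiP⟩, hk _ (Or.inl rfl) _ (Nat.le_succ k),
    mul_ne_zero (pow_ne_zero _ hg00) (mul_ne_zero hb0 hD0), T0 ∪ T1, hT0.union hT1, ?_, ?_⟩
  · rintro t (ht | ht)
    · refine ⟨(hT0A t ht).1, ?_⟩
      have h1 : t * (g0 ^ (k + 1) * (b * D)) = (t * g0) * (g0 ^ k * (b * D)) := by ring
      rw [h1]
      exact A.mul_mem (hT0A t ht).2 (hk _ (Or.inl rfl) _ le_rfl)
    · refine ⟨(hT1P t ht).1, ?_⟩
      have h1 : t * (g0 ^ (k + 1) * (b * D)) = g0 ^ (k + 1) * (b * (t * D)) := by ring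
      rw [h1]
      exact hk _ (Or.inr ⟨t, ht, rfl⟩) _ (Nat.le_succ k)
  · have hcl : Subring.closure ((A : Set K) ∪ (T0 ∪ T1)) ≤ V.toSubring := cl_le hA (by
      rintro t (ht | ht)
      · exact (hT0A t ht).1
      · exact (hT1P t ht).1)
    have hBle : B ≤ Subring.closure ((A : Set K) ∪ (T0 ∪ T1)) := by
      rw [hB]
      refine Subring.closure_mono ?_
      rintro t (ht | ht)
      · exact Or.inl ht
      · exact Or.inr (Or.inl ht)
    rw [hP']
    apply le_antisymm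
    · refine lo_le_lo hcl ?_
      rw [Subring.closure_le]
      rintro t (ht | ht)
      · have ht' : t ∈ P := ht
        rw [hP] at ht'
        exact lo_mono hBle ht'
      · exact le_lo _ _ (Subring.subset_closure (Or.inr (Or.inr ht)))
    · refine lo_mono ?_
      rw [Subring.closure_le]
      rintro t (ht | ht | ht)
      · refine Subring.subset_closure (Or.inl ?_)
        change t ∈ P
        rw [hP]
        exact le_lo _ _ (Subring.subset_closure (Or.inl ht))
      · refine Subring.subset_closure (Or.inl ?_)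
        change t ∈ P
        rw [hP]
        exact le_lo _ _ (Subring.subset_closure (Or.inr ht))
      · exact Subring.subset_closure (Or.inr ht)

end tr

section sfg

variable {K : Type u} [Field K] {k : Type v} [Field k] {n : ℕ}
  {O : Subring K} {ρ0 : O →+* k} {S : Finset O} {piv : (Fin n → O) → Fin n}
  {ω : ℕ → Fin n → O} (hd : Dat O ρ0 S piv) (hω : ∀ l, IsLt S (ω l)) {s0 : Sta K n}
  (h0 : Gd O ρ0 s0) {V : ValuationSubring K}
  (hV : ∀ z, z ∈ V ↔ ∃ l, z ∈ (sq piv s0 ω l).1)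

include hd hω h0 hV

/-- The denominators of the local rings of the sequence. -/
theorem sq_fg (hr : RegP V.toSubring s0.1 s0.2) (l0 l : ℕ) :
    ∃ g : K, Fg V (sq piv s0 ω l0).1 (sq piv s0 ω (l0 + l + 1)).1 g ∧
      Mo (sq piv s0 ω (l0 + l)).1 (sq piv s0 ω (l0 + l)).2 g := by
  classical
  have hA : (sq piv s0 ω l0).1 ≤ V.toSubring := sq_le hd hω h0 hV l0
  have hstep : ∀ l (g : K), Fg V (sq piv s0 ω l0).1 (sq piv s0 ω (l0 + l)).1 g →
      Mo (sq piv s0 ω (l0 + l)).1 (sq piv s0 ω (l0 + l)).2 g →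
      ∃ g : K, Fg V (sq piv s0 ω l0).1 (sq piv s0 ω (l0 + l + 1)).1 g ∧
        Mo (sq piv s0 ω (l0 + l)).1 (sq piv s0 ω (l0 + l)).2 g := by
    intro l g hg hm
    have hreg := (sq_reg hd hω h0 hV hr (l0 + l)).reg
    have hnoe : IsNoetherianRing (sq piv s0 ω (l0 + l)).1 := inferInstance
    obtain ⟨g', u, m', u0, u1, u2, hg', hFg'⟩ := hg.step hA (sq_mi hd hω h0 hV (l0 + l))
    rw [← sq_qt hd hω h0 hV (l0 + l)] at hFg'
    refine ⟨g', hFg', ?_⟩
    rw [hg']
    exact (hm.pow m').mul ((Mo.unit u0 u1 u2).mul (Mo.self _ _ (piv (ω (l0 + l)))))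
  have hind : ∀ l, ∃ g : K, Fg V (sq piv s0 ω l0).1 (sq piv s0 ω (l0 + l)).1 g ∧
      Mo (sq piv s0 ω (l0 + l)).1 (sq piv s0 ω (l0 + l)).2 g := by
    intro l
    induction l with
    | zero =>
      refine ⟨1, ⟨Subring.one_mem _, one_ne_zero, ∅, Set.finite_empty, fun t ht => ht.elim, ?_⟩,
        Mo.one⟩
      rw [Set.union_empty, Subring.closure_eq]
      exact (IC.lo_eq (sq_inv hd hω h0 hV l0)).symm
    | succ l ih =>
      obtain ⟨g, hg, hm⟩ := ih
      obtain ⟨g', hg', hm'⟩ := hstep l g hg hm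
      exact ⟨g', hg', (sq_gd hd hω h0 (l0 + l)).mo hd (hω (l0 + l)) hm'⟩
  obtain ⟨g, hg, hm⟩ := hind l
  exact hstep l g hg hm

end sfg

end Pool.Agent.KS6_77.IC
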