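import Pool.Agent.KS6_77.IC.CFg

/-!
# Log uniformization of the cover
-/

set_option autoImplicit false
set_option linter.unusedVariables false
set_option linter.unusedSectionVars false

universe u v w

namespace Pool.Agent.KS6_77.IC

open MvPolynomial IsLocalRing Pool.Agent.Q40.RP Pool.Agent.W418.LU2 Pool.Agent.TH188.QS

section aux

variable {K : Type u} [Field K] {n : ℕ}

lemma Sm.mul {s : Sta K n} {j : Fin n} (hj : s.2 j ≠ 0) {f g : K} (hf : Sm s j f)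
    (hg : Sm s j g) : Sm s j (f * g) := by
  obtain ⟨u, hu, γ, rfl⟩ := hf
  obtain ⟨v, hv, δ, rfl⟩ := hg
  refine ⟨u * v, hu.mul hv, γ + δ, ?_⟩
  rw [zpow_add₀ hj]
  ring

lemma Sm.pow {s : Sta K n} {j : Fin n} {f : K} (hf : Sm s j f) (m : ℕ) : Sm s j (f ^ m) := by
  obtain ⟨u, hu, γ, rfl⟩ := hf
  refine ⟨u ^ m, hu.pow m, γ * m, ?_⟩
  rw [mul_pow, zpow_mul, zpow_natCast]

lemma Sm.unit {s : Sta K n} {j : Fin n} {u : K} (hu : U s.1 u) : Sm s j u :=
  ⟨u, hu, 0, by rw [zpow_zero, mul_one]⟩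

lemma Sm.self {s : Sta K n} {j : Fin n} : Sm s j (s.2 j) :=
  ⟨1, U.one, 1, by rw [zpow_one, one_mul]⟩

lemma lo_le_ic {V : ValuationSubring K} {P C : Subring K}
    (hP : ∀ y ∈ P, y ≠ 0 → y⁻¹ ∈ V.toSubring → y⁻¹ ∈ P) (hC : C ≤ P) :
    lo V.toSubring C ≤ P := by
  rintro z ⟨a, ha, b, hb, hb0, hbV, rfl⟩
  exact P.mul_mem (hC ha) (hP b (hC hb) hb0 hbV)

lemma dim_of {A P : Subring K} {x : Fin n → K} (h : RegP A P x) (hx : ∀ i, (x i)⁻¹ ∉ A) :
    ((n : ℕ) : WithBot ℕ∞) ≤ ringKrullDim P := by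
  have hreg := h.reg
  have hm : ∀ i, (⟨x i, h.mem i⟩ : P) ∈ maximalIdeal P := fun i => by
    rw [h.mem_max]
    exact fun h' => hx i h'.2
  have h1 := IndN.ind h.ind id Function.injective_id hm
  obtain ⟨m, w, -, hd⟩ := Ind.extend h1
  rw [hd, Fintype.card_fin]
  exact_mod_cast Nat.le_add_right n m

end aux

section cgp

variable {K : Type u} [Field K] {L : Type w} [Field L] {k : Type v} [Field k] {n : ℕ} (p : ℕ)
  [hpr : Fact p.Prime] [CharP K p]
  {O : Subring K} {ρ0 : O →+* k} {S : Finset O} {piv : (Fin n → O) → Fin n}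
  {φ : L →+* K} {ψ : K →+* L}

/-- A good stage for the cover. -/
structure CG (φ : L →+* K) (ψ : K →+* L) (p : ℕ) (piv : (Fin n → O) → Fin n) (s0 : Sta K n)
    (ω : ℕ → Fin n → O) (W : ValuationSubring L) (z : L) (m : ℕ) (j : Fin n) (y : L)
    (Y : Fin n → L) : Prop where
  mem : φ y ∈ (sq piv s0 ω (m + 1)).1
  reg : RegP W.toSubring ((sq piv s0 ω (m + 1)).1.comap φ) Y
  gen : ∀ w, φ w ∈ (sq piv s0 ω (m + 1)).1 →
    ∃ c : Fin p → (sq piv s0 ω (m + 1)).1, w = ∑ e, ψ (c e) * y ^ (e : ℕ)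
  rel : ∃ h0 ∈ (sq piv s0 ω (m + 1)).1, ∃ α β : ℕ,
    y * ψ ((sq piv s0 ω (m + 1)).2 j) ^ β = (z - ψ h0) ^ α
  sm : ∀ f, PMon (sq piv s0 ω m).1 (sq piv s0 ω m).2 f → Sm (sq piv s0 ω (m + 1)) j f
  mon : ∀ h, h ≠ 0 → Sm (sq piv s0 ω (m + 1)) j (φ h) →
    PMon ((sq piv s0 ω (m + 1)).1.comap φ) Y h

variable {ω : ℕ → Fin n → O} (hd : Dat O ρ0 S piv) (hω : ∀ l, IsLt S (ω l)) {s0 : Sta K n}
  (h0 : Gd O ρ0 s0) {V : ValuationSubring K}
  (hV : ∀ z, z ∈ V ↔ ∃ l, z ∈ (sq piv s0 ω l).1)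
  (hφ : ∀ q, φ (ψ q) = q ^ p) {W : ValuationSubring L} (hW : ∀ w, w ∈ W ↔ φ w ∈ V)

include hd hω h0 hV hφ hW

theorem cg_of (hk : ∀ a : k, ∃ b : k, b ^ p = a)
    (hr : RegP V.toSubring s0.1 s0.2) (hfr : ∀ z : K, ∃ a b : s0.1, b ≠ 0 ∧ z = a / b)
    {D0 : Fin n → Derivation ℤ K K} (hD : Dv s0.1 s0.2 D0)
    (hS : ∀ a ∈ S, ∀ D : Derivation ℤ K K, D (a : K) = 0) (hF : FF p s0.1) {z : L}
    (hz : ∀ w, Tp p (φ z) (φ w)) {m : ℕ} (hall : ∀ i, ω m i ≠ 0)
    (hG : Good p (sq piv s0 ω (m + 1)) (piv (ω m)) (dq piv s0 ω D0 (m + 1)) (φ z)) :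
    ∃ j y Y, CG φ ψ p piv s0 ω W z m j y Y := by
  classical
  have hgd := sq_gd hd hω h0
  obtain ⟨hO, ρ, hfra, hρ⟩ := id (hgd (m + 1))
  obtain ⟨y, i, q, hqi, hy, hT, hrel, hmon⟩ := exists_cov p (hgd (m + 1))
    (dv_seq hd hω h0 hD hS (m + 1)) hφ hG hz
  have hρq : ρ (q i) ≠ 0 := (U_iff hfra (q i).2).1 hqi
  have hfra' := fra_update hfra hρq hy
  have hreg := sq_reg hd hω h0 hV hr (m + 1)
  have hdim := dim_of hreg fun i => sq_nu hd hω h0 hV (m + 1) i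
  have hFF := ff_seq p hd hω h0 hF (m + 1)
  have hfr' : ∀ z : K, ∃ a b : (sq piv s0 ω (m + 1)).1, b ≠ 0 ∧ z = a / b := by
    intro z
    obtain ⟨a, b, hb, rfl⟩ := hfr z
    have hle : s0.1 ≤ (sq piv s0 ω (m + 1)).1 :=
      sq_mono (piv := piv) (s0 := s0) (ω := ω) (Nat.zero_le _)
    refine ⟨⟨a, hle a.2⟩, ⟨b, hle b.2⟩, fun h => hb (Subtype.ext ?_), rfl⟩
    exact congrArg (fun t : (sq piv s0 ω (m + 1)).1 => (t : K)) h
  have hxi : Function.update (sq piv s0 ω (m + 1)).2 i (φ y) i = φ y := Function.update_self ..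
  have h1 := creg p hfra' hk hFF hfr' hreg.reg hdim hφ hxi hT hW
    (sq_le hd hω h0 hV (m + 1)) (sq_inv hd hω h0 hV (m + 1))
  have h2 : (fun l => if l = i then y else
      ψ (Function.update (sq piv s0 ω (m + 1)).2 i (φ y) l)) =
      Function.update (fun l => ψ ((sq piv s0 ω (m + 1)).2 l)) i y := by
    funext l
    by_cases hl : l = i
    · rw [if_pos hl, hl, Function.update_self]
    · rw [if_neg hl, Function.update_of_ne hl, Function.update_of_ne hl]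
  rw [h2] at h1
  have hregL := hreg.reg
  refine ⟨piv (ω m), y, _, ?_, h1, ?_, hrel, ?_, ?_⟩
  · rw [hy]
    exact Subring.sum_mem _ fun l _ => Subring.mul_mem _ (q l).2 (hfra.mem l)
  · intro w hw
    exact cov_mem p hfra' hk hFF hfr' hφ hxi hT hw
  · intro f hf
    exact sm_next hd (hω m) (hgd m) hall hf
  · intro h hh hs
    obtain ⟨γ, hγ⟩ := hmon h hh hs
    set t := Function.update (fun l => ψ ((sq piv s0 ω (m + 1)).2 l)) i y (piv (ω m)) with ht
    have ht0 : t ≠ 0 := h1.ne _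
    refine ⟨h * t ^ γ, mul_ne_zero hh (zpow_ne_zero _ ht0), hγ.2.1, ?_, Pi.single (piv (ω m)) (-γ),
      ?_⟩
    · change φ (h * t ^ γ)⁻¹ ∈ (sq piv s0 ω (m + 1)).1
      rw [map_inv₀]
      exact hγ.2.2
    · unfold mo
      rw [Finset.prod_eq_single (piv (ω m))]
      · rw [Pi.single_eq_same, ← ht, mul_assoc, ← zpow_add₀ ht0, add_neg_cancel, zpow_zero, mul_one]
      · intro l _ hl
        rw [Pi.single_eq_of_ne hl, zpow_zero]
      · intro h
        exact absurd (Finset.mem_univ _) h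

/-- The images of the elements of the local rings. -/
lemma psi_lo {Q : Subring K} {T : Set K} {C : Subring L} (hC : C ≤ W.toSubring)
    (hQ : ∀ q ∈ Q, ψ q ∈ lo W.toSubring C) (hT : ∀ t ∈ T, ψ t ∈ lo W.toSubring C) {c : K}
    (hc : c ∈ lo V.toSubring (Subring.closure ((Q : Set K) ∪ T))) : ψ c ∈ lo W.toSubring C := by
  have h1 : Subring.closure ((Q : Set K) ∪ T) ≤ (lo W.toSubring C).comap ψ := by
    rw [Subring.closure_le]
    rintro t (ht | ht)
    · exact hQ t ht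
    · exact hT t ht
  obtain ⟨a, ha, b, hb, hb0, hbV, rfl⟩ := hc
  rw [map_mul, map_inv₀]
  refine Subring.mul_mem _ (h1 ha) (inv_mem_lo hC (h1 hb) ?_ ?_)
  · exact fun h => hb0 (ψ.injective (by rw [h, map_zero]))
  · refine (hW _).2 ?_
    rw [map_inv₀, hφ, ← inv_pow]
    exact V.toSubring.pow_mem hbV p

/-- The cover is a localization of an algebra of finite type. -/
theorem cov_fg (hr : RegP V.toSubring s0.1 s0.2) {z : L} {l0 l : ℕ}
    (hz : φ z ∈ (sq piv s0 ω l0).1) {j : Fin n} {y : L} {Y : Fin n → L}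
    (h : CG φ ψ p piv s0 ω W z (l0 + l) j y Y) :
    ∃ D : L, PMon ((sq piv s0 ω (l0 + l + 1)).1.comap φ) Y D ∧
      Fg W ((sq piv s0 ω l0).1.comap φ) ((sq piv s0 ω (l0 + l + 1)).1.comap φ) D := by
  classical
  have hmono := sq_mono (piv := piv) (s0 := s0) (ω := ω)
  obtain ⟨g, hFg, hgm⟩ := sq_fg hd hω h0 hV hr l0 l
  obtain ⟨hgQ, hg0, T, hTf, hT, hQ1⟩ := id hFg
  obtain ⟨a0, ha0, α, β, hrel⟩ := h.rel
  have hxj : (sq piv s0 ω (l0 + l + 1)).2 j ≠ 0 := ((sq_gd hd hω h0 _).nu j).2.1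
  have hxjm : (sq piv s0 ω (l0 + l + 1)).2 j ∈ (sq piv s0 ω (l0 + l + 1)).1 :=
    ((sq_gd hd hω h0 _).nu j).1
  have hBV : Subring.closure (((sq piv s0 ω l0).1 : Set K) ∪ T) ≤ V.toSubring :=
    cl_le (sq_le hd hω h0 hV l0) fun t ht => (hT t ht).1
  -- denominators for two elements
  obtain ⟨b, hb, hb0, hbV, hbz⟩ := exists_cd (V := V)
    (B := Subring.closure (((sq piv s0 ω l0).1 : Set K) ∪ T))
    (F := {a0, (sq piv s0 ω (l0 + l + 1)).2 j}) (by simp) (by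
      rintro t (rfl | rfl)
      · rw [← hQ1]; exact ha0
      · rw [← hQ1]; exact hxjm)
  obtain ⟨r, hrr⟩ := exists_dens (A := (sq piv s0 ω l0).1) (T := T) hgQ (fun t ht => (hT t ht).2)
    (F := {b, b * a0, b * (sq piv s0 ω (l0 + l + 1)).2 j}) (by simp) (by
      rintro t (rfl | rfl | rfl)
      · exact hb
      · exact hbz _ (Or.inl rfl)
      · exact hbz _ (Or.inr rfl))
  obtain ⟨e, he⟩ : ∃ e, e = g ^ r * b := ⟨_, rfl⟩
  have he0 : e ≠ 0 := by rw [he]; exact mul_ne_zero (pow_ne_zero _ hg0) hb0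
  have heQ : e ∈ (sq piv s0 ω l0).1 := by rw [he]; exact hrr _ (Or.inl rfl) r le_rfl
  have hea : e * a0 ∈ (sq piv s0 ω l0).1 := by
    rw [he, mul_assoc]
    exact hrr _ (Or.inr (Or.inl rfl)) r le_rfl
  have hex : e * (sq piv s0 ω (l0 + l + 1)).2 j ∈ (sq piv s0 ω l0).1 := by
    rw [he, mul_assoc]
    exact hrr _ (Or.inr (Or.inr rfl)) r le_rfl
  obtain ⟨d', hd'⟩ : ∃ d', d' = e ^ α * (e * (sq piv s0 ω (l0 + l + 1)).2 j) ^ β := ⟨_, rfl⟩
  have hd'Q : d' ∈ (sq piv s0 ω l0).1 := by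
    rw [hd']
    exact Subring.mul_mem _ (Subring.pow_mem _ heQ _) (Subring.pow_mem _ hex _)
  have hd'0 : d' ≠ 0 := by
    rw [hd']
    exact mul_ne_zero (pow_ne_zero _ he0) (pow_ne_zero _ (mul_ne_zero he0 hxj))
  have hψP : ∀ q ∈ (sq piv s0 ω l0).1, ψ q ∈ (sq piv s0 ω l0).1.comap φ := fun q hq =>
    psi_mem p hφ hq
  have hdy : y * ψ d' ∈ (sq piv s0 ω l0).1.comap φ := by
    have h1 : y * ψ d' = ψ e ^ β * (ψ e * z - ψ (e * a0)) ^ α := by
      have h2 : (ψ e * z - ψ (e * a0)) = ψ e * (z - ψ a0) := by rw [map_mul]; ring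
      rw [h2, mul_pow, ← hrel, hd', map_mul, map_pow, map_pow, map_mul, mul_pow]
      ring
    rw [h1]
    exact Subring.mul_mem _ (Subring.pow_mem _ (hψP e heQ) _) (Subring.pow_mem _
      (Subring.sub_mem _ (Subring.mul_mem _ (hψP e heQ) hz) (hψP _ hea)) _)
  have hbU : U (sq piv s0 ω (l0 + l + 1)).1 b := by
    refine ⟨hb0, ?_, ?_⟩
    · rw [hQ1]; exact le_lo _ _ hb
    · rw [hQ1]; exact inv_mem_lo hBV (le_lo _ _ hb) hb0 hbV
  have hgS := h.sm g hgm.pmon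
  have heS : Sm (sq piv s0 ω (l0 + l + 1)) j e := by
    rw [he]; exact (hgS.pow r).mul hxj (Sm.unit hbU)
  have hd'S : Sm (sq piv s0 ω (l0 + l + 1)) j d' := by
    rw [hd']; exact (heS.pow α).mul hxj ((heS.mul hxj Sm.self).pow β)
  have hgd0 : g * d' ≠ 0 := mul_ne_zero hg0 hd'0
  have hψ0 : ψ (g * d') ≠ 0 := fun h => hgd0 (ψ.injective (by rw [h, map_zero]))
  refine ⟨ψ (g * d'), h.mon _ hψ0 ?_, hψP _ (Subring.mul_mem _ hgQ hd'Q), hψ0,
    insert y (ψ '' T), (hTf.image _).insert _, ?_, ?_⟩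
  · rw [hφ]
    exact (hgS.mul hxj hd'S).pow p
  · rintro t (rfl | ⟨t, ht, rfl⟩)
    · refine ⟨(hW _).2 (sq_le hd hω h0 hV _ h.mem), ?_⟩
      have h1 : t * ψ (g * d') = ψ g * (t * ψ d') := by rw [map_mul]; ring
      rw [h1]
      exact Subring.mul_mem _ (hψP g hgQ) hdy
    · refine ⟨(hW _).2 ?_, ?_⟩
      · rw [hφ]
        exact V.toSubring.pow_mem (hT t ht).1 p
      · have h1 : ψ t * ψ (g * d') = ψ (t * g) * ψ d' := by
          rw [← map_mul, ← map_mul]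
          congr 1
          ring
        rw [h1]
        exact Subring.mul_mem _ (hψP _ (hT t ht).2) (hψP _ hd'Q)
  · have hC : Subring.closure ((((sq piv s0 ω l0).1.comap φ : Subring L) : Set L) ∪
        insert y (ψ '' T)) ≤ W.toSubring := by
      rw [Subring.closure_le]
      rintro t (ht | rfl | ⟨t, ht, rfl⟩)
      · exact (hW _).2 (sq_le hd hω h0 hV _ ht)
      · exact (hW _).2 (sq_le hd hω h0 hV _ h.mem)
      · refine (hW _).2 ?_
        rw [hφ]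
        exact V.toSubring.pow_mem (hT t ht).1 p
    apply le_antisymm
    · intro w hw
      obtain ⟨c, hc⟩ := h.gen w hw
      have hyl : y ∈ lo W.toSubring (Subring.closure ((((sq piv s0 ω l0).1.comap φ :
          Subring L) : Set L) ∪ insert y (ψ '' T))) :=
        le_lo _ _ (Subring.subset_closure (Or.inr (Or.inl rfl)))
      rw [hc]
      refine Subring.sum_mem _ fun e _ => Subring.mul_mem _ ?_ (Subring.pow_mem _ hyl _)
      refine psi_lo p hd hω h0 hV hφ hW (Q := (sq piv s0 ω l0).1) (T := T) hC ?_ ?_ ?_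
      · intro q hq
        exact le_lo _ _ (Subring.subset_closure (Or.inl (hψP q hq)))
      · intro t ht
        exact le_lo _ _ (Subring.subset_closure (Or.inr (Or.inr ⟨t, ht, rfl⟩)))
      · rw [← hQ1]
        exact (c e).2
    · refine lo_le_ic h.reg.inv ?_
      rw [Subring.closure_le]
      rintro t (ht | rfl | ⟨t, ht, rfl⟩)
      · exact hmono (show l0 ≤ l0 + l + 1 by omega) ht
      · exact h.mem
      · refine psi_mem p hφ ?_
        rw [hQ1]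
        exact le_lo _ _ (Subring.subset_closure (Or.inr ht))

/-- The general form of log uniformization. -/
theorem cov_gp (hr : RegP V.toSubring s0.1 s0.2)
    (hmo : ∀ z : K, z ≠ 0 → ∃ l, PMon (sq piv s0 ω l).1 (sq piv s0 ω l).2 z) {z : L}
    (hz : φ z ∈ s0.1)
    (hcg : ∀ N, ∃ m, N ≤ m ∧ ∃ j y Y, CG φ ψ p piv s0 ω W z m j y Y)
    {A : Subring L} (hA : A ≤ W.toSubring)
    (hAfr : ∀ w : L, ∃ a ∈ A, ∃ b ∈ A, b ≠ 0 ∧ w = a / b) {T0 T1 : Set L} (hT0 : T0.Finite)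
    (hT1 : T1.Finite) (hT0W : ∀ t ∈ T0, t ∈ W) (hT1W : ∀ t ∈ T1, t ∈ W)
    (hbase : lo W.toSubring (Subring.closure ((A : Set L) ∪ T0)) =
      lo W.toSubring (Subring.closure (((s0.1.map ψ : Subring L) : Set L) ∪ T1))) : GP W A := by
  classical
  have hmono := sq_mono (piv := piv) (s0 := s0) (ω := ω)
  have hpm : ∀ {l l' : ℕ}, l ≤ l' → ∀ z, PMon (sq piv s0 ω l).1 (sq piv s0 ω l).2 z →
      PMon (sq piv s0 ω l').1 (sq piv s0 ω l').2 z := by
    intro l l' hl z hz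
    refine PMon.of_gen (fun i => (sq_gd hd hω h0 l').nu i |>.2.1) (hmono hl) (fun i => ?_) hz
    exact (sq_mo hd hω h0 hl (Mo.self _ _ i)).pmon
  have hfinW : ∀ H : Set L, H.Finite → (∀ h ∈ H, h ∈ W) →
      ∃ N, ∀ z ∈ H, ∀ l, N ≤ l → φ z ∈ (sq piv s0 ω l).1 := by
    intro H hHf hH
    have hch : ∀ z : L, ∃ l, z ∈ H → φ z ∈ (sq piv s0 ω l).1 := by
      intro z
      by_cases hz : z ∈ H
      · obtain ⟨l, hl⟩ := (hV _).1 ((hW z).1 (hH z hz))
        exact ⟨l, fun _ => hl⟩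
      · exact ⟨0, fun h => absurd h hz⟩
    choose nn hnn using hch
    refine ⟨hHf.toFinset.sup nn, fun z hz l hl => hmono ?_ (hnn z hz)⟩
    exact le_trans (Finset.le_sup (hHf.mem_toFinset.2 hz)) hl
  -- the first stage
  obtain ⟨N0, hN0⟩ := hfinW T1 hT1 hT1W
  obtain ⟨m0, hm0, j0, y0, Y0, hc0⟩ := hcg N0
  have hOP : ∀ l, (s0.1.map ψ : Subring L) ≤ (sq piv s0 ω l).1.comap φ := by
    rintro l _ ⟨q, hq, rfl⟩
    exact psi_mem p hφ (hmono (Nat.zero_le l) hq)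
  have hAP : lo W.toSubring (Subring.closure ((A : Set L) ∪ T0)) ≤
      (sq piv s0 ω (m0 + 1)).1.comap φ := by
    rw [hbase]
    refine lo_le_ic hc0.reg.inv ?_
    rw [Subring.closure_le]
    rintro t (ht | ht)
    · exact hOP _ ht
    · exact hN0 t ht (m0 + 1) (by omega)
  obtain ⟨g1, hFg1, -⟩ := sq_fg hd hω h0 hV hr 0 m0
  rw [zero_add] at hFg1
  obtain ⟨-, -, T, hTf, hT, hQ1⟩ := hFg1
  have hfg0 : ∃ g, Fg W A ((sq piv s0 ω (m0 + 1)).1.comap φ) g := by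
    have hTW : ∀ t ∈ T0 ∪ insert y0 (ψ '' T), t ∈ W := by
      rintro t (ht | rfl | ⟨t, ht, rfl⟩)
      · exact hT0W t ht
      · exact (hW _).2 (sq_le hd hω h0 hV _ hc0.mem)
      · refine (hW _).2 ?_
        rw [hφ]
        exact V.toSubring.pow_mem (hT t ht).1 p
    refine fg_of (T := T0 ∪ insert y0 (ψ '' T)) (hT0.union ((hTf.image _).insert _)) hTW ?_ ?_
    · intro t _
      obtain ⟨a, ha, b, hb, hb0, rfl⟩ := hAfr t
      exact ⟨b, hb, hb0, by rwa [div_mul_cancel₀ _ hb0]⟩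
    · apply le_antisymm
      · have hle : Subring.closure ((A : Set L) ∪ T0) ≤
            Subring.closure ((A : Set L) ∪ (T0 ∪ insert y0 (ψ '' T))) := by
          refine Subring.closure_mono ?_
          rintro t (ht | ht)
          · exact Or.inl ht
          · exact Or.inr (Or.inl ht)
        intro w hw
        obtain ⟨c, hc⟩ := hc0.gen w hw
        have hyl : y0 ∈ lo W.toSubring (Subring.closure ((A : Set L) ∪
            (T0 ∪ insert y0 (ψ '' T)))) :=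
          le_lo _ _ (Subring.subset_closure (Or.inr (Or.inr (Or.inl rfl))))
        rw [hc]
        refine Subring.sum_mem _ fun e _ => Subring.mul_mem _ ?_ (Subring.pow_mem _ hyl _)
        refine psi_lo p hd hω h0 hV hφ hW (Q := s0.1) (T := T) (cl_le hA hTW) ?_ ?_ ?_
        · intro q hq
          refine lo_mono hle ?_
          rw [hbase]
          exact le_lo _ _ (Subring.subset_closure (Or.inl ⟨q, hq, rfl⟩))
        · intro t ht
          exact le_lo _ _ (Subring.subset_closure (Or.inr (Or.inr (Or.inr ⟨t, ht, rfl⟩))))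
        · change (c e : K) ∈ lo V.toSubring (Subring.closure (((sq piv s0 ω 0).1 : Set K) ∪ T))
          rw [← hQ1]
          exact (c e).2
      · refine lo_le_ic hc0.reg.inv ?_
        rw [Subring.closure_le]
        rintro t (ht | ht | rfl | ⟨t, ht, rfl⟩)
        · exact hAP (le_lo _ _ (Subring.subset_closure (Or.inl ht)))
        · exact hAP (le_lo _ _ (Subring.subset_closure (Or.inr ht)))
        · exact hc0.mem
        · refine psi_mem p hφ ?_
          rw [hQ1]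
          exact le_lo _ _ (Subring.subset_closure (Or.inr ht))
  obtain ⟨g0, hFg0⟩ := hfg0
  intro G H hGf hHf hG hH
  have hG' : ∃ N, ∀ z ∈ insert g0 G, ∀ l, N ≤ l →
      PMon (sq piv s0 ω l).1 (sq piv s0 ω l).2 (φ z) := by
    have hch : ∀ z : L, ∃ l, z ∈ insert g0 G →
        PMon (sq piv s0 ω l).1 (sq piv s0 ω l).2 (φ z) := by
      intro z
      by_cases hz : z ∈ insert g0 G
      · have hz0 : z ≠ 0 := by
          rcases hz with rfl | hz
          · exact hFg0.2.1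
          · exact (hG z hz).1
        obtain ⟨l, hl⟩ := hmo (φ z) (phi_ne hz0)
        exact ⟨l, fun _ => hl⟩
      · exact ⟨0, fun h => absurd h hz⟩
    choose nn hnn using hch
    refine ⟨(hGf.insert g0).toFinset.sup nn, fun z hz l hl => hpm ?_ _ (hnn z hz)⟩
    exact le_trans (Finset.le_sup ((hGf.insert g0).mem_toFinset.2 hz)) hl
  obtain ⟨N1, hN1⟩ := hG'
  obtain ⟨N2, hN2⟩ := hfinW H hHf fun h hh => (hH h hh).1
  obtain ⟨m1, hm1, j1, y1, Y1, hc1⟩ := hcg (m0 + 1 + N1 + N2)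
  obtain ⟨l, rfl⟩ := Nat.exists_eq_add_of_le (show m0 + 1 ≤ m1 by omega)
  obtain ⟨D, hD, hFgD⟩ := cov_fg p hd hω h0 hV hφ hW hr (l0 := m0 + 1) (l := l)
    (hmono (Nat.zero_le _) hz) hc1
  obtain ⟨u, m, hu, hFg⟩ := fg_trans hA hFg0 hFgD
  have hPmon : ∀ h ∈ insert g0 G, PMon ((sq piv s0 ω (m0 + 1 + l + 1)).1.comap φ) Y1 h := by
    intro h hh
    have hh0 : h ≠ 0 := by
      rcases hh with rfl | hh
      · exact hFg0.2.1
      · exact (hG h hh).1
    exact hc1.mon h hh0 (hc1.sm _ (hN1 h hh (m0 + 1 + l) (by omega)))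
  have hle : (sq piv s0 ω (m0 + 1)).1.comap φ ≤ (sq piv s0 ω (m0 + 1 + l + 1)).1.comap φ := by
    intro w hw
    exact hmono (show m0 + 1 ≤ m0 + 1 + l + 1 by omega) hw
  have hu1 := hu.mono hle
  have hupm : PMon ((sq piv s0 ω (m0 + 1 + l + 1)).1.comap φ) Y1 u :=
    ⟨u, hu1.1, hu1.2.1, hu1.2.2, 0, by rw [mo_zero, mul_one]⟩
  refine ⟨Fin n, inferInstance, Y1, _, _, hc1.reg, hFg, ?_, fun h hh => hPmon h (Or.inr hh),
    fun h hh => ?_⟩
  · exact (Pool.Agent.TH188.QS.PMon.pow hc1.reg.ne (hPmon g0 (Or.inl rfl)) m).mul hc1.reg.ne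
      (hupm.mul hc1.reg.ne hD)
  · exact hN2 h hh (m0 + 1 + l + 1) (by omega)

end cgp

end Pool.Agent.KS6_77.IC
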