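import Pool.Agent.KS6_77.IC.CGp

/-!
# Inseparable covers of degree `p` of the valuation ring of a branch
-/

set_option autoImplicit false
set_option linter.unusedVariables false
set_option linter.unusedSectionVars false

universe u v w

namespace Pool.Agent.KS6_77.IC

open MvPolynomial IsLocalRing Pool.Agent.Q40.RP Pool.Agent.W418.LU2 Pool.Agent.TH188.QS

section base

variable {K : Type u} [Field K] (p : ℕ) [hpr : Fact p.Prime] [CharP K p]

omit hpr [CharP K p] in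
lemma gen_of_finite {R : Type u} {R' : Type u} [CommRing R] [CommRing R'] (f : R →+* R')
    (h : f.Finite) : ∃ (m : ℕ) (s : Fin m → R'), ∀ q, ∃ c : Fin m → R, q = ∑ i, f (c i) * s i := by
  let _ := f.toAlgebra
  have h1 : Module.Finite R R' := h
  obtain ⟨m, s, hs⟩ := Module.Finite.exists_fin (R := R) (M := R')
  refine ⟨m, s, fun q => ?_⟩
  have h2 : q ∈ Submodule.span R (Set.range s) := by
    rw [hs]
    trivial
  obtain ⟨c, hc⟩ := (Submodule.mem_span_range_iff_exists_fun R).1 h2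
  refine ⟨c, hc.symm.trans ?_⟩
  refine Finset.sum_congr rfl fun i _ => ?_
  rw [Algebra.smul_def]
  rfl

lemma ff_of {O : Subring K} (h : (frobenius O p).Finite) : FF p O := by
  obtain ⟨m, s, hs⟩ := gen_of_finite _ h
  exact ⟨Fin m, inferInstance, s, hs⟩

/-- A function whose derivatives vanish is a `p`-th power. -/
lemma pow_of_der {n : ℕ} {x : Fin n → K} (hne : ∀ i, x i ≠ 0) {Q : Subring K} (hs : Sp p x)
    (hi : Li p x) {D : Fin n → Derivation ℤ K K} (hD : Dv Q x D) {f : K}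
    (hf : ∀ i, D i f = 0) : ∃ q, f = q ^ p := by
  classical
  obtain ⟨c, hc⟩ := hs f
  have h1 : ∀ i b, ((b i : ℕ) : K) * c b = 0 := by
    intro i
    refine hi (fun b => ((b i : ℕ) : K) * c b) ?_
    have h2 : x i * D i f = 0 := by rw [hf, mul_zero]
    rw [hc, map_sum, Finset.mul_sum] at h2
    rw [← h2]
    refine Finset.sum_congr rfl fun b _ => ?_
    rw [euler_xb p hne hD, mul_pow]
    have h3 : ((b i : ℕ) : K) ^ p = ((b i : ℕ) : K) := by
      rw [← frobenius_def, map_natCast]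
    rw [h3]
    ring
  let b0 : Fin n → Fin p := fun _ => ⟨0, hpr.out.pos⟩
  have h2 : ∀ b, b ≠ b0 → c b = 0 := by
    intro b hb
    obtain ⟨i, hi⟩ := Function.ne_iff.1 hb
    refine (mul_eq_zero.1 (h1 i b)).resolve_left ?_
    intro h3
    have h4 := (CharP.cast_eq_zero_iff K p (b i : ℕ)).1 h3
    exact hi (Fin.ext (Nat.eq_zero_of_dvd_of_lt h4 (b i).2))
  refine ⟨c b0, ?_⟩
  rw [hc, Finset.sum_eq_single b0]
  · have h3 : xb x b0 = 1 := by
      unfold xb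
      exact Finset.prod_eq_one fun i _ => pow_zero _
    rw [h3, mul_one]
  · intro b _ hb
    rw [h2 b hb, zero_pow hpr.out.ne_zero, zero_mul]
  · intro h
    exact absurd (Finset.mem_univ _) h

end base

section main

variable {K : Type u} [Field K] {L : Type w} [Field L] {n : ℕ} (p : ℕ)
  [hpr : Fact p.Prime] [CharP K p] {O : Subring K} [IsRegularLocalRing O]
  (hfr : ∀ z : K, ∃ a b : O, b ≠ 0 ∧ z = a / b) {x : Fin n → O}
  (hx : Ideal.span (Set.range x) = maximalIdeal O)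
  (hdim : ((n : ℕ) : WithBot ℕ∞) ≤ ringKrullDim O)
  {S : Finset O} {piv : (Fin n → O) → Fin n}
  (hF : FF p O) (hk : ∀ a : ResidueField O, ∃ b : ResidueField O, b ^ p = a)
  (hSp : ∀ a ∈ S, ∃ b : O, b ^ p = a)
  {φ : L →+* K} {ψ : K →+* L} (hφ : ∀ q, φ (ψ q) = q ^ p)
  {ω : ℕ → Fin n → O} (hd : Dat O (residue O) S piv) (hω : ∀ l, IsLt S (ω l))

include hfr hx hdim hF hk

theorem base_dv : Sp p (st0 (K := K) x).2 ∧ Li p (st0 (K := K) x).2 ∧
    ∃ D : Fin n → Derivation ℤ K K, Dv (st0 (K := K) x).1 (st0 (K := K) x).2 D := by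
  have hf := fra_base (K := K) hx hdim
  have h1 := pb p hf hk hF
  have h2 : ∀ c : (Fin n → Fin p) → O, ∑ b, (c b : K) ^ p * xb (st0 (K := K) x).2 b = 0 →
      ∀ b, c b = 0 := ind_pb p hf (fun q hq => kr_of hf hq)
  exact ⟨sp_of p hfr h1, li_of p hfr h2, exists_dv p hf.ne hf.mem hfr h1 h2⟩

include hSp hφ hd hω

theorem cov_main {a : O} (ha : a ≠ 0)
    (hpat : ∀ N, ∃ q, N ≤ q ∧ ∀ t : Fin n, ω (q + t) = Pi.single t a ∧
      ω (q + n + t) = Pi.single t a)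
    (hpat' : ∀ N, ∃ q, N ≤ q ∧ ∀ t, t < p → ∀ i, ω (q + t) i ≠ 0)
    {V : ValuationSubring K} (hV : ∀ z, z ∈ V ↔ ∃ l, z ∈ (sq piv (st0 x) ω l).1)
    {W : ValuationSubring L} (hW : ∀ w, w ∈ W ↔ φ w ∈ V) {z0 : L}
    (hgen : ∀ w : L, ∃ c : Fin p → K, w = ∑ e, ψ (c e) * z0 ^ (e : ℕ))
    (hz0 : ¬ ∃ q, φ z0 = q ^ p) {A : Subring L} (hA : A ≤ W.toSubring)
    (hAn : IsNoetherianRing A) (hAfr : ∀ w : L, ∃ a ∈ A, ∃ b ∈ A, b ≠ 0 ∧ w = a / b)
    {T0 T1 : Set L} (hT0 : T0.Finite) (hT1 : T1.Finite) (hT0W : ∀ t ∈ T0, t ∈ W)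
    (hT1W : ∀ t ∈ T1, t ∈ W)
    (hbase : lo W.toSubring (Subring.closure ((A : Set L) ∪ T0)) =
      lo W.toSubring (Subring.closure (((O.map ψ : Subring L) : Set L) ∪ T1))) :
    LogUnif W A := by
  classical
  have h0 := gd_base (K := K) hx hdim
  obtain ⟨hSp0, hLi0, D0, hD0⟩ := base_dv p hfr hx hdim hF hk
  have hne0 : ∀ i, (st0 (K := K) x).2 i ≠ 0 := fun i => (h0.nu i).2.1
  -- the generator
  obtain ⟨a1, b1, hb1, hab⟩ := hfr (φ z0)
  have hb1' : (b1 : K) ≠ 0 := fun h => hb1 (Subtype.ext h)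
  set z := z0 * ψ b1 with hzdef
  have hφz : φ z = φ z0 * (b1 : K) ^ p := by rw [hzdef, map_mul, hφ]
  have hzO : φ z ∈ O := by
    obtain ⟨m, hm⟩ := Nat.exists_eq_succ_of_ne_zero hpr.out.ne_zero
    have h1 : φ z = a1 * (b1 : K) ^ m := by
      rw [hφz, hab, hm, pow_succ]
      field_simp
    rw [h1]
    exact O.mul_mem a1.2 (O.pow_mem b1.2 _)
  have hznp : ¬ ∃ q, φ z = q ^ p := by
    rintro ⟨q, hq⟩
    refine hz0 ⟨q / b1, ?_⟩
    rw [div_pow, eq_div_iff (pow_ne_zero _ hb1'), ← hφz, hq]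
  have hzT : ∀ w, Tp p (φ z) (φ w) := by
    intro w
    obtain ⟨c, hc⟩ := hgen w
    refine ⟨fun e => c e * ((b1 : K) ^ (e : ℕ))⁻¹, ?_⟩
    rw [hc, map_sum]
    refine Finset.sum_congr rfl fun e _ => ?_
    have h1 : (b1 : K) ^ (e : ℕ) ≠ 0 := pow_ne_zero _ hb1'
    have h2 : (((b1 : K) ^ (e : ℕ))⁻¹) ^ p * ((b1 : K) ^ (e : ℕ)) ^ p = 1 := by
      rw [← mul_pow, inv_mul_cancel₀ h1, one_pow]
    rw [map_mul, hφ, map_pow, hφz, mul_pow (φ z0), ← pow_mul, mul_comm p (e : ℕ), pow_mul, mul_pow]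
    linear_combination -(c e ^ p * φ z0 ^ (e : ℕ)) * h2
  -- the initial order
  have hS : ∀ a ∈ S, ∀ D : Derivation ℤ K K, D (a : K) = 0 := by
    intro a ha D
    obtain ⟨b, rfl⟩ := hSp a ha
    push_cast
    exact der_pow_p p D _
  have hres0 : ∃ μ, Res (sq piv (st0 x) ω 0) (cq piv (st0 x) ω D0 (φ z) 0) μ := by
    obtain ⟨i, hi⟩ : ∃ i, D0 i (φ z) ≠ 0 := by
      by_contra hcon
      push Not at hcon
      exact hznp (pow_of_der p hne0 hSp0 hLi0 hD0 hcon)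
    have hcq : ∀ l, cq piv (st0 x) ω D0 (φ z) 0 l = D0 l (φ z) := by
      intro l
      change Cf (st0 (K := K) x).2 D0 ∅ (φ z) l = _
      unfold Cf
      rw [if_neg (Finset.notMem_empty l)]
    have hmem : ∀ l, D0 l (φ z) ∈ O := fun l => hD0.stab l _ hzO
    obtain ⟨μ, hμ⟩ := exists_inp (K := K) hx hdim (b := ⟨D0 i (φ z), hmem i⟩)
      fun h => hi (congrArg Subtype.val h)
    refine ⟨μ, 1, Mo.one, fun l => ?_, i, ?_⟩
    · rw [hcq, div_one]
      exact hmem l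
    · rw [hcq, div_one]
      exact hμ
  obtain ⟨μ, hμ⟩ := hres0
  obtain ⟨l1, -, hl1⟩ := exists_res_zero hd hω h0 ha hpat μ 0 hμ
  -- the valuation ring
  obtain ⟨V', hV', hmo, -, -, -⟩ := det (K := K) hfr hx hdim hd hω ha (fun N => by
    obtain ⟨q, hq, h⟩ := hpat N
    exact ⟨q, hq, fun t => (h t).1⟩)
  have hfa := fra_base (K := K) hx hdim
  have hreg : RegP V.toSubring (st0 (K := K) x).1 (st0 (K := K) x).2 := by
    refine ⟨sq_le hd hω h0 hV 0, fun i => (h0.nu i).2.1, fun i => (x i).2, inferInstance,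
      sq_inv hd hω h0 hV 0, ?_⟩
    have hind : Ind x := ind_of_span hx (by rwa [Fintype.card_fin])
    exact IndN.of_ind id Function.injective_id (fun i _ => ⟨i, rfl⟩) hind
  have hcg : ∀ N, ∃ m, N ≤ m ∧ ∃ j y Y, CG φ ψ p piv (st0 x) ω W z m j y Y := by
    intro N
    obtain ⟨l, hl, hall⟩ := hpat' (max N l1)
    have h1 := res_mono hd hω h0 (le_trans (le_max_right _ _) hl) hl1
    obtain ⟨t, ht, hG⟩ := exists_good p hk hd hω h0 hD0 hS hF (f := φ z) (l := l)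
      (sq_mono (piv := piv) (s0 := st0 x) (ω := ω) (Nat.zero_le l) hzO) h1 hall
    refine ⟨l + t, le_trans (le_trans (le_max_left _ _) hl) (Nat.le_add_right _ _), ?_⟩
    exact cg_of p hd hω h0 hV hφ hW hk hreg hfr hD0 hS hF hzT (hall t ht) hG
  have := hAn
  exact (cov_gp p hd hω h0 hV hφ hW hreg hmo (s0 := st0 x) hzO hcg hA hAfr hT0 hT1 hT0W hT1W
    hbase).logUnif hA

end main

end Pool.Agent.KS6_77.IC
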