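import Pool.Agent.KS6_77.IC.Cov

/-!
# Regularity of the cover at a good stage
-/

set_option autoImplicit false
set_option linter.unusedVariables false
set_option linter.unusedSectionVars false

universe u v w

namespace Pool.Agent.KS6_77.IC

open MvPolynomial IsLocalRing Pool.Agent.Q40.RP Pool.Agent.W418.LU2

section kr

variable {K : Type u} [Field K] {k : Type v} [Field k] {n : ℕ} {Q : Subring K} {ρ : Q →+* k}
  {x : Fin n → K}

lemma fra_max [IsLocalRing Q] (h : Fra Q ρ x) (q : Q) : q ∈ maximalIdeal Q ↔ ρ q = 0 := by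
  rw [mem_maximalIdeal, mem_nonunits_iff]
  constructor
  · intro hq
    by_contra h0
    apply hq
    have h1 := h.inv q h0
    have h2 : (q : K) ≠ 0 := by
      intro h3
      apply h0
      rw [show q = 0 from Subtype.ext h3, map_zero]
    exact isUnit_iff_exists_inv.2 ⟨⟨_, h1⟩, Subtype.ext (mul_inv_cancel₀ h2)⟩
  · intro h0 hu
    have := hu.map ρ
    rw [h0] at this
    exact not_isUnit_zero this

lemma kr_of [IsLocalRing Q] [IsNoetherianRing Q] (h : Fra Q ρ x) {b : Q} (hb : b ≠ 0) :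
    ∃ μ, ¬ Inp Q x (μ + 1) (b : K) := by
  have h1 : ∀ i, (⟨x i, h.mem i⟩ : Q) ∈ maximalIdeal Q := fun i =>
    (fra_max h _).2 (h.rho_x i)
  by_contra hcon
  push Not at hcon
  apply hb
  have h2 : b ∈ ⨅ i, maximalIdeal Q ^ i := by
    rw [Ideal.mem_iInf]
    intro i
    exact Ideal.pow_le_pow_right (Nat.le_succ i) (inp_base (x := fun i => ⟨x i, h.mem i⟩) h1
      (hcon i))
  rw [Ideal.iInf_pow_eq_bot_of_isLocalRing _ (maximalIdeal.isMaximal Q).ne_top] at h2
  exact h2

end kr

section creg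

variable {K : Type u} [Field K] {L : Type w} [Field L] {k : Type v} [Field k] {n : ℕ} (p : ℕ)
  [hpr : Fact p.Prime] [CharP K p] {Q : Subring K} {ρ : Q →+* k} {x : Fin n → K}
  {φ : L →+* K} {ψ : K →+* L}

/-- The elements of the cover. -/
theorem cov_mem (h : Fra Q ρ x) (hk : ∀ a : k, ∃ b : k, b ^ p = a) (hF : FF p Q)
    (hfr : ∀ z : K, ∃ a b : Q, b ≠ 0 ∧ z = a / b) [IsLocalRing Q] [IsNoetherianRing Q]
    (hφ : ∀ q, φ (ψ q) = q ^ p) {y : L} {i : Fin n} (hxi : x i = φ y)
    (hT : ∀ w, Tp p (φ y) (φ w)) {w : L} (hw : φ w ∈ Q) :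
    ∃ c : Fin p → Q, w = ∑ e, ψ (c e) * y ^ (e : ℕ) := by
  have hli : Li p x := li_of p hfr (ind_pb p h (fun q hq => kr_of h hq))
  have hTw := hT w
  rw [← hxi] at hTw
  obtain ⟨c, hc⟩ := tp_int p hli (pb p h hk hF) hw hTw
  refine ⟨c, φ.injective ?_⟩
  rw [hc, map_sum]
  refine Finset.sum_congr rfl fun e _ => ?_
  rw [map_mul, hφ, map_pow, hxi]

/-- The restriction of the map of fields. -/
def resφ (φ : L →+* K) (Q : Subring K) : Q.comap φ →+* Q where
  toFun w := ⟨φ w, w.2⟩
  map_one' := Subtype.ext (map_one φ)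
  map_mul' a b := Subtype.ext (map_mul φ _ _)
  map_zero' := Subtype.ext (map_zero φ)
  map_add' a b := Subtype.ext (map_add φ _ _)

omit hpr [CharP K p] in
lemma psi_mem (hφ : ∀ q, φ (ψ q) = q ^ p) {q : K} (hq : q ∈ Q) : ψ q ∈ Q.comap φ := by
  change φ (ψ q) ∈ Q
  rw [hφ]
  exact Q.pow_mem hq p

theorem creg (h : Fra Q ρ x) (hk : ∀ a : k, ∃ b : k, b ^ p = a) (hF : FF p Q)
    (hfr : ∀ z : K, ∃ a b : Q, b ≠ 0 ∧ z = a / b) (hreg : IsRegularLocalRing Q)
    (hdim : ((n : ℕ) : WithBot ℕ∞) ≤ ringKrullDim Q)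
    (hφ : ∀ q, φ (ψ q) = q ^ p) {y : L} {i : Fin n} (hxi : x i = φ y)
    (hT : ∀ w, Tp p (φ y) (φ w)) {V : ValuationSubring K} {W : ValuationSubring L}
    (hW : ∀ w, w ∈ W ↔ φ w ∈ V) (hQV : Q ≤ V.toSubring)
    (hinv : ∀ y ∈ Q, y ≠ 0 → y⁻¹ ∈ V → y⁻¹ ∈ Q) :
    RegP W.toSubring (Q.comap φ) (fun l => if l = i then y else ψ (x l)) := by
  classical
  have hxne : ∀ l, x l ≠ 0 := h.ne
  have hψinj := ψ.injective
  have hy0 : y ≠ 0 := by
    rintro rfl
    rw [map_zero] at hxi
    exact hxne i hxi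
  have hyP : y ∈ Q.comap φ := by
    change φ y ∈ Q
    rw [← hxi]
    exact h.mem i
  have hψP : ∀ q ∈ Q, ψ q ∈ Q.comap φ := fun q hq => psi_mem p hφ hq
  have hmem : ∀ l, (if l = i then y else ψ (x l)) ∈ Q.comap φ := by
    intro l
    split_ifs
    · exact hyP
    · exact hψP _ (h.mem l)
  have hφne : ∀ w : L, w ≠ 0 → φ w ≠ 0 := fun w hw => phi_ne hw
  -- the ring is local
  have hloc : IsLocalHom (resφ φ Q) := by
    constructor
    intro w hw
    obtain ⟨v, hv⟩ := isUnit_iff_exists_inv.1 hw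
    have h1 : φ (w : L) * v = 1 := congrArg Subtype.val hv
    have h2 : φ (w : L) ≠ 0 := left_ne_zero_of_mul_eq_one h1
    have h3 : (w : L) ≠ 0 := by
      intro h3
      rw [h3, map_zero] at h2
      exact h2 rfl
    refine isUnit_iff_exists_inv.2 ⟨⟨(w : L)⁻¹, ?_⟩, Subtype.ext (mul_inv_cancel₀ h3)⟩
    change φ ((w : L)⁻¹) ∈ Q
    rw [map_inv₀, ← eq_inv_of_mul_eq_one_right h1]
    exact v.2
  have hlocP : IsLocalRing (Q.comap φ) := RingHom.domain_isLocalRing (resφ φ Q)
  have hmaxP : ∀ w : Q.comap φ, w ∈ maximalIdeal (Q.comap φ) ↔ ρ (resφ φ Q w) = 0 := by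
    intro w
    rw [← fra_max h, mem_maximalIdeal, mem_maximalIdeal, mem_nonunits_iff, mem_nonunits_iff,
      isUnit_map_iff]
  -- the ring is finite over `Q`
  let ψ' : Q →+* Q.comap φ :=
    { toFun := fun q => ⟨ψ q, hψP q q.2⟩
      map_one' := Subtype.ext (map_one ψ)
      map_mul' := fun a b => Subtype.ext (map_mul ψ _ _)
      map_zero' := Subtype.ext (map_zero ψ)
      map_add' := fun a b => Subtype.ext (map_add ψ _ _) }
  have hgen : ∀ w : Q.comap φ, ∃ c : Fin p → Q, w = ∑ e, ψ' (c e) * ⟨y, hyP⟩ ^ (e : ℕ) := by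
    intro w
    obtain ⟨c, hc⟩ := cov_mem p h hk hF hfr hφ hxi hT (w := w) w.2
    refine ⟨c, Subtype.ext ?_⟩
    rw [hc]
    push_cast
    rfl
  have hnoe : IsNoetherianRing (Q.comap φ) := by
    let _ := ψ'.toAlgebra
    have hfin : Module.Finite Q (Q.comap φ) := by
      refine ⟨Finset.univ.image (fun e : Fin p => (⟨y, hyP⟩ : Q.comap φ) ^ (e : ℕ)), ?_⟩
      rw [eq_top_iff]
      rintro w -
      obtain ⟨c, hc⟩ := hgen w
      rw [hc]
      refine Submodule.sum_mem _ fun e _ => ?_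
      have h1 : ψ' (c e) * (⟨y, hyP⟩ : Q.comap φ) ^ (e : ℕ) =
          c e • (⟨y, hyP⟩ : Q.comap φ) ^ (e : ℕ) := by
        rw [Algebra.smul_def]
        rfl
      rw [h1]
      exact Submodule.smul_mem _ _ (Submodule.subset_span (by simp))
    exact IsNoetherianRing.of_finite Q (Q.comap φ)
  -- the maximal ideal
  let Y : Fin n → Q.comap φ := fun l => ⟨_, hmem l⟩
  have hYi : Y i = ⟨y, hyP⟩ := Subtype.ext (if_pos rfl)
  have hYl : ∀ l, l ≠ i → Y l = ψ' ⟨x l, h.mem l⟩ := fun l hl => Subtype.ext (if_neg hl)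
  have hspan : Ideal.span (Set.range Y) = maximalIdeal (Q.comap φ) := by
    apply le_antisymm
    · rw [Ideal.span_le]
      rintro _ ⟨l, rfl⟩
      change Y l ∈ maximalIdeal (Q.comap φ)
      rw [hmaxP]
      by_cases hl : l = i
      · subst hl
        rw [hYi]
        have h1 : resφ φ Q ⟨y, hyP⟩ = ⟨x l, h.mem l⟩ := Subtype.ext hxi.symm
        rw [h1, h.rho_x]
      · rw [hYl l hl]
        have h1 : resφ φ Q (ψ' ⟨x l, h.mem l⟩) = ⟨x l, h.mem l⟩ ^ p := by
          apply Subtype.ext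
          change φ (ψ (x l)) = _
          rw [hφ]
          rfl
        rw [h1, map_pow, h.rho_x, zero_pow hpr.out.ne_zero]
    · intro w hw
      rw [hmaxP] at hw
      obtain ⟨c, hc⟩ := hgen w
      let z0 : Fin p := ⟨0, hpr.out.pos⟩
      have hYim : (⟨y, hyP⟩ : Q.comap φ) ∈ Ideal.span (Set.range Y) := by
        rw [← hYi]
        exact Ideal.subset_span ⟨i, rfl⟩
      have hrest : ∀ e, e ≠ z0 → ψ' (c e) * (⟨y, hyP⟩ : Q.comap φ) ^ (e : ℕ) ∈
          Ideal.span (Set.range Y) := by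
        intro e he
        obtain ⟨m, hm⟩ := Nat.exists_eq_succ_of_ne_zero (n := (e : ℕ)) fun h0 => he (Fin.ext h0)
        rw [hm, pow_succ, ← mul_assoc]
        exact Ideal.mul_mem_left _ _ hYim
      have h1 : ρ (c z0) = 0 := by
        have h2 : resφ φ Q w = ∑ e, c e ^ p * ⟨x i, h.mem i⟩ ^ (e : ℕ) := by
          apply Subtype.ext
          change φ (w : L) = _
          rw [hc]
          push_cast
          rw [map_sum]
          refine Finset.sum_congr rfl fun e _ => ?_
          rw [map_mul, map_pow, ← hxi]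
          change φ (ψ (c e)) * _ = _
          rw [hφ]
        rw [h2, map_sum, Finset.sum_eq_single z0] at hw
        · rw [map_mul, map_pow, map_pow] at hw
          change ρ (c z0) ^ p * ρ ⟨x i, h.mem i⟩ ^ 0 = 0 at hw
          rw [pow_zero, mul_one] at hw
          exact (pow_eq_zero_iff hpr.out.ne_zero).1 hw
        · intro e _ he
          rw [map_mul, map_pow, map_pow, h.rho_x, zero_pow, mul_zero]
          intro h0
          exact he (Fin.ext h0)
        · intro h0
          exact absurd (Finset.mem_univ _) h0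
      obtain ⟨d, hd⟩ := (h.ker _).1 h1
      have h2 : ψ' (c z0) = ∑ l, ψ' (d l) * ψ' ⟨x l, h.mem l⟩ := by
        rw [← Finset.sum_congr rfl fun l _ => map_mul ψ' _ _, ← map_sum]
        congr 1
        apply Subtype.ext
        rw [hd]
        push_cast
        rfl
      have h3 : ψ' (c z0) ∈ Ideal.span (Set.range Y) := by
        rw [h2]
        refine Ideal.sum_mem _ fun l _ => Ideal.mul_mem_left _ _ ?_
        by_cases hl : l = i
        · subst hl
          have h4 : ψ' ⟨x l, h.mem l⟩ = ⟨y, hyP⟩ ^ p := by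
            apply Subtype.ext
            apply φ.injective
            change φ (ψ (x l)) = φ (y ^ p)
            rw [hφ, map_pow, hxi]
          obtain ⟨m, hm⟩ := Nat.exists_eq_succ_of_ne_zero hpr.out.ne_zero
          rw [h4, hm, pow_succ]
          exact Ideal.mul_mem_left _ _ hYim
        · rw [← hYl l hl]
          exact Ideal.subset_span ⟨l, rfl⟩
      rw [hc]
      refine Ideal.sum_mem _ fun e _ => ?_
      by_cases he : e = z0
      · rw [he]
        exact Ideal.mul_mem_right _ _ h3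
      · exact hrest e he
  -- the dimension
  have hdimP : ringKrullDim Q ≤ ringKrullDim (Q.comap φ) := by
    refine Order.krullDim_le_of_strictMono (PrimeSpectrum.comap (resφ φ Q)) ?_
    intro a b hab
    refine lt_of_le_of_ne (fun w hw => hab.le hw) fun heq => ?_
    apply hab.not_ge
    intro q hq
    have h1 : ψ' q ∈ (PrimeSpectrum.comap (resφ φ Q) b).asIdeal := by
      change resφ φ Q (ψ' q) ∈ b.asIdeal
      have h2 : resφ φ Q (ψ' q) = q ^ p := Subtype.ext (hφ q)
      rw [h2]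
      exact Ideal.pow_mem_of_mem _ hq p hpr.out.pos
    rw [← heq] at h1
    have h2 : resφ φ Q (ψ' q) ∈ a.asIdeal := h1
    have h3 : resφ φ Q (ψ' q) = q ^ p := Subtype.ext (hφ q)
    rw [h3] at h2
    exact a.2.mem_of_pow_mem _ h2
  have hn : ((n : ℕ) : WithBot ℕ∞) ≤ ringKrullDim (Q.comap φ) := hdim.trans hdimP
  have hregP : IsRegularLocalRing (Q.comap φ) := by
    apply IsRegularLocalRing.of_spanFinrank_maximalIdeal_le
    refine le_trans ?_ hn
    rw [← hspan]
    have h1 : (Ideal.span (Set.range Y)).spanFinrank ≤ (Set.range Y).ncard :=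
      Submodule.spanFinrank_span_le_ncard_of_finite (Set.finite_range Y)
    have h2 : (Set.range Y).ncard ≤ n := by
      rw [← Set.image_univ]
      refine (Set.ncard_image_le Set.finite_univ).trans ?_
      rw [Set.ncard_univ, Nat.card_eq_fintype_card, Fintype.card_fin]
    exact_mod_cast h1.trans h2
  refine ⟨?_, ?_, hmem, hregP, ?_, ?_⟩
  · intro w hw
    exact (hW w).2 (hQV hw)
  · intro l
    split_ifs
    · exact hy0
    · exact fun h0 => hxne l (hψinj (by rw [h0, map_zero]))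
  · intro w hw hw0 hwi
    change φ w⁻¹ ∈ Q
    have h1 : φ w⁻¹ ∈ V := (hW _).1 hwi
    rw [map_inv₀] at h1 ⊢
    exact hinv _ hw (hφne w hw0) h1
  · have hind : Ind Y := ind_of_span hspan (by rwa [Fintype.card_fin])
    exact IndN.of_ind id Function.injective_id (fun i _ => ⟨i, rfl⟩) hind

end creg

end Pool.Agent.KS6_77.IC
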