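import Pool.Agent.KS6_77.IC.Str

/-!
# The cover at a good stage
-/

set_option autoImplicit false
set_option linter.unusedVariables false
set_option linter.unusedSectionVars false

universe u v w

namespace Pool.Agent.KS6_77.IC

open MvPolynomial IsLocalRing Pool.Agent.Q40.RP Pool.Agent.W418.LU2

section cov

variable {K : Type u} [Field K] {L : Type w} [Field L] {k : Type v} [Field k] {n : ℕ} (p : ℕ)
  [hpr : Fact p.Prime] [CharP K p] {O : Subring K} {ρ0 : O →+* k}
  {φ : L →+* K} {ψ : K →+* L}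

lemma phi_ne {w : L} (hw : w ≠ 0) : φ w ≠ 0 := fun h => hw (φ.injective (by rw [h, map_zero]))

include p hpr in
/-- Powers of natural numbers prime to `p`. -/
lemma nat_unit {Q : Subring K} {a : ℤ} (ha : (a : K) ≠ 0) : (a : K)⁻¹ ∈ Q := by
  have h1 : ((a : ZMod p)) ≠ 0 := by
    intro h
    apply ha
    have := congrArg (ZMod.castHom (dvd_refl p) K) h
    rwa [map_intCast, map_zero] at this
  have h2 : (a : K) ^ (p - 1) = 1 := by
    have := congrArg (ZMod.castHom (dvd_refl p) K) (ZMod.pow_card_sub_one_eq_one h1)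
    rwa [map_pow, map_intCast, map_one] at this
  have h3 : (a : K)⁻¹ = (a : K) ^ (p - 2) := by
    have h4 := hpr.out.two_le
    obtain ⟨m, hm⟩ := Nat.exists_eq_add_of_le' h4
    rw [hm] at h2 ⊢
    rw [show m + 2 - 1 = m + 1 by omega, pow_succ] at h2
    rw [show m + 2 - 2 = m by omega]
    exact inv_eq_of_mul_eq_one_left h2
  rw [h3]
  exact Q.pow_mem (intCast_mem _ _) _

/-- The generator of the cover at a good stage. -/
theorem exists_cov {s : Sta K n} (hs : Gd O ρ0 s) {D : Fin n → Derivation ℤ K K}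
    (hD : Dv s.1 s.2 D) {j : Fin n} (hφ : ∀ q, φ (ψ q) = q ^ p) {z : L}
    (hG : Good p s j D (φ z)) (hz : ∀ w, Tp p (φ z) (φ w)) :
    ∃ (y : L) (i : Fin n) (q : Fin n → s.1), U s.1 (q i : K) ∧
      φ y = ∑ l, (q l : K) * s.2 l ∧ (∀ w, Tp p (φ y) (φ w)) ∧
      (∃ h0 ∈ s.1, ∃ α β : ℕ, y * ψ (s.2 j) ^ β = (z - ψ h0) ^ α) ∧
      ∀ h : L, h ≠ 0 → Sm s j (φ h) → ∃ γ : ℤ,
        U s.1 (φ (h * (Function.update (fun l => ψ (s.2 l)) i y j) ^ γ)) := by
  classical
  obtain ⟨h0, g, a, hh0, hg, hf, hcase⟩ := hG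
  have hxj : s.2 j ≠ 0 := (hs.nu j).2.1
  have hψx : ψ (s.2 j) ≠ 0 := fun h => hxj (ψ.injective (by rw [h, map_zero]))
  have hZ : φ (z - ψ h0) = s.2 j ^ a * g := by
    rw [map_sub, hφ, hf]
    ring
  rcases hcase with ⟨hpa, hUg⟩ | ⟨⟨m, hm⟩, hg1, i, hij, hUi⟩
  · -- the exponent is prime to `p`
    obtain ⟨α, β, hαβ⟩ : ∃ α β : ℕ, α * a = 1 + p * β := by
      have hcop : Nat.Coprime a p := by
        rw [Nat.coprime_comm]
        exact (Nat.Prime.coprime_iff_not_dvd hpr.out).2 hpa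
      obtain ⟨α, hα⟩ := Nat.exists_mul_mod_eq_one_of_coprime hcop hpr.out.one_lt
      refine ⟨α, (a * α) / p, ?_⟩
      rw [← hα.2, mul_comm α a, add_comm]
      exact (Nat.div_add_mod (a * α) p).symm
    set Z := s.2 j ^ a * g with hZdef
    have hZ0 : Z ≠ 0 := mul_ne_zero (pow_ne_zero _ hxj) hUg.1
    set y := (z - ψ h0) ^ α / ψ (s.2 j) ^ β with hy
    have hφy : φ y = s.2 j * g ^ α := by
      rw [hy, map_div₀, map_pow, hZ, map_pow, hφ, ← pow_mul, div_eq_iff (pow_ne_zero _ hxj),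
        hZdef, mul_pow, ← pow_mul, mul_comm a α, hαβ, pow_add, pow_one]
      ring
    have hg0 := hUg.1
    have hφy0 : φ y ≠ 0 := by
      rw [hφy]; exact mul_ne_zero hxj (pow_ne_zero _ hg0)
    have hy0 : y ≠ 0 := by
      intro h
      rw [h, map_zero] at hφy0
      exact hφy0 rfl
    have hgα : g ^ α ∈ s.1 := s.1.pow_mem hg _
    refine ⟨y, j, Pi.single j ⟨g ^ α, hgα⟩, ?_, ?_, ?_, ?_, ?_⟩
    · rw [Pi.single_eq_same]
      exact hUg.pow α
    · rw [Finset.sum_eq_single j]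
      · rw [Pi.single_eq_same, hφy]
        ring
      · intro l _ hl
        rw [Pi.single_eq_of_ne hl, ZeroMemClass.coe_zero, zero_mul]
      · intro h
        exact absurd (Finset.mem_univ _) h
    · intro w
      refine tp_trans p ?_ (hz w)
      rw [hf]
      refine tp_add p (tp_pp p _) ?_
      have h1 : Z = (s.2 j ^ (β * a) / Z ^ β) ^ p * φ y ^ a := by
        have h2 : Z ^ (α * a) = Z * (Z ^ β) ^ p := by
          rw [hαβ, pow_add, pow_one, ← pow_mul, mul_comm β p]
        have h3 : φ y * (s.2 j ^ β) ^ p = Z ^ α := by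
          rw [hy, map_div₀, map_pow, hZ, map_pow, hφ, ← pow_mul, ← pow_mul, mul_comm p β]
          exact div_mul_cancel₀ _ (pow_ne_zero _ hxj)
        have h4 : Z ^ (α * a) = φ y ^ a * (s.2 j ^ (β * a)) ^ p := by
          rw [pow_mul, ← h3, mul_pow, ← pow_mul, ← pow_mul, ← pow_mul]
          congr 2
          ring
        rw [div_pow, div_mul_eq_mul_div, eq_div_iff (pow_ne_zero _ (pow_ne_zero _ hZ0)), ← h2, h4]
        ring
      rw [h1]
      exact tp_mon p _ _
    · refine ⟨h0, hh0, α, β, ?_⟩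
      rw [hy]
      exact div_mul_cancel₀ _ (pow_ne_zero _ hψx)
    · rintro h hh ⟨u, hu, γ, hγ⟩
      refine ⟨-γ, ?_⟩
      rw [Function.update_self, map_mul, map_zpow₀, hφy, hγ]
      have h1 : u * s.2 j ^ γ * (s.2 j * g ^ α) ^ (-γ) = u * (g ^ α) ^ (-γ) := by
        rw [mul_zpow, zpow_neg, zpow_neg]
        have := zpow_ne_zero γ hxj
        field_simp
      rw [h1]
      exact hu.mul ((hUg.pow α).zpow _)
  · -- the exponent is divisible by `p`
    have hDj := hD.dual
    obtain ⟨hO, ρ, hfr, hρ⟩ := id hs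
    obtain ⟨q, hq⟩ := (hfr.ker ⟨g, hg⟩).1 ((inp_one_iff hfr hg).1 hg1)
    change g = _ at hq
    set y := (z - ψ h0) / ψ (s.2 j) ^ m with hy
    have hφy : φ y = g := by
      rw [hy, map_div₀, hZ, map_pow, hφ, ← pow_mul, ← hm, mul_div_cancel_left₀]
      exact pow_ne_zero _ hxj
    have hqi : U s.1 (q i : K) := by
      have h1 : D i g = q i + ∑ l, D i (q l : K) * s.2 l := by
        rw [hq, map_sum]
        have h2 : ∀ l, D i ((q l : K) * s.2 l) = (if i = l then (q l : K) else 0) +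
            D i (q l : K) * s.2 l := by
          intro l
          rw [Derivation.leibniz, hDj, smul_eq_mul, smul_eq_mul]
          by_cases hl : i = l
          · rw [if_pos hl, if_pos hl]; ring
          · rw [if_neg hl, if_neg hl]; ring
        rw [Finset.sum_congr rfl fun l _ => h2 l, Finset.sum_add_distrib, Finset.sum_ite_eq,
          if_pos (Finset.mem_univ _)]
      have h2 : ∑ l, D i (q l : K) * s.2 l ∈ s.1 := s.1.sum_mem fun l _ =>
        s.1.mul_mem (hD.stab i _ (q l).2) (hfr.mem l)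
      have h3 : Inp s.1 s.2 1 (∑ l, D i (q l : K) * s.2 l) := inp_sum _ fun l _ =>
        inp_mul (hD.stab i _ (q l).2) ⟨X l, Low.X l, ev_X _ _ _⟩
      have h4 := (inp_one_iff hfr h2).1 h3
      have h5 : D i g ∈ s.1 := hD.stab i _ hg
      have h6 := (U_iff hfr h5).1 hUi
      rw [U_iff hfr (q i).2]
      have h7 : (⟨D i g, h5⟩ : s.1) = q i + ⟨_, h2⟩ := Subtype.ext h1
      rw [h7, map_add, h4, add_zero] at h6
      exact h6
    have hg0 : g ≠ 0 := by
      rintro rfl
      apply hUi.1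
      rw [map_zero]
    have hTg : ∀ w, Tp p g (φ w) := by
      intro w
      refine tp_trans p ?_ (hz w)
      rw [hf]
      refine tp_add p (tp_pp p _) ?_
      rw [hm, mul_comm p m, pow_mul]
      have := tp_mon p (Y := g) (s.2 j ^ m) 1
      rwa [pow_one] at this
    refine ⟨y, i, q, hqi, by rw [hφy]; exact hq, by rw [hφy]; exact hTg, ?_, ?_⟩
    · refine ⟨h0, hh0, 1, m, ?_⟩
      rw [hy, pow_one]
      exact div_mul_cancel₀ _ (pow_ne_zero _ hψx)
    · rintro h hh ⟨u, hu, γ, hγ⟩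
      obtain ⟨θ, hθ⟩ := tp_der p (hTg h)
      have hzx : ∀ (D' : Derivation ℤ K K) (γ : ℤ), D' (s.2 j ^ γ) =
          γ * s.2 j ^ γ / s.2 j * D' (s.2 j) := by
        intro D' γ
        rw [Derivation.leibniz_zpow, zsmul_eq_mul, smul_eq_mul, zpow_sub_one₀ hxj]
        ring
      have h1 : ∀ D' : Derivation ℤ K K, D' (φ h) = s.2 j ^ γ * D' u +
          u * (γ * s.2 j ^ γ / s.2 j * D' (s.2 j)) := by
        intro D'
        rw [hγ, Derivation.leibniz, hzx, smul_eq_mul, smul_eq_mul]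
        ring
      have h2 := h1 (D i)
      rw [hDj, if_neg hij, mul_zero, mul_zero, add_zero, hθ] at h2
      have h3 := h1 (D j)
      rw [hDj, if_pos rfl, mul_one, hθ] at h3
      have hxγ : s.2 j ^ γ ≠ 0 := zpow_ne_zero _ hxj
      have h4 : θ = s.2 j ^ γ * (D i u * (D i g)⁻¹) := by
        have := hUi.1
        field_simp
        exact h2
      have h5 : u * (γ / s.2 j) = D i u * (D i g)⁻¹ * D j g - D j u := by
        rw [h4] at h3
        have h6 : s.2 j ^ γ * (u * (γ / s.2 j)) =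
            s.2 j ^ γ * (D i u * (D i g)⁻¹ * D j g - D j u) := by
          have h7 : s.2 j ^ γ * (u * (γ / s.2 j)) = u * (γ * s.2 j ^ γ / s.2 j) := by ring
          rw [h7]
          linear_combination -h3
        exact mul_left_cancel₀ hxγ h6
      have h6 : (γ : K) = 0 := by
        by_contra hne
        have h7 : (s.2 j)⁻¹ = u⁻¹ * (γ : K)⁻¹ * (u * (γ / s.2 j)) := by
          have := hu.1
          field_simp
        have h8 : (s.2 j)⁻¹ ∈ s.1 := by
          rw [h7, h5]
          exact s.1.mul_mem (s.1.mul_mem hu.2.2 (nat_unit p hne)) (s.1.sub_mem (s.1.mul_mem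
            (s.1.mul_mem (hD.stab i _ hu.2.1) hUi.2.2) (hD.stab j _ hg)) (hD.stab j _ hu.2.1))
        exact (hs.nu j).2.2 h8
      obtain ⟨γ', hγ'⟩ := (CharP.intCast_eq_zero_iff K p γ).1 h6
      refine ⟨-γ', ?_⟩
      rw [Function.update_of_ne (Ne.symm hij), map_mul, map_zpow₀, hφ, hγ, hγ', mul_assoc]
      have h7 : s.2 j ^ ((p : ℤ) * γ') * (s.2 j ^ p) ^ (-γ') = 1 := by
        rw [← zpow_natCast, ← zpow_mul, ← zpow_add₀ hxj]
        rw [show (p : ℤ) * γ' + (p : ℤ) * -γ' = 0 by ring, zpow_zero]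
      rw [h7, mul_one]
      exact hu

end cov

end Pool.Agent.KS6_77.IC
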