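import Pool.Agent.KS6_77.IC.PB

/-!
# Derivations dual to a `p`-basis
-/

set_option autoImplicit false
set_option linter.unusedVariables false
set_option linter.unusedSectionVars false

universe u v

namespace Pool.Agent.KS6_77.IC

open MvPolynomial IsLocalRing Pool.Agent.Q40.RP

section der

variable {K : Type u} [Field K] {n : ℕ} (p : ℕ) [hpr : Fact p.Prime] [CharP K p]
  {x : Fin n → K}

lemma der_pow_p (D : Derivation ℤ K K) (c : K) : D (c ^ p) = 0 := by
  rw [D.leibniz_pow, ← Nat.cast_smul_eq_nsmul K, CharP.cast_eq_zero, zero_smul]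

lemma der_pow_p_mul (D : Derivation ℤ K K) (c f : K) : D (c ^ p * f) = c ^ p * D f := by
  rw [D.leibniz, der_pow_p p D, smul_zero, add_zero, smul_eq_mul]

/-- The linear independence over the field of `p`-th powers. -/
def Li (x : Fin n → K) : Prop :=
  ∀ c : (Fin n → Fin p) → K, ∑ b, c b ^ p * xb x b = 0 → ∀ b, c b = 0

/-- The monomials span the field. -/
def Sp (x : Fin n → K) : Prop := ∀ f : K, ∃ c : (Fin n → Fin p) → K, f = ∑ b, c b ^ p * xb x b

lemma Li.unique {x : Fin n → K} (h : Li p x) {c d : (Fin n → Fin p) → K}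
    (he : ∑ b, c b ^ p * xb x b = ∑ b, d b ^ p * xb x b) : c = d := by
  funext b
  rw [← sub_eq_zero]
  refine h (fun b => c b - d b) ?_ b
  rw [← sub_eq_zero, ← Finset.sum_sub_distrib] at he
  rw [← he]
  refine Finset.sum_congr rfl fun b _ => ?_
  rw [sub_pow_char, sub_mul]

/-- Reduction of the exponents. -/
lemma red_mon (x : Fin n → K) (c : K) (γ : Fin n → ℕ) : c ^ p * ∏ i, x i ^ γ i =
    (c * ∏ i, x i ^ (γ i / p)) ^ p * xb x (fun i => ⟨γ i % p, Nat.mod_lt _ hpr.out.pos⟩) := by
  unfold xb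
  rw [mul_pow, ← Finset.prod_pow, mul_assoc, ← Finset.prod_mul_distrib]
  congr 1
  refine Finset.prod_congr rfl fun i _ => ?_
  change _ = (x i ^ (γ i / p)) ^ p * x i ^ (γ i % p)
  rw [← pow_mul, ← pow_add, mul_comm (γ i / p) p, Nat.div_add_mod]

theorem exists_der (hs : Sp p x) (hi : Li p x) : ∃ D : Fin n → Derivation ℤ K K,
    ∀ (i : Fin n) (c : K) (γ : Fin n → ℕ),
      D i (c ^ p * ∏ l, x l ^ γ l) = c ^ p * (γ i * ((∏ l, x l ^ γ l) / x i)) := by
  classical
  choose cf hcf using hs
  let E : Fin n → K → K := fun i f => ∑ b, cf f b ^ p * (((b i : ℕ) : K) * (xb x b / x i))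
  have hadd : ∀ f g, cf (f + g) = cf f + cf g := by
    intro f g
    refine hi.unique p ?_
    rw [← hcf]
    nth_rewrite 1 [hcf f, hcf g]
    rw [← Finset.sum_add_distrib]
    refine Finset.sum_congr rfl fun b _ => ?_
    rw [Pi.add_apply, add_pow_char, add_mul]
  have hEadd : ∀ i f g, E i (f + g) = E i f + E i g := by
    intro i f g
    simp only [E]
    rw [hadd, ← Finset.sum_add_distrib]
    refine Finset.sum_congr rfl fun b _ => ?_
    rw [Pi.add_apply, add_pow_char, add_mul]
  have hE0 : ∀ i, E i 0 = 0 := by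
    intro i
    have h1 := hEadd i 0 0
    rw [add_zero] at h1
    exact left_eq_add.1 h1
  have hEsum : ∀ (i : Fin n) {ι : Type} (s : Finset ι) (f : ι → K),
      E i (∑ l ∈ s, f l) = ∑ l ∈ s, E i (f l) := by
    intro i ι s f
    induction s using Finset.induction_on with
    | empty => rw [Finset.sum_empty, Finset.sum_empty, hE0]
    | insert a s ha ih => rw [Finset.sum_insert ha, Finset.sum_insert ha, hEadd, ih]
  have hEb : ∀ i (c : K) (b : Fin n → Fin p), E i (c ^ p * xb x b) =
      c ^ p * (((b i : ℕ) : K) * (xb x b / x i)) := by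
    intro i c b
    have h1 : cf (c ^ p * xb x b) = Pi.single b c := by
      refine hi.unique p ?_
      rw [← hcf, Finset.sum_eq_single b]
      · rw [Pi.single_eq_same]
      · intro b' _ hb'
        rw [Pi.single_eq_of_ne hb', zero_pow hpr.out.ne_zero, zero_mul]
      · intro h
        exact absurd (Finset.mem_univ _) h
    simp only [E]
    rw [h1, Finset.sum_eq_single b]
    · rw [Pi.single_eq_same]
    · intro b' _ hb'
      rw [Pi.single_eq_of_ne hb', zero_pow hpr.out.ne_zero, zero_mul]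
    · intro h
      exact absurd (Finset.mem_univ _) h
  have hEm : ∀ i (c : K) (γ : Fin n → ℕ), E i (c ^ p * ∏ l, x l ^ γ l) =
      c ^ p * (γ i * ((∏ l, x l ^ γ l) / x i)) := by
    intro i c γ
    have h1 : ∏ l, x l ^ γ l = (∏ l, x l ^ (γ l / p)) ^ p *
        xb x (fun i => ⟨γ i % p, Nat.mod_lt _ hpr.out.pos⟩) := by
      have := red_mon p x 1 γ
      rwa [one_pow, one_mul, one_mul] at this
    rw [red_mon p x c γ, hEb]
    change (c * ∏ i, x i ^ (γ i / p)) ^ p * (((γ i % p : ℕ) : K) * _) = _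
    have h2 : ((γ i % p : ℕ) : K) = (γ i : K) := by
      conv_rhs => rw [← Nat.div_add_mod (γ i) p]
      rw [Nat.cast_add, Nat.cast_mul, CharP.cast_eq_zero K p, zero_mul, zero_add]
    rw [h2, h1, mul_pow]
    ring
  have hleib : ∀ i f g, E i (f * g) = f * E i g + g * E i f := by
    intro i f g
    have h1 : f * g = ∑ b, ∑ b', (cf f b * cf g b') ^ p * ∏ l, x l ^ ((b l : ℕ) + (b' l : ℕ)) := by
      nth_rewrite 1 [hcf f, hcf g]
      rw [Finset.sum_mul_sum]
      refine Finset.sum_congr rfl fun b _ => Finset.sum_congr rfl fun b' _ => ?_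
      unfold xb
      simp only [pow_add, Finset.prod_mul_distrib, mul_pow]
      ring
    have hg : ∀ h : K, E i h = ∑ b, cf h b ^ p * (((b i : ℕ) : K) * (xb x b / x i)) := fun _ => rfl
    rw [h1, hEsum]
    have h2 : ∀ b b', E i ((cf f b * cf g b') ^ p * ∏ l, x l ^ ((b l : ℕ) + (b' l : ℕ))) =
        (cf f b ^ p * xb x b) * (cf g b' ^ p * (((b' i : ℕ) : K) * (xb x b' / x i))) +
        (cf g b' ^ p * xb x b') * (cf f b ^ p * (((b i : ℕ) : K) * (xb x b / x i))) := by
      intro b b'
      rw [hEm]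
      unfold xb
      simp only [pow_add, Finset.prod_mul_distrib, mul_pow]
      push_cast
      ring
    calc ∑ b, E i (∑ b', (cf f b * cf g b') ^ p * ∏ l, x l ^ ((b l : ℕ) + (b' l : ℕ)))
        = ∑ b, ∑ b', ((cf f b ^ p * xb x b) * (cf g b' ^ p * (((b' i : ℕ) : K) *
          (xb x b' / x i))) +
          (cf g b' ^ p * xb x b') * (cf f b ^ p * (((b i : ℕ) : K) * (xb x b / x i)))) := by
          refine Finset.sum_congr rfl fun b _ => ?_
          rw [hEsum]
          exact Finset.sum_congr rfl fun b' _ => h2 b b'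
      _ = f * E i g + g * E i f := by
          simp only [Finset.sum_add_distrib]
          rw [hg g, hg f]
          nth_rewrite 3 [hcf f]
          nth_rewrite 4 [hcf g]
          rw [Finset.sum_mul_sum, Finset.sum_mul_sum]
          congr 1
          rw [Finset.sum_comm]
  refine ⟨fun i => Derivation.mk' (AddMonoidHom.toIntLinearMap
    { toFun := E i, map_zero' := hE0 i, map_add' := hEadd i }) (fun f g => hleib i f g), ?_⟩
  intro i c γ
  exact hEm i c γ

/-- The monomials span the field of fractions. -/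
lemma sp_of {Q : Subring K} (hfr : ∀ z : K, ∃ a b : Q, b ≠ 0 ∧ z = a / b)
    (h : ∀ q : Q, ∃ c : (Fin n → Fin p) → Q, (q : K) = ∑ b, (c b : K) ^ p * xb x b) :
    Sp p x := by
  intro z
  obtain ⟨a, b, hb, rfl⟩ := hfr z
  obtain ⟨c, hc⟩ := h (a * b ^ (p - 1))
  have hb0 : (b : K) ≠ 0 := fun h => hb (Subtype.ext h)
  refine ⟨fun l => c l / b, ?_⟩
  have h1 : ∀ l, ((c l : K) / b) ^ p * xb x l = ((c l : K) ^ p * xb x l) / (b : K) ^ p := by
    intro l
    rw [div_pow]
    ring
  rw [Finset.sum_congr rfl fun l _ => h1 l, ← Finset.sum_div, ← hc]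
  push_cast
  obtain ⟨m, hm⟩ := Nat.exists_eq_succ_of_ne_zero hpr.out.ne_zero
  have h2 : p - 1 = m := by omega
  rw [h2, hm, pow_succ]
  field_simp

/-- The monomials are independent over the field of fractions. -/
lemma li_of {Q : Subring K} (hfr : ∀ z : K, ∃ a b : Q, b ≠ 0 ∧ z = a / b)
    (h : ∀ c : (Fin n → Fin p) → Q, ∑ b, (c b : K) ^ p * xb x b = 0 → ∀ b, c b = 0) :
    Li p x := by
  classical
  intro c hc b
  choose u v hv huv using fun b => hfr (c b)
  let d : Q := ∏ l, v l
  have hd : d ≠ 0 := Finset.prod_ne_zero_iff.2 fun l _ => hv l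
  have hd' : (d : K) ≠ 0 := fun h => hd (Subtype.ext h)
  have h1 : ∀ l, ((u l * ∏ l' ∈ Finset.univ.erase l, v l' : Q) : K) = c l * d := by
    intro l
    have h2 : (d : K) = v l * ((∏ l' ∈ Finset.univ.erase l, v l' : Q) : K) := by
      simp only [d]
      rw [← Finset.mul_prod_erase _ _ (Finset.mem_univ l)]
      rfl
    have h3 : (v l : K) ≠ 0 := fun h => hv l (Subtype.ext h)
    rw [h2, huv l]
    push_cast
    field_simp
  have h2 := h (fun l => u l * ∏ l' ∈ Finset.univ.erase l, v l') (by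
    have h3 : ∀ l, (((u l * ∏ l' ∈ Finset.univ.erase l, v l' : Q) : K)) ^ p * xb x l =
        (c l ^ p * xb x l) * (d : K) ^ p := by
      intro l
      rw [h1, mul_pow]
      ring
    rw [Finset.sum_congr rfl fun l _ => h3 l, ← Finset.sum_mul, hc, zero_mul]) b
  have h3 := h1 b
  rw [show (u b * ∏ l' ∈ Finset.univ.erase b, v l' : Q) = 0 from h2] at h3
  exact (mul_eq_zero.1 h3.symm).resolve_right hd'

/-- Derivations of the field which are dual to the parameters and preserve the local ring. -/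
structure Dv (Q : Subring K) (x : Fin n → K) (D : Fin n → Derivation ℤ K K) : Prop where
  dual : ∀ i j, D i (x j) = if i = j then 1 else 0
  stab : ∀ i, ∀ q ∈ Q, D i q ∈ Q

theorem exists_dv {Q : Subring K} (hne : ∀ i, x i ≠ 0) (hx : ∀ i, x i ∈ Q)
    (hfr : ∀ z : K, ∃ a b : Q, b ≠ 0 ∧ z = a / b)
    (h : ∀ q : Q, ∃ c : (Fin n → Fin p) → Q, (q : K) = ∑ b, (c b : K) ^ p * xb x b)
    (hi : ∀ c : (Fin n → Fin p) → Q, ∑ b, (c b : K) ^ p * xb x b = 0 → ∀ b, c b = 0) :
    ∃ D : Fin n → Derivation ℤ K K, Dv Q x D := by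
  classical
  obtain ⟨D, hD⟩ := exists_der p (sp_of p hfr h) (li_of p hfr hi)
  refine ⟨D, ?_, ?_⟩
  · intro i j
    have h1 := hD i 1 (Pi.single j 1)
    have h2 : ∏ l, x l ^ (Pi.single j 1 : Fin n → ℕ) l = x j := by
      rw [Finset.prod_eq_single j]
      · rw [Pi.single_eq_same, pow_one]
      · intro l _ hl
        rw [Pi.single_eq_of_ne hl, pow_zero]
      · intro hj
        exact absurd (Finset.mem_univ _) hj
    rw [one_pow, one_mul, one_mul, h2] at h1
    rw [h1]
    by_cases hij : i = j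
    · rw [if_pos hij, hij, Pi.single_eq_same, Nat.cast_one, one_mul, div_self (hne j)]
    · rw [if_neg hij, Pi.single_eq_of_ne hij, Nat.cast_zero, zero_mul]
  · intro i q hq
    obtain ⟨c, hc⟩ := h ⟨q, hq⟩
    change q = _ at hc
    rw [hc, map_sum]
    refine Q.sum_mem fun b _ => ?_
    have h1 := hD i (c b) (fun l => (b l : ℕ))
    change D i ((c b : K) ^ p * xb x b) = _ at h1
    rw [h1]
    refine Q.mul_mem (Q.pow_mem (c b).2 _) ?_
    by_cases h0 : (b i : ℕ) = 0
    · rw [h0, Nat.cast_zero, zero_mul]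
      exact Q.zero_mem
    · refine Q.mul_mem (natCast_mem _ _) ?_
      obtain ⟨m, hm⟩ := Nat.exists_eq_succ_of_ne_zero h0
      have h2 : (∏ l, x l ^ (b l : ℕ)) / x i = x i ^ m * ∏ l ∈ Finset.univ.erase i,
          x l ^ (b l : ℕ) := by
        rw [← Finset.mul_prod_erase _ _ (Finset.mem_univ i), hm, pow_succ]
        have := hne i
        field_simp
      rw [h2]
      exact Q.mul_mem (Q.pow_mem (hx i) _) (Q.prod_mem fun l _ => Q.pow_mem (hx l) _)

end der

end Pool.Agent.KS6_77.IC
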