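import Pool.Agent.KS6_77.IC.CMain

/-!
# Extensions of exponent one
-/

set_option autoImplicit false
set_option linter.unusedVariables false
set_option linter.unusedSectionVars false

universe u v w

namespace Pool.Agent.KS6_77.IC

section ext

variable {K : Type u} [Field K] {L : Type w} [Field L] [Algebra K L] (p : ℕ) [hpr : Fact p.Prime]
  [CharP K p]

/-- The map to the base field. -/
theorem exists_phi (h : ∀ w : L, ∃ q : K, algebraMap K L q = w ^ p) :
    ∃ φ : L →+* K, (∀ w, algebraMap K L (φ w) = w ^ p) ∧ ∀ q, φ (algebraMap K L q) = q ^ p := by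
  have hL : CharP L p := charP_of_injective_algebraMap (algebraMap K L).injective p
  have hinj := (algebraMap K L).injective
  choose φ hφ using h
  refine ⟨⟨⟨⟨φ, ?_⟩, ?_⟩, ?_, ?_⟩, hφ, fun q => ?_⟩
  · apply hinj
    rw [hφ, one_pow, map_one]
  · intro a b
    apply hinj
    change algebraMap K L (φ (a * b)) = algebraMap K L (φ a * φ b)
    rw [hφ, map_mul, hφ, hφ, mul_pow]
  · apply hinj
    change algebraMap K L (φ 0) = algebraMap K L 0
    rw [hφ, zero_pow hpr.out.ne_zero, map_zero]
  · intro a b
    apply hinj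
    change algebraMap K L (φ (a + b)) = algebraMap K L (φ a + φ b)
    rw [hφ, map_add, hφ, hφ, add_pow_char]
  · apply hinj
    change algebraMap K L (φ (algebraMap K L q)) = _
    rw [hφ, map_pow]

omit hpr [CharP K p] in
lemma mem_iff_of_comap {V : ValuationSubring K} {W : ValuationSubring L}
    (hVW : W.comap (algebraMap K L) = V) {φ : L →+* K}
    (hφ : ∀ w, algebraMap K L (φ w) = w ^ p) (hp : p ≠ 0) (w : L) : w ∈ W ↔ φ w ∈ V := by
  rw [← hVW, ValuationSubring.mem_comap, hφ]
  constructor
  · intro h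
    exact W.toSubring.pow_mem h p
  · intro h
    rcases W.mem_or_inv_mem w with h1 | h1
    · exact h1
    · obtain ⟨m, rfl⟩ := Nat.exists_eq_succ_of_ne_zero hp
      by_cases h0 : w = 0
      · rw [h0]; exact W.zero_mem
      have h2 : w = w ^ (m + 1) * (w⁻¹) ^ m := by
        rw [inv_pow, pow_succ]
        field_simp
      rw [h2]
      exact W.mul_mem _ _ h (W.toSubring.pow_mem h1 m)

/-- The generator of an extension of degree `p`. -/
theorem exists_gen1 {φ : L →+* K} (hφ : ∀ w, algebraMap K L (φ w) = w ^ p)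
    (hdeg : Module.finrank K L = p) : ∃ z0 : L,
      (∀ w : L, ∃ c : Fin p → K, w = ∑ e, algebraMap K L (c e) * z0 ^ (e : ℕ)) ∧
      ¬ ∃ q, φ z0 = q ^ p := by
  have hL : CharP L p := charP_of_injective_algebraMap (algebraMap K L).injective p
  have hp2 := hpr.out.two_le
  have hfin : FiniteDimensional K L := FiniteDimensional.of_finrank_pos (by omega)
  obtain ⟨z0, hz0⟩ : ∃ z0 : L, z0 ∉ (algebraMap K L).range := by
    by_contra hcon
    push Not at hcon
    have h1 : (⊥ : Subalgebra K L) = ⊤ := by
      rw [eq_top_iff]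
      rintro w -
      obtain ⟨q, hq⟩ := hcon w
      exact Algebra.mem_bot.2 ⟨q, hq⟩
    have h2 := Subalgebra.bot_eq_top_iff_finrank_eq_one.1 h1
    omega
  have hint : IsIntegral K z0 := IsIntegral.of_finite K z0
  have hd : (minpoly K z0).natDegree = p := by
    have h1 := minpoly.degree_dvd hint
    rw [hdeg] at h1
    rcases (Nat.dvd_prime hpr.out).1 h1 with h2 | h2
    · exact absurd (minpoly.natDegree_eq_one_iff.1 h2) hz0
    · exact h2
  have hli := linearIndependent_pow (K := K) z0
  rw [hd] at hli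
  have hspan := hli.span_eq_top_of_card_eq_finrank' (by rw [Fintype.card_fin, hdeg])
  refine ⟨z0, fun w => ?_, ?_⟩
  · have h1 : w ∈ Submodule.span K (Set.range fun i : Fin p => z0 ^ (i : ℕ)) := by
      rw [hspan]; trivial
    obtain ⟨c, hc⟩ := (Submodule.mem_span_range_iff_exists_fun K).1 h1
    refine ⟨c, hc.symm.trans (Finset.sum_congr rfl fun e _ => ?_)⟩
    rw [Algebra.smul_def]
  · rintro ⟨q, hq⟩
    apply hz0
    refine ⟨q, ?_⟩
    have h1 : (algebraMap K L q - z0) ^ p = 0 := by
      rw [sub_pow_char, ← map_pow, ← hq, hφ, sub_self]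
    have h2 := (pow_eq_zero_iff hpr.out.ne_zero).1 h1
    exact sub_eq_zero.1 h2

end ext

end Pool.Agent.KS6_77.IC
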