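import Pool.Agent.KS6_77.IC.Step

/-!
# The logarithmic coefficients of a differential
-/

set_option autoImplicit false
set_option linter.unusedVariables false
set_option linter.unusedSectionVars false

universe u v

namespace Pool.Agent.KS6_77.IC

open MvPolynomial IsLocalRing Pool.Agent.Q40.RP

section log

variable {K : Type u} [Field K] {k : Type v} [Field k] {n : ℕ}
  {O : Subring K} {ρ0 : O →+* k} {S : Finset O} {piv : (Fin n → O) → Fin n}

/-- The derivations dual to the new parameters. -/
def dnx (j : Fin n) (x : Fin n → K) (D : Fin n → Derivation ℤ K K) :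
    Fin n → Derivation ℤ K K := fun i =>
  if i = j then ∑ l, (x l / x j) • D l else x j • D i

lemma dnx_self (j : Fin n) (x : Fin n → K) (D : Fin n → Derivation ℤ K K) (f : K) :
    dnx j x D j f = ∑ l, x l / x j * D l f := by
  unfold dnx
  rw [if_pos rfl]
  have h1 : ∀ s : Finset (Fin n), (∑ l ∈ s, (x l / x j) • D l) f =
      ∑ l ∈ s, x l / x j * D l f := by
    classical
    intro s
    induction s using Finset.induction_on with
    | empty => simp
    | insert a s ha ih =>
      rw [Finset.sum_insert ha, Finset.sum_insert ha, Derivation.add_apply, ih,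
        Derivation.smul_apply, smul_eq_mul]
  exact h1 _

lemma dnx_ne {j i : Fin n} (h : i ≠ j) (x : Fin n → K) (D : Fin n → Derivation ℤ K K) (f : K) :
    dnx j x D i f = x j * D i f := by
  unfold dnx
  rw [if_neg h, Derivation.smul_apply, smul_eq_mul]

/-- The logarithmic coefficients of the differential of `f`. -/
def Cf (x : Fin n → K) (D : Fin n → Derivation ℤ K K) (E : Finset (Fin n)) (f : K)
    (i : Fin n) : K := if i ∈ E then x i * D i f else D i f

open Classical in
/-- The exceptional parameters. -/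
noncomputable def enx (j : Fin n) (c : Fin n → O) (E : Finset (Fin n)) : Finset (Fin n) :=
  Finset.univ.filter fun i => i = j ∨ (i ∈ E ∧ c i = 0)

lemma mem_enx {j : Fin n} {c : Fin n → O} {E : Finset (Fin n)} {i : Fin n} :
    i ∈ enx j c E ↔ i = j ∨ (i ∈ E ∧ c i = 0) := by
  simp [enx]

/-- The quotients of the parameters. -/
lemma quot_mem (hd : Dat O ρ0 S piv) {c : Fin n → O} (hc : IsLt S c) {s : Sta K n}
    (hs : Gd O ρ0 s) (i : Fin n) : s.2 i / s.2 (piv c) ∈ (nx piv s c).1 := by
  obtain ⟨hO, ρ, hf, hρ⟩ := hs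
  obtain ⟨a, ha, ha', hac, hb⟩ := hd.step hc hO hf hρ
  have h1 : Inp s.1 s.2 1 (s.2 i) := ⟨X i, Low.X i, ev_X _ _ _⟩
  have := hf.div ha hb h1
  rwa [pow_one] at this

lemma const_ratio {D : Fin n → Derivation ℤ K K} {a b : K} (i : Fin n) (ha : D i a = 0)
    (hb : D i b = 0) : D i (a / b) = 0 := by
  by_cases h0 : b = 0
  · rw [h0, div_zero, map_zero]
  · have h1 : D i (a / b * b) = 0 := by rw [div_mul_cancel₀ _ h0, ha]
    rw [Derivation.leibniz, hb, smul_zero, zero_add, smul_eq_mul] at h1
    exact (mul_eq_zero.1 h1).resolve_left h0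

/-- The derivations of the new local ring. -/
theorem Dv.next (hd : Dat O ρ0 S piv) {c : Fin n → O} (hc : IsLt S c) {s : Sta K n}
    (hs : Gd O ρ0 s) {D : Fin n → Derivation ℤ K K} (hD : Dv s.1 s.2 D)
    (hc0 : ∀ i l, D i (c l : K) = 0) :
    Dv (nx piv s c).1 (nx piv s c).2 (dnx (piv c) s.2 D) := by
  classical
  have hxj := (hs.nu (piv c)).2.1
  set j := piv c with hj
  have hle : s.1 ≤ (nx piv s c).1 := le_nr _ _
  have hx' : ∀ l, (nx piv s c).2 l = if l = j then s.2 j else
      s.2 l / s.2 j - (c l : K) / c j := fun l => rfl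
  have hDx : ∀ i l, D i ((nx piv s c).2 l) =
      if l = j then (if i = j then 1 else 0) else
        ((if i = l then 1 else 0) * s.2 j - s.2 l * (if i = j then 1 else 0)) / s.2 j ^ 2 := by
    intro i l
    rw [hx']
    by_cases hl : l = j
    · rw [if_pos hl, if_pos hl, hD.dual]
    · rw [if_neg hl, if_neg hl, map_sub, const_ratio i (hc0 i l) (hc0 i j), sub_zero]
      have h1 : D i (s.2 l / s.2 j * s.2 j) = D i (s.2 l) := by rw [div_mul_cancel₀ _ hxj]
      rw [Derivation.leibniz, smul_eq_mul, smul_eq_mul, hD.dual, hD.dual] at h1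
      have h2 : D i (s.2 l / s.2 j) = ((if i = l then 1 else 0) -
          s.2 l / s.2 j * (if i = j then 1 else 0)) / s.2 j := by
        rw [eq_div_iff hxj]
        linear_combination h1
      rw [h2]
      field_simp
  have hdual : ∀ i l, dnx j s.2 D i ((nx piv s c).2 l) = if i = l then 1 else 0 := by
    intro i l
    by_cases hi : i = j
    · rw [hi, dnx_self]
      by_cases hl : l = j
      · rw [hl, if_pos rfl, Finset.sum_eq_single j]
        · rw [hDx, if_pos rfl, if_pos rfl, mul_one, div_self hxj]
        · intro m _ hm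
          rw [hDx, if_pos rfl, if_neg hm, mul_zero]
        · intro h
          exact absurd (Finset.mem_univ _) h
      · rw [if_neg (Ne.symm hl)]
        have h1 : ∀ m, s.2 m / s.2 j * D m ((nx piv s c).2 l) =
            (if m = l then s.2 l / s.2 j / s.2 j else 0) -
              (if m = j then s.2 l / s.2 j ^ 2 else 0) := by
          intro m
          rw [hDx, if_neg hl]
          by_cases hml : m = l
          · have hmj : m ≠ j := by rw [hml]; exact hl
            simp only [if_pos hml, if_neg hmj]
            rw [hml]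
            field_simp
            ring
          · by_cases hmj : m = j
            · simp only [if_neg hml, if_pos hmj]
              rw [hmj]
              field_simp
              ring
            · simp only [if_neg hml, if_neg hmj]
              simp
        rw [Finset.sum_congr rfl fun m _ => h1 m, Finset.sum_sub_distrib, Finset.sum_ite_eq',
          Finset.sum_ite_eq', if_pos (Finset.mem_univ _), if_pos (Finset.mem_univ _)]
        field_simp
        ring
    · rw [dnx_ne hi, hDx]
      by_cases hl : l = j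
      · rw [if_pos hl, if_neg hi, mul_zero, hl, if_neg hi]
      · rw [if_neg hl, if_neg hi]
        by_cases hil : i = l
        · rw [if_pos hil]
          field_simp
          ring
        · rw [if_neg hil]
          simp
  refine ⟨hdual, ?_⟩
  have hQ : ∀ i, ∀ q ∈ s.1, dnx j s.2 D i q ∈ (nx piv s c).1 := by
    intro i q hq
    by_cases hi : i = j
    · rw [hi, dnx_self]
      exact Subring.sum_mem _ fun l _ => Subring.mul_mem _ (quot_mem hd hc hs l)
        (hle (hD.stab l q hq))
    · rw [dnx_ne hi]
      exact hle (s.1.mul_mem (hs.nu j).1 (hD.stab i q hq))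
  have hE : ∀ i (E : MvPolynomial (Fin n) s.1),
      dnx j s.2 D i (ev s.1 (nx piv s c).2 E) ∈ (nx piv s c).1 := by
    intro i E
    induction E using MvPolynomial.induction_on with
    | C a => rw [ev_C]; exact hQ i a a.2
    | add a b ha hb => rw [map_add, map_add]; exact Subring.add_mem _ ha hb
    | mul_X a l ha =>
      rw [map_mul, ev_X, Derivation.leibniz, smul_eq_mul, smul_eq_mul, hdual]
      refine Subring.add_mem _ (Subring.mul_mem _ (ev_mem_nr _ _ _) ?_)
        (Subring.mul_mem _ (x_mem_nr _ _ _) ha)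
      split_ifs
      · exact Subring.one_mem _
      · exact Subring.zero_mem _
  rintro i z ⟨E, F, hF, rfl⟩
  change dnx j s.2 D i (ev s.1 (nx piv s c).2 E / ev s.1 (nx piv s c).2 F) ∈ _
  have hF0 : ev s.1 (nx piv s c).2 F ≠ 0 := by
    obtain ⟨hO, ρ, hf, hρ⟩ := id hs
    obtain ⟨a, ha, ha', hac, hb⟩ := hd.step hc hO hf hρ
    exact (hf.lin ha).ev_ne hb hF
  have hFi : (ev s.1 (nx piv s c).2 F)⁻¹ ∈ (nx piv s c).1 :=
    ⟨1, F, hF, by rw [map_one, one_div]; rfl⟩
  have h1 : dnx j s.2 D i (ev s.1 (nx piv s c).2 E / ev s.1 (nx piv s c).2 F *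
      ev s.1 (nx piv s c).2 F) = dnx j s.2 D i (ev s.1 (nx piv s c).2 E) := by
    rw [div_mul_cancel₀ _ hF0]
  rw [Derivation.leibniz, smul_eq_mul, smul_eq_mul] at h1
  have h2 : dnx j s.2 D i (ev s.1 (nx piv s c).2 E / ev s.1 (nx piv s c).2 F) =
      (dnx j s.2 D i (ev s.1 (nx piv s c).2 E) - ev s.1 (nx piv s c).2 E *
        (ev s.1 (nx piv s c).2 F)⁻¹ * dnx j s.2 D i (ev s.1 (nx piv s c).2 F)) *
        (ev s.1 (nx piv s c).2 F)⁻¹ := by
    rw [← h1]
    field_simp
    ring
  rw [h2]
  exact Subring.mul_mem _ (Subring.sub_mem _ (hE i E) (Subring.mul_mem _ (Subring.mul_mem _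
    (ev_mem_nr _ _ _) hFi) (hE i F))) hFi

/-- The new logarithmic coefficients are generated by the old ones. -/
theorem gen_next (hd : Dat O ρ0 S piv) {c : Fin n → O} (hc : IsLt S c) {s : Sta K n}
    (hs : Gd O ρ0 s) {D : Fin n → Derivation ℤ K K} (E : Finset (Fin n)) (f : K) :
    Gen (nx piv s c).1 (fun i => (if i ∈ E then 1 else s.2 (piv c)) * Cf s.2 D E f i)
      (Cf (nx piv s c).2 (dnx (piv c) s.2 D) (enx (piv c) c E) f) ∧
    Gen (nx piv s c).1 (Cf (nx piv s c).2 (dnx (piv c) s.2 D) (enx (piv c) c E) f)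
      (fun i => (if i ∈ E then 1 else s.2 (piv c)) * Cf s.2 D E f i) := by
  classical
  have hxj := (hs.nu (piv c)).2.1
  set j := piv c with hj
  have hle : s.1 ≤ (nx piv s c).1 := le_nr _ _
  have hcj : c j ≠ 0 := hd.piv c hc.2
  have hr : ∀ i, s.2 i / s.2 j ∈ (nx piv s c).1 := fun i => quot_mem hd hc hs i
  have hri : ∀ i, c i ≠ 0 → s.2 j / s.2 i ∈ (nx piv s c).1 := by
    intro i hi
    by_cases hij : i = j
    · rw [hij, div_self hxj]
      exact Subring.one_mem _
    obtain ⟨hO, ρ, hf, hρ⟩ := id hs
    obtain ⟨a, ha, ha', hac, hb⟩ := hd.step hc hO hf hρ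
    have hfr := (hf.lin ha).blow hb
    have h1 : ρ (a i) ≠ 0 := by
      intro h0
      have h2 : ρ0 (c i) = 0 := by rw [← hac i hij, h0, zero_mul]
      exact hi (hd.inj (hc.1 i) hd.zero (by rw [h2, map_zero]))
    have h3 : rh (hf.lin ha) hb ⟨_, hr i⟩ = ρ (a i) := by
      have h4 : (⟨s.2 i / s.2 j, hr i⟩ : nr s.1 (stp j (fun i => (c i : K)) s.2)) =
          ⟨(nx piv s c).2 i, x_mem_nr _ _ _⟩ + ⟨a i, le_nr _ _ (a i).2⟩ := by
        apply Subtype.ext
        change s.2 i / s.2 j = (if i = j then s.2 j else s.2 i / s.2 j - (c i : K) / c j) + a i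
        rw [if_neg hij, ha' i hij]
        ring
      rw [h4, map_add, rh_C (hf.lin ha) hb (z := ⟨(a i : K), le_nr _ _ (a i).2⟩) (a i) rfl]
      have h5 := hfr.rho_x i
      rw [add_eq_right]
      exact h5
    have h4 := hfr.inv ⟨_, hr i⟩ (by rw [h3]; exact h1)
    have h5 : s.2 j / s.2 i = (s.2 i / s.2 j)⁻¹ := by rw [inv_div]
    rw [h5]
    exact h4
  have hE' : ∀ i, i ≠ j → i ∈ enx j c E → i ∈ E ∧ c i = 0 := by
    intro i hi h
    exact (mem_enx.1 h).resolve_left hi
  have hjE : j ∈ enx j c E := mem_enx.2 (Or.inl rfl)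
  -- the new coefficients
  have hCj : Cf (nx piv s c).2 (dnx j s.2 D) (enx j c E) f j = ∑ l, s.2 l * D l f := by
    unfold Cf
    rw [if_pos hjE, dnx_self, Finset.mul_sum]
    refine Finset.sum_congr rfl fun l _ => ?_
    have : (nx piv s c).2 j = s.2 j := by
      change (if j = j then s.2 j else _) = _
      rw [if_pos rfl]
    rw [this]
    field_simp
  have hCi : ∀ i, i ≠ j → i ∈ enx j c E → Cf (nx piv s c).2 (dnx j s.2 D) (enx j c E) f i =
      s.2 i * D i f := by
    intro i hi h
    unfold Cf
    rw [if_pos h, dnx_ne hi]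
    have : (nx piv s c).2 i = s.2 i / s.2 j := by
      change (if i = j then s.2 j else s.2 i / s.2 j - (c i : K) / c j) = _
      rw [if_neg hi, (hE' i hi h).2]
      simp
    rw [this]
    field_simp
  have hCi' : ∀ i, i ≠ j → i ∉ enx j c E → Cf (nx piv s c).2 (dnx j s.2 D) (enx j c E) f i =
      s.2 j * D i f := by
    intro i hi h
    unfold Cf
    rw [if_neg h, dnx_ne hi]
  -- the old coefficients
  have hC1 : ∀ i, i ∈ E → (if i ∈ E then 1 else s.2 j) * Cf s.2 D E f i = s.2 i * D i f := by
    intro i hi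
    unfold Cf
    rw [if_pos hi, if_pos hi, one_mul]
  have hC2 : ∀ i, i ∉ E → (if i ∈ E then 1 else s.2 j) * Cf s.2 D E f i = s.2 j * D i f := by
    intro i hi
    unfold Cf
    rw [if_neg hi, if_neg hi]
  constructor
  · intro i
    by_cases hi : i = j
    · rw [hi]
      refine ⟨fun l => if l ∈ E then 1 else s.2 l / s.2 j, fun l => ?_, ?_⟩
      · dsimp only
        split_ifs
        · exact Subring.one_mem _
        · exact hr l
      · rw [hCj]
        refine Finset.sum_congr rfl fun l _ => ?_
        change s.2 l * D l f = (if l ∈ E then 1 else s.2 l / s.2 j) *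
          ((if l ∈ E then 1 else s.2 j) * Cf s.2 D E f l)
        by_cases hl : l ∈ E
        · rw [hC1 l hl, if_pos hl, one_mul]
        · rw [hC2 l hl, if_neg hl]
          field_simp
    · by_cases h : i ∈ enx j c E
      · have h1 := gen_single (a := fun i => (if i ∈ E then 1 else s.2 j) * Cf s.2 D E f i)
          (Subring.one_mem (nx piv s c).1) i
        rw [one_mul] at h1
        rw [hCi i hi h, ← hC1 i (hE' i hi h).1]
        exact h1
      · rw [hCi' i hi h]
        by_cases hiE : i ∈ E
        · have hci : c i ≠ 0 := fun h0 => h (mem_enx.2 (Or.inr ⟨hiE, h0⟩))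
          have h1 := gen_single (a := fun i => (if i ∈ E then 1 else s.2 j) * Cf s.2 D E f i)
            (hri i hci) i
          have hxi := (hs.nu i).2.1
          have h2 : s.2 j / s.2 i * ((if i ∈ E then 1 else s.2 j) * Cf s.2 D E f i) =
              s.2 j * D i f := by
            rw [hC1 i hiE]
            field_simp
          rw [← h2]
          exact h1
        · have h1 := gen_single (a := fun i => (if i ∈ E then 1 else s.2 j) * Cf s.2 D E f i)
            (Subring.one_mem (nx piv s c).1) i
          rw [one_mul] at h1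
          rw [← hC2 i hiE]
          exact h1
  · -- first, `x i * D i f` is a multiple of the new coefficient
    have hq : ∀ i, i ≠ j → ∃ q ∈ (nx piv s c).1, s.2 i * D i f =
        q * Cf (nx piv s c).2 (dnx j s.2 D) (enx j c E) f i := by
      intro i hi
      by_cases h : i ∈ enx j c E
      · exact ⟨1, Subring.one_mem _, by rw [hCi i hi h, one_mul]⟩
      · refine ⟨s.2 i / s.2 j, hr i, ?_⟩
        rw [hCi' i hi h]
        field_simp
    intro i
    by_cases hi : i = j
    · rw [hi]
      choose q hqm hq using hq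
      refine ⟨fun l => if h : l = j then 1 else -q l h, fun l => ?_, ?_⟩
      · by_cases h : l = j
        · simp only [dif_pos h]; exact Subring.one_mem _
        · simp only [dif_neg h]; exact Subring.neg_mem _ (hqm l h)
      · have h1 : (if j ∈ E then 1 else s.2 j) * Cf s.2 D E f j = s.2 j * D j f := by
          by_cases h : j ∈ E
          · exact hC1 j h
          · exact hC2 j h
        change (if j ∈ E then 1 else s.2 j) * Cf s.2 D E f j = _
        rw [h1, ← Finset.add_sum_erase _ _ (Finset.mem_univ j)]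
        simp only [dif_pos]
        rw [one_mul, hCj, ← Finset.add_sum_erase _ _ (Finset.mem_univ j)]
        have h2 : ∑ l ∈ Finset.univ.erase j, (if h : l = j then 1 else -q l h) *
            Cf (nx piv s c).2 (dnx j s.2 D) (enx j c E) f l =
            - ∑ l ∈ Finset.univ.erase j, s.2 l * D l f := by
          rw [← Finset.sum_neg_distrib]
          refine Finset.sum_congr rfl fun l hl => ?_
          have hl' := Finset.ne_of_mem_erase hl
          rw [dif_neg hl', hq l hl']
          ring
        rw [h2]
        ring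
    · by_cases hiE : i ∈ E
      · obtain ⟨q, hqm, hq⟩ := hq i hi
        obtain ⟨d, hd1, hd2⟩ := gen_single (a := Cf (nx piv s c).2 (dnx j s.2 D) (enx j c E) f)
          hqm i
        refine ⟨d, hd1, ?_⟩
        change (if i ∈ E then 1 else s.2 j) * Cf s.2 D E f i = _
        rw [hC1 i hiE, hq, hd2]
      · have h : i ∉ enx j c E := fun h => hiE (hE' i hi h).1
        obtain ⟨d, hd1, hd2⟩ := gen_single (a := Cf (nx piv s c).2 (dnx j s.2 D) (enx j c E) f)
          (Subring.one_mem (nx piv s c).1) i
        refine ⟨d, hd1, ?_⟩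
        change (if i ∈ E then 1 else s.2 j) * Cf s.2 D E f i = _
        rw [hC2 i hiE, ← hd2, one_mul, hCi' i hi h]

end log

end Pool.Agent.KS6_77.IC
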