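import Pool.Agent.KS6_77.IC.Seq

/-!
# The normal form of a function with monomial differential
-/

set_option autoImplicit false
set_option linter.unusedVariables false
set_option linter.unusedSectionVars false

universe u v

namespace Pool.Agent.KS6_77.IC

open MvPolynomial IsLocalRing Pool.Agent.Q40.RP

section unit

variable {K : Type u} [Field K] {k : Type v} [Field k] {n : ℕ}
  {O : Subring K} {ρ0 : O →+* k}

/-- Units of the subring. -/
def U (Q : Subring K) (u : K) : Prop := u ≠ 0 ∧ u ∈ Q ∧ u⁻¹ ∈ Q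

lemma U.mul {Q : Subring K} {u v : K} (hu : U Q u) (hv : U Q v) : U Q (u * v) :=
  ⟨mul_ne_zero hu.1 hv.1, Q.mul_mem hu.2.1 hv.2.1, by rw [mul_inv]; exact Q.mul_mem hu.2.2 hv.2.2⟩

lemma U.inv {Q : Subring K} {u : K} (hu : U Q u) : U Q u⁻¹ :=
  ⟨inv_ne_zero hu.1, hu.2.2, by rw [inv_inv]; exact hu.2.1⟩

lemma U.one {Q : Subring K} : U Q 1 := ⟨one_ne_zero, Q.one_mem, by rw [inv_one]; exact Q.one_mem⟩

lemma U.pow {Q : Subring K} {u : K} (hu : U Q u) (m : ℕ) : U Q (u ^ m) := by
  induction m with
  | zero => rw [pow_zero]; exact U.one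
  | succ m ih => rw [pow_succ]; exact ih.mul hu

lemma U.zpow {Q : Subring K} {u : K} (hu : U Q u) (m : ℤ) : U Q (u ^ m) := by
  rcases Int.eq_nat_or_neg m with ⟨m, rfl | rfl⟩
  · rw [zpow_natCast]; exact hu.pow m
  · rw [zpow_neg, zpow_natCast]; exact (hu.pow m).inv

lemma U.mono {Q Q' : Subring K} (h : Q ≤ Q') {u : K} (hu : U Q u) : U Q' u :=
  ⟨hu.1, h hu.2.1, h hu.2.2⟩

variable {Q : Subring K} {ρ : Q →+* k} {x : Fin n → K}

lemma U_iff (h : Fra Q ρ x) {q : K} (hq : q ∈ Q) : U Q q ↔ ρ ⟨q, hq⟩ ≠ 0 := by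
  constructor
  · rintro ⟨h0, -, h1⟩ h2
    have h3 : (⟨q, hq⟩ : Q) * ⟨q⁻¹, h1⟩ = 1 := Subtype.ext (mul_inv_cancel₀ h0)
    have h4 := congrArg ρ h3
    rw [map_mul, h2, zero_mul, map_one] at h4
    exact zero_ne_one h4
  · intro h1
    refine ⟨?_, hq, h.inv _ h1⟩
    rintro rfl
    exact h1 (by rw [show (⟨0, hq⟩ : Q) = 0 from rfl, map_zero])

lemma inp_one_iff (h : Fra Q ρ x) {q : K} (hq : q ∈ Q) : Inp Q x 1 q ↔ ρ ⟨q, hq⟩ = 0 := by
  constructor
  · rintro ⟨E, hE, rfl⟩
    have h1 : (⟨ev Q x E, hq⟩ : Q) = ∑ γ ∈ E.support, coeff γ E * ∏ i, (⟨x i, h.mem i⟩ : Q) ^ γ i := by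
      apply Subtype.ext
      change ev Q x E = _
      rw [ev_sum]
      push_cast
      rfl
    rw [h1, map_sum]
    refine Finset.sum_eq_zero fun γ hγ => ?_
    have h2 := hE γ (mem_support_iff.1 hγ)
    have h3 : ∃ i, γ i ≠ 0 := by
      by_contra hcon
      push Not at hcon
      have h4 : γ = 0 := Finsupp.ext hcon
      rw [h4, map_zero] at h2
      omega
    obtain ⟨i, hi⟩ := h3
    rw [map_mul, map_prod, Finset.prod_eq_zero (Finset.mem_univ i), mul_zero]
    rw [map_pow, h.rho_x i, zero_pow hi]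
  · intro h0
    obtain ⟨c, hc⟩ := (h.ker _).1 h0
    change q = _ at hc
    rw [hc]
    refine inp_sum _ fun i _ => inp_mul (c i).2 ?_
    exact ⟨X i, Low.X i, ev_X _ _ _⟩

lemma not_inp_one (h : Fra Q ρ x) {q : K} (hq : q ∈ Q) : ¬ Inp Q x 1 q ↔ U Q q := by
  rw [inp_one_iff h hq, U_iff h hq]

end unit

section nf

variable {K : Type u} [Field K] {k : Type v} [Field k] {n : ℕ} (p : ℕ) [hpr : Fact p.Prime]
  [CharP K p] {Q : Subring K} {ρ : Q →+* k} {x : Fin n → K}

/-- The Euler derivation acts on the monomials. -/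
lemma euler_xb {D : Fin n → Derivation ℤ K K} (hne : ∀ i, x i ≠ 0) (hD : Dv Q x D) (i : Fin n)
    (c : K) (b : Fin n → Fin p) : x i * D i (c ^ p * xb x b) = (b i : ℕ) * (c ^ p * xb x b) := by
  classical
  rw [der_pow_p_mul p]
  have h1 : ∀ s : Finset (Fin n), x i * D i (∏ l ∈ s, x l ^ (b l : ℕ)) =
      (if i ∈ s then ((b i : ℕ) : K) else 0) * ∏ l ∈ s, x l ^ (b l : ℕ) := by
    intro s
    induction s using Finset.induction_on with
    | empty => simp
    | insert a s ha ih =>
      rw [Finset.prod_insert ha, Derivation.leibniz, smul_eq_mul, smul_eq_mul,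
        Derivation.leibniz_pow, hD.dual, mul_add]
      by_cases hia : i = a
      · subst hia
        rw [if_neg ha, zero_mul] at ih
        rw [if_pos rfl, if_pos (Finset.mem_insert_self _ _)]
        have h2 : x i * (x i ^ (b i : ℕ) * D i (∏ l ∈ s, x l ^ (b l : ℕ))) = 0 := by
          rw [mul_left_comm, ih, mul_zero]
        rw [h2, zero_add, nsmul_eq_mul, smul_eq_mul, mul_one]
        rcases Nat.eq_zero_or_pos (b i : ℕ) with h3 | h3
        · rw [h3]; simp
        · obtain ⟨m, hm⟩ := Nat.exists_eq_add_of_le' h3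
          rw [hm, Nat.add_sub_cancel, pow_succ]
          ring
      · rw [if_neg hia, smul_zero, smul_zero, mul_zero, mul_zero, add_zero, mul_left_comm, ih]
        have h2 : (i ∈ insert a s) ↔ i ∈ s := by
          rw [Finset.mem_insert]
          exact ⟨fun h => h.resolve_left hia, Or.inr⟩
        by_cases hs : i ∈ s
        · rw [if_pos hs, if_pos (h2.2 hs)]; ring
        · rw [if_neg hs, if_neg fun h => hs (h2.1 h)]; ring
  have h2 := h1 Finset.univ
  rw [if_pos (Finset.mem_univ _)] at h2
  unfold xb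
  linear_combination c ^ p * h2

/-- Subtraction of the constant part. -/
theorem sub_const {D : Fin n → Derivation ℤ K K} (hne : ∀ i, x i ≠ 0) (hx : ∀ i, x i ∈ Q)
    (hD : Dv Q x D) (hpb : ∀ q : Q, ∃ c : (Fin n → Fin p) → Q, (q : K) = ∑ b, (c b : K) ^ p * xb x b)
    {j : Fin n} {a : ℕ} {f : K} (hf : f ∈ Q) (hθ : ∀ i, x i * D i f / x j ^ a ∈ Q) :
    ∃ h0 ∈ Q, (f - h0 ^ p) / x j ^ a ∈ Q := by
  classical
  obtain ⟨c, hc⟩ := hpb ⟨f, hf⟩
  change f = _ at hc
  -- the Euler derivations preserve the multiples of the monomial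
  have hT : ∀ i (g : K), g / x j ^ a ∈ Q → x i * D i g / x j ^ a ∈ Q := by
    intro i g hg
    have hxa : x j ^ a ≠ 0 := pow_ne_zero _ (hne j)
    have h1 : g = x j ^ a * (g / x j ^ a) := by field_simp
    have h2 : D i g = x j ^ a * D i (g / x j ^ a) + g / x j ^ a * D i (x j ^ a) := by
      nth_rewrite 1 [h1]
      rw [Derivation.leibniz, smul_eq_mul, smul_eq_mul]
    have h3 : x i * D i (x j ^ a) / x j ^ a = if i = j then (a : K) else 0 := by
      rw [Derivation.leibniz_pow, hD.dual, nsmul_eq_mul, smul_eq_mul]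
      by_cases hij : i = j
      · rw [if_pos hij, if_pos hij, hij, mul_one]
        rcases Nat.eq_zero_or_pos a with h3 | h3
        · rw [h3]; simp
        · obtain ⟨m, hm⟩ := Nat.exists_eq_add_of_le' h3
          rw [hm, Nat.add_sub_cancel, pow_succ]
          have := hne j
          field_simp
      · rw [if_neg hij, if_neg hij]; simp
    have h4 : x i * D i g / x j ^ a = x i * D i (g / x j ^ a) +
        g / x j ^ a * (if i = j then (a : K) else 0) := by
      rw [h2, ← h3]
      field_simp
    rw [h4]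
    refine Q.add_mem (Q.mul_mem (hx i) (hD.stab i _ hg)) (Q.mul_mem hg ?_)
    split_ifs
    · exact natCast_mem _ _
    · exact Q.zero_mem
  have key : ∀ s : Finset (Fin n), (f - ∑ b ∈ Finset.univ.filter (fun b : Fin n → Fin p =>
      ∀ i ∈ s, (b i : ℕ) = 0), (c b : K) ^ p * xb x b) / x j ^ a ∈ Q := by
    intro s
    induction s using Finset.induction_on with
    | empty =>
      rw [Finset.filter_true_of_mem (fun b _ i hi => absurd hi (Finset.notMem_empty i)), ← hc,
        sub_self, zero_div]
      exact Q.zero_mem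
    | insert i s hi ih =>
      set fs := ∑ b ∈ Finset.univ.filter (fun b : Fin n → Fin p => ∀ i ∈ s, (b i : ℕ) = 0),
        (c b : K) ^ p * xb x b with hfs
      -- iterates of the Euler derivation
      have h1 : ∀ m : ℕ, (∑ b ∈ Finset.univ.filter (fun b : Fin n → Fin p =>
          ∀ i ∈ s, (b i : ℕ) = 0), ((b i : ℕ) : K) ^ (m + 1) * ((c b : K) ^ p * xb x b)) /
          x j ^ a ∈ Q := by
        intro m
        induction m with
        | zero =>
          have h2 : x i * D i fs = ∑ b ∈ Finset.univ.filter (fun b : Fin n → Fin p =>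
              ∀ i ∈ s, (b i : ℕ) = 0), ((b i : ℕ) : K) ^ (0 + 1) * ((c b : K) ^ p * xb x b) := by
            rw [hfs, map_sum, Finset.mul_sum]
            refine Finset.sum_congr rfl fun b _ => ?_
            rw [euler_xb p hne hD, zero_add, pow_one]
          rw [← h2]
          have h3 := hT i _ ih
          rw [map_sub, mul_sub, sub_div] at h3
          have h4 := Q.sub_mem (hθ i) h3
          rwa [sub_sub_cancel] at h4
        | succ m ihm =>
          have h3 := hT i _ ihm
          rw [map_sum, Finset.mul_sum] at h3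
          have h4 : ∀ b ∈ Finset.univ.filter (fun b : Fin n → Fin p => ∀ i ∈ s, (b i : ℕ) = 0),
              x i * D i (((b i : ℕ) : K) ^ (m + 1) * ((c b : K) ^ p * xb x b)) =
              ((b i : ℕ) : K) ^ (m + 1 + 1) * ((c b : K) ^ p * xb x b) := by
            intro b _
            have h5 : D i (((b i : ℕ) : K) ^ (m + 1) * ((c b : K) ^ p * xb x b)) =
                ((b i : ℕ) : K) ^ (m + 1) * D i ((c b : K) ^ p * xb x b) := by
              rw [Derivation.leibniz, ← Nat.cast_pow, Derivation.map_natCast, smul_zero, add_zero,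
                smul_eq_mul]
            rw [h5, mul_left_comm, euler_xb p hne hD, pow_succ]
            ring
          rwa [Finset.sum_congr rfl h4] at h3
      have hp2 := hpr.out.two_le
      have h2 := h1 (p - 2)
      rw [show p - 2 + 1 = p - 1 by omega] at h2
      have h3 : ∑ b ∈ Finset.univ.filter (fun b : Fin n → Fin p =>
          ∀ i ∈ s, (b i : ℕ) = 0), ((b i : ℕ) : K) ^ (p - 1) * ((c b : K) ^ p * xb x b) =
          fs - ∑ b ∈ Finset.univ.filter (fun b : Fin n → Fin p =>
            ∀ l ∈ insert i s, (b l : ℕ) = 0), (c b : K) ^ p * xb x b := by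
        have h4 : Finset.univ.filter (fun b : Fin n → Fin p => ∀ l ∈ insert i s, (b l : ℕ) = 0) =
            (Finset.univ.filter (fun b : Fin n → Fin p => ∀ i ∈ s, (b i : ℕ) = 0)).filter
              (fun b => (b i : ℕ) = 0) := by
          ext b
          simp only [Finset.mem_filter, Finset.mem_univ, true_and, Finset.mem_insert,
            forall_eq_or_imp]
          exact and_comm
        rw [h4, hfs, ← Finset.sum_filter_add_sum_filter_not (s := Finset.univ.filter
          (fun b : Fin n → Fin p => ∀ i ∈ s, (b i : ℕ) = 0)) (p := fun b => (b i : ℕ) = 0)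
          (f := fun b => ((b i : ℕ) : K) ^ (p - 1) * ((c b : K) ^ p * xb x b)),
          ← Finset.sum_filter_add_sum_filter_not (s := Finset.univ.filter
          (fun b : Fin n → Fin p => ∀ i ∈ s, (b i : ℕ) = 0)) (p := fun b => (b i : ℕ) = 0)
          (f := fun b => (c b : K) ^ p * xb x b), add_sub_cancel_left]
        have h5 : ∑ b ∈ (Finset.univ.filter (fun b : Fin n → Fin p =>
            ∀ i ∈ s, (b i : ℕ) = 0)).filter (fun b => (b i : ℕ) = 0),
            ((b i : ℕ) : K) ^ (p - 1) * ((c b : K) ^ p * xb x b) = 0 := by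
          refine Finset.sum_eq_zero fun b hb => ?_
          rw [(Finset.mem_filter.1 hb).2, Nat.cast_zero, zero_pow (by omega), zero_mul]
        rw [h5, zero_add]
        refine Finset.sum_congr rfl fun b hb => ?_
        have h6 : ((b i : ℕ) : K) ^ (p - 1) = 1 := by
          have h7 := (Finset.mem_filter.1 hb).2
          have h8 : ((b i : ℕ) : ZMod p) ≠ 0 := by
            rw [Ne, ZMod.natCast_eq_zero_iff]
            intro hdvd
            exact h7 (Nat.eq_zero_of_dvd_of_lt hdvd (b i).2)
          have h9 := ZMod.pow_card_sub_one_eq_one h8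
          have h10 := congrArg (ZMod.castHom (dvd_refl p) K) h9
          rw [map_pow, map_natCast, map_one] at h10
          exact h10
        rw [h6, one_mul]
      rw [h3] at h2
      have h4 := Q.add_mem ih h2
      rw [← add_div] at h4
      have h5 : f - fs + (fs - ∑ b ∈ Finset.univ.filter (fun b : Fin n → Fin p =>
            ∀ l ∈ insert i s, (b l : ℕ) = 0), (c b : K) ^ p * xb x b) =
          f - ∑ b ∈ Finset.univ.filter (fun b : Fin n → Fin p =>
            ∀ l ∈ insert i s, (b l : ℕ) = 0), (c b : K) ^ p * xb x b := by ring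
      rwa [h5] at h4
  have h1 := key Finset.univ
  let b0 : Fin n → Fin p := fun _ => ⟨0, hpr.out.pos⟩
  have h2 : Finset.univ.filter (fun b : Fin n → Fin p => ∀ i ∈ Finset.univ, (b i : ℕ) = 0) =
      {b0} := by
    ext b
    simp only [Finset.mem_filter, Finset.mem_univ, true_and, Finset.mem_singleton, true_imp_iff]
    constructor
    · intro h
      funext i
      exact Fin.ext (h i)
    · rintro rfl i
      rfl
  rw [h2, Finset.sum_singleton] at h1
  have h3 : xb x b0 = 1 := by
    unfold xb
    exact Finset.prod_eq_one fun i _ => pow_zero _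
  rw [h3, mul_one] at h1
  exact ⟨c b0, (c b0).2, h1⟩

end nf

end Pool.Agent.KS6_77.IC
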