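import Pool.Agent.KS6_77.IC.NF

/-!
# Good stages
-/

set_option autoImplicit false
set_option linter.unusedVariables false
set_option linter.unusedSectionVars false

universe u v

namespace Pool.Agent.KS6_77.IC

open MvPolynomial IsLocalRing Pool.Agent.Q40.RP Pool.Agent.W418.LU2

section ff

variable {K : Type u} [Field K] {k : Type v} [Field k] {n : ℕ} (p : ℕ) [hpr : Fact p.Prime]
  [CharP K p] {O : Subring K} {ρ0 : O →+* k} {S : Finset O} {piv : (Fin n → O) → Fin n}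

/-- Finiteness over the ring of `p`-th powers is inherited. -/
theorem ff_next (hd : Dat O ρ0 S piv) {c : Fin n → O} (hc : IsLt S c) {s : Sta K n}
    (hs : Gd O ρ0 s) (h : FF p s.1) : FF p (nx piv s c).1 := by
  classical
  obtain ⟨ι, _, e, he⟩ := h
  set s' := nx piv s c with hs'
  have hle : s.1 ≤ s'.1 := le_nr _ _
  have hx' : ∀ i, s'.2 i ∈ s'.1 := fun i => x_mem_nr _ _ i
  let e' : ι × (Fin n → Fin p) → s'.1 := fun t => ⟨e t.1, hle (e t.1).2⟩ *
    ⟨xb s'.2 t.2, xb_mem p hx' t.2⟩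
  let P : s'.1 → Prop := fun z => ∃ c : ι × (Fin n → Fin p) → s'.1, z = ∑ t, c t ^ p * e' t
  have hadd : ∀ z w, P z → P w → P (z + w) := by
    rintro _ _ ⟨c, rfl⟩ ⟨d, rfl⟩
    refine ⟨c + d, ?_⟩
    rw [← Finset.sum_add_distrib]
    refine Finset.sum_congr rfl fun t _ => ?_
    rw [Pi.add_apply, add_pow_char, add_mul]
  have hzero : P 0 := ⟨0, by simp [hpr.out.ne_zero]⟩
  have hsum : ∀ {κ : Type} (t : Finset κ) (f : κ → s'.1), (∀ i ∈ t, P (f i)) → P (∑ i ∈ t, f i) := by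
    intro κ t f hf
    induction t using Finset.induction_on with
    | empty => rw [Finset.sum_empty]; exact hzero
    | insert a t ha ih =>
      rw [Finset.sum_insert ha]
      exact hadd _ _ (hf a (Finset.mem_insert_self _ _))
        (ih fun i hi => hf i (Finset.mem_insert_of_mem hi))
  have hmul : ∀ w z, P z → P (w ^ p * z) := by
    rintro w _ ⟨c, rfl⟩
    refine ⟨fun t => w * c t, ?_⟩
    rw [Finset.mul_sum]
    refine Finset.sum_congr rfl fun t _ => ?_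
    rw [mul_pow, mul_assoc]
  have hbase : ∀ t, P (e' t) := by
    intro t
    refine ⟨Pi.single t 1, ?_⟩
    rw [Finset.sum_eq_single t]
    · rw [Pi.single_eq_same, one_pow, one_mul]
    · intro t' _ ht'
      rw [Pi.single_eq_of_ne ht', zero_pow hpr.out.ne_zero, zero_mul]
    · intro h
      exact absurd (Finset.mem_univ _) h
  refine ⟨ι × (Fin n → Fin p), inferInstance, e', fun z => ?_⟩
  obtain ⟨z, E, F, hF, hz⟩ := z
  change P ⟨z, _⟩
  have hF0 : ev s.1 s'.2 F ≠ 0 := by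
    obtain ⟨hO, ρ, hf, hρ⟩ := id hs
    obtain ⟨a, ha, ha', hac, hb⟩ := hd.step hc hO hf hρ
    exact (hf.lin ha).ev_ne hb hF
  have hFi : (ev s.1 s'.2 F)⁻¹ ∈ s'.1 := ⟨1, F, hF, by rw [map_one, one_div]; rfl⟩
  set G := E * F ^ (p - 1) with hG
  have hz' : z = ((ev s.1 s'.2 F)⁻¹) ^ p * ev s.1 s'.2 G := by
    rw [hz, hG, map_mul, map_pow]
    obtain ⟨m, hm⟩ := Nat.exists_eq_succ_of_ne_zero hpr.out.ne_zero
    have h2 : p - 1 = m := by omega
    have h3 : ∀ A B : K, B ≠ 0 → A / B = (B⁻¹) ^ (m + 1) * (A * B ^ m) := by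
      intro A B hB
      rw [inv_pow, pow_succ]
      field_simp
    rw [h2, hm]
    exact h3 _ _ hF0
  have hGm : P ⟨ev s.1 s'.2 G, ev_mem_nr _ _ _⟩ := by
    have h1 : (⟨ev s.1 s'.2 G, ev_mem_nr _ _ _⟩ : s'.1) = ∑ γ ∈ G.support,
        ⟨((coeff γ G : s.1) : K), hle (coeff γ G).2⟩ * ∏ i, (⟨s'.2 i, hx' i⟩ : s'.1) ^ γ i := by
      apply Subtype.ext
      change ev s.1 s'.2 G = _
      rw [ev_sum]
      push_cast
      rfl
    rw [h1]
    refine hsum _ _ fun γ _ => ?_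
    obtain ⟨d, hd'⟩ := he (coeff γ G)
    have h2 : (⟨((coeff γ G : s.1) : K), hle (coeff γ G).2⟩ : s'.1) *
        ∏ i, (⟨s'.2 i, hx' i⟩ : s'.1) ^ γ i = ∑ i, (⟨d i, hle (d i).2⟩ *
          ∏ l, (⟨s'.2 l, hx' l⟩ : s'.1) ^ (γ l / p)) ^ p *
          e' (i, fun l => ⟨γ l % p, Nat.mod_lt _ hpr.out.pos⟩) := by
      apply Subtype.ext
      have h3 := congrArg (fun q : s.1 => (q : K)) hd'
      push_cast at h3 ⊢
      simp only [e', Subring.coe_mul]
      rw [h3, Finset.sum_mul]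
      refine Finset.sum_congr rfl fun i _ => ?_
      have h4 := red_mon p s'.2 ((d i : s.1) : K) γ
      rw [mul_right_comm, h4]
      ring
    rw [h2]
    exact hsum _ _ fun i _ => hmul _ _ (hbase _)
  have h1 : (⟨z, ⟨E, F, hF, hz⟩⟩ : s'.1) = ⟨_, hFi⟩ ^ p * ⟨ev s.1 s'.2 G, ev_mem_nr _ _ _⟩ :=
    Subtype.ext hz'
  rw [h1]
  exact hmul _ _ hGm

lemma ff_seq (hd : Dat O ρ0 S piv) {ω : ℕ → Fin n → O} (hω : ∀ l, IsLt S (ω l)) {s0 : Sta K n}
    (h0 : Gd O ρ0 s0) (h : FF p s0.1) (l : ℕ) : FF p (sq piv s0 ω l).1 := by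
  induction l with
  | zero => exact h
  | succ l ih => exact ff_next p hd (hω l) (sq_gd hd hω h0 l) ih

end ff

section ex

variable {K : Type u} [Field K] {k : Type v} [Field k] {n : ℕ}
  {O : Subring K} {ρ0 : O →+* k} {S : Finset O} {piv : (Fin n → O) → Fin n}

/-- The family is the power of a parameter times a family of elements, one of which is a unit. -/
def Ex (s : Sta K n) (j : Fin n) (C : Fin n → K) (a : ℕ) : Prop :=
  (∀ i, C i / s.2 j ^ a ∈ s.1) ∧ ∃ i, U s.1 (C i / s.2 j ^ a)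

lemma Ex.gen {s : Sta K n} (hs : Gd O ρ0 s) {j : Fin n} {C C' : Fin n → K} {a : ℕ}
    (h : Ex s j C a) (h1 : Gen s.1 C C') (h2 : Gen s.1 C' C) : Ex s j C' a := by
  obtain ⟨hO, ρ, hf, hρ⟩ := hs
  obtain ⟨hC, i, hi⟩ := h
  have hC' : ∀ i, C' i / s.2 j ^ a ∈ s.1 := by
    intro l
    obtain ⟨c, hc, hl⟩ := h1 l
    rw [hl, Finset.sum_div]
    refine s.1.sum_mem fun l _ => ?_
    rw [mul_div_assoc]
    exact s.1.mul_mem (hc l) (hC l)
  refine ⟨hC', ?_⟩
  by_contra hcon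
  push Not at hcon
  rw [← not_inp_one hf (hC i)] at hi
  apply hi
  obtain ⟨c, hc, hl⟩ := h2 i
  rw [hl, Finset.sum_div]
  refine inp_sum _ fun l _ => ?_
  rw [mul_div_assoc]
  refine inp_mul (hc l) ?_
  by_contra h3
  rw [not_inp_one hf (hC' l)] at h3
  exact hcon l h3

/-- The ratios of the parameters are units if all coordinates are nonzero. -/
lemma ratio_U (hd : Dat O ρ0 S piv) {c : Fin n → O} (hc : IsLt S c) {s : Sta K n}
    (hs : Gd O ρ0 s) {i : Fin n} (hi : c i ≠ 0) : U (nx piv s c).1 (s.2 i / s.2 (piv c)) := by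
  have hxj := (hs.nu (piv c)).2.1
  by_cases hij : i = piv c
  · rw [hij, div_self hxj]
    exact U.one
  obtain ⟨hO, ρ, hf, hρ⟩ := id hs
  obtain ⟨a, ha, ha', hac, hb⟩ := hd.step hc hO hf hρ
  have hfr := (hf.lin ha).blow hb
  have hr := quot_mem hd hc hs i
  refine (U_iff hfr hr).2 ?_
  have h1 : ρ (a i) ≠ 0 := by
    intro h0
    have h2 : ρ0 (c i) = 0 := by rw [← hac i hij, h0, zero_mul]
    exact hi (hd.inj (hc.1 i) hd.zero (by rw [h2, map_zero]))
  have h4 : (⟨s.2 i / s.2 (piv c), hr⟩ : nr s.1 (stp (piv c) (fun i => (c i : K)) s.2)) =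
      ⟨(nx piv s c).2 i, x_mem_nr _ _ _⟩ + ⟨a i, le_nr _ _ (a i).2⟩ := by
    apply Subtype.ext
    change s.2 i / s.2 (piv c) = (if i = piv c then s.2 (piv c) else
      s.2 i / s.2 (piv c) - (c i : K) / c (piv c)) + a i
    rw [if_neg hij, ha' i hij]
    ring
  change rh (hf.lin ha) hb ⟨s.2 i / s.2 (piv c), hr⟩ ≠ 0
  rw [h4, map_add, rh_C (hf.lin ha) hb (z := ⟨(a i : K), le_nr _ _ (a i).2⟩) (a i) rfl]
  have h5 : rh (hf.lin ha) hb ⟨(nx piv s c).2 i, x_mem_nr _ _ _⟩ = 0 := hfr.rho_x i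
  rw [h5, zero_add]
  exact h1

lemma x_piv (c : Fin n → O) (s : Sta K n) : (nx piv s c).2 (piv c) = s.2 (piv c) := by
  change (if piv c = piv c then s.2 (piv c) else _) = _
  rw [if_pos rfl]

/-- A unit times a power of the parameter. -/
def Sm (s : Sta K n) (j : Fin n) (f : K) : Prop := ∃ u, U s.1 u ∧ ∃ γ : ℤ, f = u * s.2 j ^ γ

lemma sm_next (hd : Dat O ρ0 S piv) {c : Fin n → O} (hc : IsLt S c) {s : Sta K n}
    (hs : Gd O ρ0 s) (hall : ∀ i, c i ≠ 0) {f : K} (h : PMon s.1 s.2 f) :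
    Sm (nx piv s c) (piv c) f := by
  classical
  obtain ⟨u, u0, u1, u2, γ, rfl⟩ := h
  have hxj := (hs.nu (piv c)).2.1
  have h1 : ∀ t : Finset (Fin n), ∃ v, U (nx piv s c).1 v ∧
      ∏ i ∈ t, s.2 i ^ γ i = v * s.2 (piv c) ^ (∑ i ∈ t, γ i) := by
    intro t
    induction t using Finset.induction_on with
    | empty => exact ⟨1, U.one, by simp⟩
    | insert a t ha ih =>
      obtain ⟨v, hv, hvt⟩ := ih
      refine ⟨(s.2 a / s.2 (piv c)) ^ γ a * v, ((ratio_U hd hc hs (hall a)).zpow _).mul hv, ?_⟩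
      rw [Finset.prod_insert ha, Finset.sum_insert ha, hvt, zpow_add₀ hxj, div_zpow]
      field_simp
  obtain ⟨v, hv, hvt⟩ := h1 Finset.univ
  refine ⟨u * v, (U.mono (le_nr _ _) ⟨u0, u1, u2⟩).mul hv, ∑ i, γ i, ?_⟩
  rw [x_piv]
  change u * ∏ i, s.2 i ^ γ i = _
  rw [hvt]
  ring

lemma Sm.pmon {s : Sta K n} {j : Fin n} {f : K} (h : Sm s j f) : PMon s.1 s.2 f := by
  classical
  obtain ⟨u, ⟨u0, u1, u2⟩, γ, rfl⟩ := h
  refine ⟨u, u0, u1, u2, Pi.single j γ, ?_⟩
  unfold mo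
  rw [Finset.prod_eq_single j]
  · rw [Pi.single_eq_same]
  · intro l _ hl
    rw [Pi.single_eq_of_ne hl, zpow_zero]
  · intro h
    exact absurd (Finset.mem_univ _) h

/-- The first stage with one exceptional parameter. -/
theorem ex_first (hd : Dat O ρ0 S piv) {c : Fin n → O} (hc : IsLt S c) {s : Sta K n}
    (hs : Gd O ρ0 s) (hall : ∀ i, c i ≠ 0) {D : Fin n → Derivation ℤ K K} {E : Finset (Fin n)}
    {f : K} (h : Res s (Cf s.2 D E f) 0) :
    ∃ a, Ex (nx piv s c) (piv c) (Cf (nx piv s c).2 (dnx (piv c) s.2 D) (enx (piv c) c E) f) a := by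
  classical
  obtain ⟨h0, N, hm, h1, i, h2⟩ := res_step' hd hc hs h E
  obtain ⟨g1, g2⟩ := gen_next hd hc hs (D := D) E f
  have hs' := hs.next hd hc
  obtain ⟨u, u0, u1, u2, γ, hγ⟩ := hm
  have hxj := (hs.nu (piv c)).2.1
  have h3 : ∀ t : Finset (Fin n), ∃ v, U (nx piv s c).1 v ∧
      ∏ i ∈ t, s.2 i ^ γ i = v * s.2 (piv c) ^ (∑ i ∈ t, γ i) := by
    intro t
    induction t using Finset.induction_on with
    | empty => exact ⟨1, U.one, by simp⟩
    | insert a t ha ih =>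
      obtain ⟨v, hv, hvt⟩ := ih
      refine ⟨(s.2 a / s.2 (piv c)) ^ γ a * v, ((ratio_U hd hc hs (hall a)).pow _).mul hv, ?_⟩
      rw [Finset.prod_insert ha, Finset.sum_insert ha, hvt, pow_add, div_pow]
      field_simp
  obtain ⟨v, hv, hvt⟩ := h3 Finset.univ
  have huv : U (nx piv s c).1 (u * v) := (U.mono (le_nr _ _) ⟨u0, u1, u2⟩).mul hv
  have h4 : ∀ z : K, z / (nx piv s c).2 (piv c) ^ ((∑ i, γ i) + N) =
      (u * v) * (z / (h0 * s.2 (piv c) ^ N)) := by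
    intro z
    rw [x_piv, hγ, hvt, pow_add]
    have := huv.1
    have := hv.1
    field_simp
  refine ⟨(∑ i, γ i) + N, Ex.gen hs' ?_ g1 g2⟩
  refine ⟨fun i => ?_, i, ?_⟩
  · rw [h4]
    exact Subring.mul_mem _ huv.2.1 (h1 i)
  · rw [h4]
    obtain ⟨hO, ρ, hf, hρ⟩ := hs'
    exact huv.mul ((not_inp_one hf (h1 i)).1 h2)

lemma enx_single {c : Fin n → O} {j : Fin n} {E : Finset (Fin n)} (hall : ∀ i, c i ≠ 0) :
    enx j c E = {j} := by
  ext i
  rw [mem_enx, Finset.mem_singleton]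
  constructor
  · rintro (h | ⟨-, h⟩)
    · exact h
    · exact absurd h (hall i)
  · exact Or.inl

/-- The next stage with one exceptional parameter. -/
theorem ex_next (hd : Dat O ρ0 S piv) {c : Fin n → O} (hc : IsLt S c) {s : Sta K n}
    (hs : Gd O ρ0 s) (hall : ∀ i, c i ≠ 0) {D : Fin n → Derivation ℤ K K} {j : Fin n}
    {f : K} {a : ℕ} (h : Ex s j (Cf s.2 D {j} f) a) :
    (U s.1 (Cf s.2 D {j} f j / s.2 j ^ a) → Ex (nx piv s c) (piv c)
      (Cf (nx piv s c).2 (dnx (piv c) s.2 D) {piv c} f) a) ∧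
    (¬ U s.1 (Cf s.2 D {j} f j / s.2 j ^ a) → Ex (nx piv s c) (piv c)
      (Cf (nx piv s c).2 (dnx (piv c) s.2 D) {piv c} f) (a + 1)) := by
  classical
  obtain ⟨g1, g2⟩ := gen_next hd hc hs (D := D) {j} f
  rw [enx_single hall] at g1 g2
  have hs' := hs.next hd hc
  have hxp := (hs.nu (piv c)).2.1
  have hxj := (hs.nu j).2.1
  have hv := ratio_U hd hc hs (hall j)
  set v := s.2 j / s.2 (piv c) with hvdef
  have hle : s.1 ≤ (nx piv s c).1 := le_nr _ _
  obtain ⟨h1, i, h2⟩ := h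
  have h3 : ∀ (z : K), z / (nx piv s c).2 (piv c) ^ a = v ^ a * (z / s.2 j ^ a) := by
    intro z
    rw [x_piv, hvdef, div_pow]
    field_simp
  have h3' : ∀ (z : K), s.2 (piv c) * z / (nx piv s c).2 (piv c) ^ (a + 1) =
      v ^ a * (z / s.2 j ^ a) := by
    intro z
    rw [x_piv, hvdef, div_pow, pow_succ]
    field_simp
  have hjj : (if j ∈ ({j} : Finset (Fin n)) then 1 else s.2 (piv c)) * Cf s.2 D {j} f j =
      Cf s.2 D {j} f j := by
    rw [if_pos (Finset.mem_singleton_self j), one_mul]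
  have hii : ∀ i, i ≠ j → (if i ∈ ({j} : Finset (Fin n)) then 1 else s.2 (piv c)) *
      Cf s.2 D {j} f i = s.2 (piv c) * Cf s.2 D {j} f i := by
    intro i hi
    rw [if_neg fun h => hi (Finset.mem_singleton.1 h)]
  constructor
  · intro hU
    refine Ex.gen hs' ⟨fun i => ?_, j, ?_⟩ g1 g2
    · by_cases hi : i = j
      · rw [hi, hjj, h3]
        exact Subring.mul_mem _ (hv.pow a).2.1 (hle (h1 j))
      · rw [hii i hi, h3, mul_div_assoc]
        exact Subring.mul_mem _ (hv.pow a).2.1 (Subring.mul_mem _ (hle (hs.nu _).1) (hle (h1 i)))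
    · rw [hjj, h3]
      exact (hv.pow a).mul (hU.mono hle)
  · intro hU
    have hij : i ≠ j := by
      rintro rfl
      exact hU h2
    refine Ex.gen hs' ⟨fun i => ?_, i, ?_⟩ g1 g2
    · by_cases hi : i = j
      · rw [hi, hjj]
        have h4 : Cf s.2 D {j} f j / (nx piv s c).2 (piv c) ^ (a + 1) =
            v ^ a * (Cf s.2 D {j} f j / s.2 j ^ a / s.2 (piv c) ^ 1) := by
          rw [x_piv, hvdef, div_pow, pow_succ, pow_one]
          field_simp
        rw [h4]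
        refine Subring.mul_mem _ (hv.pow a).2.1 ?_
        obtain ⟨hO, ρ, hf, hρ⟩ := id hs
        obtain ⟨b, hb0, hb', hbc, hb⟩ := hd.step hc hO hf hρ
        refine hf.div hb0 hb ?_
        by_contra h5
        exact hU ((not_inp_one hf (h1 j)).1 h5)
      · rw [hii i hi, h3']
        exact Subring.mul_mem _ (hv.pow a).2.1 (hle (h1 i))
    · rw [hii i hij, h3']
      exact (hv.pow a).mul (h2.mono hle)

end ex

end Pool.Agent.KS6_77.IC
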