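import Pool.Agent.KS6_77.IC.NF2

/-!
# Existence of good stages
-/

set_option autoImplicit false
set_option linter.unusedVariables false
set_option linter.unusedSectionVars false

universe u v

namespace Pool.Agent.KS6_77.IC

open MvPolynomial IsLocalRing Pool.Agent.Q40.RP Pool.Agent.W418.LU2

section good

variable {K : Type u} [Field K] {k : Type v} [Field k] {n : ℕ} (p : ℕ) [hpr : Fact p.Prime]
  [CharP K p] {O : Subring K} {ρ0 : O →+* k} {S : Finset O} {piv : (Fin n → O) → Fin n}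

/-- The normal form of a function at a stage with one exceptional parameter `x j`. -/
def Good (s : Sta K n) (j : Fin n) (D : Fin n → Derivation ℤ K K) (f : K) : Prop :=
  ∃ (h0 g : K) (a : ℕ), h0 ∈ s.1 ∧ g ∈ s.1 ∧ f = h0 ^ p + s.2 j ^ a * g ∧
    ((¬ p ∣ a ∧ U s.1 g) ∨ (p ∣ a ∧ Inp s.1 s.2 1 g ∧ ∃ i, i ≠ j ∧ U s.1 (D i g)))

theorem nf (hk : ∀ a : k, ∃ b : k, b ^ p = a) {s : Sta K n} (hs : Gd O ρ0 s)
    {D : Fin n → Derivation ℤ K K} (hD : Dv s.1 s.2 D)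
    (hpb : ∀ q : s.1, ∃ c : (Fin n → Fin p) → s.1, (q : K) = ∑ b, (c b : K) ^ p * xb s.2 b)
    {j : Fin n} {f : K} (hf : f ∈ s.1) {a : ℕ} (h : Ex s j (Cf s.2 D {j} f) a) :
    (U s.1 (Cf s.2 D {j} f j / s.2 j ^ a) → Good p s j D f) ∧ (p ∣ a → Good p s j D f) := by
  classical
  obtain ⟨h1, i1, h2⟩ := h
  have hne : ∀ i, s.2 i ≠ 0 := fun i => (hs.nu i).2.1
  have hx : ∀ i, s.2 i ∈ s.1 := fun i => (hs.nu i).1
  have hCj : Cf s.2 D {j} f j = s.2 j * D j f := by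
    unfold Cf
    rw [if_pos (Finset.mem_singleton_self j)]
  have hCi : ∀ i, i ≠ j → Cf s.2 D {j} f i = D i f := by
    intro i hi
    unfold Cf
    rw [if_neg fun h => hi (Finset.mem_singleton.1 h)]
  obtain ⟨h0, hh0, hg⟩ := sub_const p hne hx hD hpb (j := j) (a := a) hf (fun i => by
    by_cases hi : i = j
    · rw [hi, ← hCj]
      exact h1 j
    · rw [← hCi i hi, mul_div_assoc]
      exact s.1.mul_mem (hx i) (h1 i))
  set g := (f - h0 ^ p) / s.2 j ^ a with hgdef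
  have hxa : s.2 j ^ a ≠ 0 := pow_ne_zero _ (hne j)
  have hfg : f = h0 ^ p + s.2 j ^ a * g := by
    rw [hgdef, mul_div_cancel₀ _ hxa]
    ring
  have hDf : ∀ i, D i f = s.2 j ^ a * D i g + g * D i (s.2 j ^ a) := by
    intro i
    rw [hfg, map_add, der_pow_p p, zero_add, Derivation.leibniz, smul_eq_mul, smul_eq_mul]
  have hDi : ∀ i, i ≠ j → Cf s.2 D {j} f i / s.2 j ^ a = D i g := by
    intro i hi
    have h3 : D i (s.2 j ^ a) = 0 := by
      rw [Derivation.leibniz_pow, hD.dual, if_neg hi, smul_zero, smul_zero]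
    rw [hCi i hi, hDf, h3, mul_zero, add_zero, mul_div_cancel_left₀ _ hxa]
  have hDj : Cf s.2 D {j} f j / s.2 j ^ a = a * g + s.2 j * D j g := by
    have h3 : s.2 j * D j (s.2 j ^ a) = a * s.2 j ^ a := by
      rw [Derivation.leibniz_pow, hD.dual, if_pos rfl, nsmul_eq_mul, smul_eq_mul, mul_one]
      rcases Nat.eq_zero_or_pos a with h3 | h3
      · rw [h3]; simp
      · obtain ⟨m, hm⟩ := Nat.exists_eq_add_of_le' h3
        rw [hm, Nat.add_sub_cancel, pow_succ]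
        ring
    have h4 : s.2 j * D j f = s.2 j ^ a * (a * g + s.2 j * D j g) := by
      rw [hDf]
      linear_combination g * h3
    rw [hCj, h4, mul_div_cancel_left₀ _ hxa]
  obtain ⟨hO, ρ, hfr, hρ⟩ := hs
  have hDjg : s.2 j * D j g ∈ s.1 := s.1.mul_mem (hx j) (hD.stab j g hg)
  have hρ0 : ρ ⟨s.2 j * D j g, hDjg⟩ = 0 := by
    have h3 : (⟨s.2 j * D j g, hDjg⟩ : s.1) = ⟨s.2 j, hfr.mem j⟩ * ⟨D j g, hD.stab j g hg⟩ := rfl
    rw [h3, map_mul, hfr.rho_x j, zero_mul]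
  have hUj : U s.1 (Cf s.2 D {j} f j / s.2 j ^ a) → ¬ p ∣ a ∧ U s.1 g := by
    intro hU
    rw [hDj] at hU
    have h3 : (a : K) * g + s.2 j * D j g ∈ s.1 := hU.2.1
    rw [U_iff hfr h3] at hU
    have h4 : (⟨(a : K) * g + s.2 j * D j g, h3⟩ : s.1) =
        (a : s.1) * ⟨g, hg⟩ + ⟨s.2 j * D j g, hDjg⟩ := by
      apply Subtype.ext
      push_cast
      rfl
    rw [h4, map_add, hρ0, add_zero, map_mul] at hU
    constructor
    · rintro ⟨m, rfl⟩
      apply hU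
      have h5 : ((p * m : ℕ) : s.1) = 0 := by
        rw [Nat.cast_mul, CharP.cast_eq_zero, zero_mul]
      rw [h5, map_zero, zero_mul]
    · rw [U_iff hfr hg]
      exact right_ne_zero_of_mul hU
  refine ⟨fun hU => ?_, fun hpa => ?_⟩
  · obtain ⟨h3, h4⟩ := hUj hU
    exact ⟨h0, g, a, hh0, hg, hfg, Or.inl ⟨h3, h4⟩⟩
  · have hi1 : i1 ≠ j := by
      rintro rfl
      exact (hUj h2).1 hpa
    rw [hDi i1 hi1] at h2
    -- subtraction of the constant term
    obtain ⟨b, hb⟩ := hk (ρ ⟨g, hg⟩)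
    obtain ⟨w, hw⟩ := hfr.surj b
    obtain ⟨m, hm⟩ := hpa
    refine ⟨h0 + s.2 j ^ m * w, g - (w : K) ^ p, a, s.1.add_mem hh0 (s.1.mul_mem
      (s.1.pow_mem (hx j) _) w.2), s.1.sub_mem hg (s.1.pow_mem w.2 _), ?_, Or.inr ⟨⟨m, hm⟩, ?_,
      i1, hi1, ?_⟩⟩
    · nth_rewrite 1 [hfg]
      rw [add_pow_char, mul_pow, ← pow_mul, hm, mul_comm m p]
      ring
    · rw [inp_one_iff hfr (s.1.sub_mem hg (s.1.pow_mem w.2 _))]
      have h3 : (⟨g - (w : K) ^ p, s.1.sub_mem hg (s.1.pow_mem w.2 _)⟩ : s.1) =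
          ⟨g, hg⟩ - w ^ p := rfl
      rw [h3, map_sub, map_pow, hw, hb, sub_self]
    · rw [map_sub, der_pow_p p, sub_zero]
      exact h2

/-- There is a good stage after `p` letters without zero coordinates. -/
theorem exists_good (hk : ∀ a : k, ∃ b : k, b ^ p = a) (hd : Dat O ρ0 S piv)
    {ω : ℕ → Fin n → O} (hω : ∀ l, IsLt S (ω l)) {s0 : Sta K n} (h0 : Gd O ρ0 s0)
    {D0 : Fin n → Derivation ℤ K K} (hD : Dv s0.1 s0.2 D0)
    (hS : ∀ a ∈ S, ∀ D : Derivation ℤ K K, D (a : K) = 0) (hF : FF p s0.1) {f : K} {l : ℕ}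
    (hf : f ∈ (sq piv s0 ω l).1) (hres : Res (sq piv s0 ω l) (cq piv s0 ω D0 f l) 0)
    (hall : ∀ t, t < p → ∀ i, ω (l + t) i ≠ 0) :
    ∃ t, t < p ∧ Good p (sq piv s0 ω (l + t + 1)) (piv (ω (l + t))) (dq piv s0 ω D0 (l + t + 1))
      f := by
  classical
  have hp := hpr.out.pos
  have hgd := sq_gd hd hω h0
  have hpb : ∀ m (q : (sq piv s0 ω m).1), ∃ c : (Fin n → Fin p) → (sq piv s0 ω m).1,
      (q : K) = ∑ b, (c b : K) ^ p * xb (sq piv s0 ω m).2 b := by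
    intro m q
    obtain ⟨hO, ρ, hfr, hρ⟩ := hgd m
    exact pb p hfr hk (ff_seq p hd hω h0 hF m) q
  have heq : ∀ t, t < p → eq piv ω (l + t + 1) = {piv (ω (l + t))} := fun t ht =>
    enx_single (hall t ht)
  obtain ⟨a, ha⟩ := ex_first hd (hω l) (hgd l) (fun i => by
    have := hall 0 hp i
    rwa [add_zero] at this) hres
  have ha : Ex (sq piv s0 ω (l + 1)) (piv (ω l)) (Cf (sq piv s0 ω (l + 1)).2
      (dq piv s0 ω D0 (l + 1)) {piv (ω l)} f) a := by
    have h1 := heq 0 hp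
    rw [add_zero] at h1
    rw [← h1]
    exact ha
  by_contra hcon
  push Not at hcon
  have hfm : ∀ m, l ≤ m → f ∈ (sq piv s0 ω m).1 := fun m hm =>
    sq_mono (piv := piv) (s0 := s0) (ω := ω) hm hf
  have hind : ∀ t, t < p → Ex (sq piv s0 ω (l + t + 1)) (piv (ω (l + t)))
      (Cf (sq piv s0 ω (l + t + 1)).2 (dq piv s0 ω D0 (l + t + 1)) {piv (ω (l + t))} f) (a + t) := by
    intro t
    induction t with
    | zero => exact fun _ => ha
    | succ t ih =>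
      intro ht
      have h1 := ih (by omega)
      have h2 := (nf p hk (hgd (l + t + 1)) (dv_seq hd hω h0 hD hS (l + t + 1))
        (hpb (l + t + 1)) (hfm _ (by omega)) h1).1
      have h3 := (ex_next hd (hω (l + t + 1)) (hgd (l + t + 1)) (fun i => by
        have := hall (t + 1) ht i
        rwa [← add_assoc] at this) h1).2 fun hU => hcon t (by omega) (h2 hU)
      exact h3
  obtain ⟨t, ht, hta⟩ : ∃ t, t < p ∧ p ∣ a + t := by
    refine ⟨(p - a % p) % p, Nat.mod_lt _ hp, ?_⟩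
    rw [Nat.dvd_iff_mod_eq_zero, Nat.add_mod, Nat.mod_mod]
    have h1 := Nat.mod_lt a hp
    rcases Nat.eq_zero_or_pos (a % p) with h2 | h2
    · rw [h2]; simp
    · rw [Nat.mod_eq_of_lt (by omega : p - a % p < p)]
      rw [show a % p + (p - a % p) = p by omega, Nat.mod_self]
  exact hcon t ht ((nf p hk (hgd (l + t + 1)) (dv_seq hd hω h0 hD hS (l + t + 1))
    (hpb (l + t + 1)) (hfm _ (by omega)) (hind t ht)).2 hta)

end good

end Pool.Agent.KS6_77.IC
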