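import Pool.Graph.R_pool_sql_team_seeded_3997aac3.Q40.RP.Main

/-!
# Parameters are a `p`-basis
-/

set_option autoImplicit false
set_option linter.unusedVariables false
set_option linter.unusedSectionVars false

universe u v

namespace Pool.Agent.KS6_77.IC

open MvPolynomial IsLocalRing Pool.Agent.Q40.RP

section pb

variable {K : Type u} [Field K] {k : Type v} [Field k] {n : ℕ} (p : ℕ) [Fact p.Prime] [CharP K p]

/-- `Q` is a finite module over the ring of its `p`-th powers. -/
def FF (Q : Subring K) : Prop :=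
  ∃ (ι : Type) (_ : Fintype ι) (e : ι → Q), ∀ q : Q, ∃ c : ι → Q, q = ∑ i, c i ^ p * e i

/-- The monomials in the parameters with exponents smaller than `p`. -/
def xb {p : ℕ} (x : Fin n → K) (b : Fin n → Fin p) : K := ∏ i, x i ^ (b i : ℕ)

variable {Q : Subring K} {ρ : Q →+* k} {x : Fin n → K}

instance charP_sub (Q : Subring K) : CharP Q p := by
  exact (CharP.charP_iff_prime_eq_zero (Fact.out : p.Prime)).2 (Subtype.ext (by
    push_cast
    exact CharP.cast_eq_zero K p))

lemma xb_mem (hx : ∀ i, x i ∈ Q) (b : Fin n → Fin p) : xb x b ∈ Q :=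
  Q.prod_mem fun i _ => Q.pow_mem (hx i) _

theorem pb (h : Fra Q ρ x) (hk : ∀ a : k, ∃ b : k, b ^ p = a) (hF : FF p Q) (q : Q) :
    ∃ c : (Fin n → Fin p) → Q, (q : K) = ∑ b, (c b : K) ^ p * xb x b := by
  classical
  obtain ⟨ι, _, e, he⟩ := hF
  let R : Subring Q := (frobenius Q p).range
  let I : Ideal R := (RingHom.ker ρ).comap R.subtype
  let X : (Fin n → Fin p) → Q := fun b => ⟨xb x b, xb_mem p h.mem b⟩
  let M : Submodule R Q := Submodule.span R (Set.range X)
  let fr : Q → R := fun w => ⟨w ^ p, w, rfl⟩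
  have hfr : ∀ (w m : Q), fr w • m = w ^ p * m := fun w m => rfl
  have hfg : (⊤ : Submodule R Q).FG := by
    refine ⟨Finset.univ.image e, ?_⟩
    rw [eq_top_iff]
    rintro q -
    obtain ⟨c, hc⟩ := he q
    rw [hc]
    refine Submodule.sum_mem _ fun i _ => ?_
    rw [← hfr]
    exact Submodule.smul_mem _ _ (Submodule.subset_span (by simp))
  have hI : I ≤ Ideal.jacobson ⊥ := by
    intro r hr
    rw [Ideal.mem_jacobson_bot]
    intro y
    obtain ⟨r, a, rfl⟩ := r
    obtain ⟨y, b, rfl⟩ := y
    have h1 : ρ (frobenius Q p a) = 0 := hr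
    have h2 : ρ (a * b + 1) ≠ 0 := by
      rw [frobenius_def, map_pow, pow_eq_zero_iff (Fact.out : p.Prime).ne_zero] at h1
      rw [map_add, map_mul, h1, zero_mul, zero_add, map_one]
      exact one_ne_zero
    have h3 := h.inv _ h2
    have h4 : ((a * b + 1 : Q) : K) ≠ 0 := by
      intro h0
      apply h2
      rw [show (a * b + 1 : Q) = 0 from Subtype.ext h0, map_zero]
    refine isUnit_iff_exists_inv.2 ⟨fr ⟨_, h3⟩, ?_⟩
    apply Subtype.ext
    change (frobenius Q p a * frobenius Q p b + 1) * (⟨_, h3⟩ : Q) ^ p = 1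
    have h6 : frobenius Q p a * frobenius Q p b + 1 = (a * b + 1) ^ p := by
      rw [← frobenius_def, map_add, map_mul, map_one]
    have h5 : (a * b + 1 : Q) * ⟨_, h3⟩ = 1 := Subtype.ext (mul_inv_cancel₀ h4)
    rw [h6, ← mul_pow, h5, one_pow]
  have hsurj : ∀ c : Q, ∃ w : Q, ρ (w ^ p) = ρ c := by
    intro c
    obtain ⟨b, hb⟩ := hk (ρ c)
    obtain ⟨w, hw⟩ := h.surj b
    exact ⟨w, by rw [map_pow, hw, hb]⟩
  -- the elements divisible by a `p`-th power of a parameter
  have hdiv : ∀ (i : Fin n) (m : Q), ⟨x i, h.mem i⟩ ^ p * m ∈ M ⊔ I • (⊤ : Submodule R Q) := by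
    intro i m
    refine Submodule.mem_sup_right ?_
    have h1 : fr ⟨x i, h.mem i⟩ ∈ I := by
      change ρ ((⟨x i, h.mem i⟩ : Q) ^ p) = 0
      rw [map_pow, h.rho_x i, zero_pow (Fact.out : p.Prime).ne_zero]
    rw [← hfr]
    exact Submodule.smul_mem_smul h1 trivial
  have hmon : ∀ (w : Q) (γ : Fin n →₀ ℕ), w ^ p * ∏ i, (⟨x i, h.mem i⟩ : Q) ^ γ i ∈
      M ⊔ I • (⊤ : Submodule R Q) := by
    intro w γ
    by_cases hγ : ∀ i, γ i < p
    · refine Submodule.mem_sup_left ?_
      rw [← hfr]
      refine Submodule.smul_mem _ _ (Submodule.subset_span ⟨fun i => ⟨γ i, hγ i⟩, ?_⟩)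
      apply Subtype.ext
      change xb x _ = _
      unfold xb
      push_cast
      rfl
    · push Not at hγ
      obtain ⟨i, hi⟩ := hγ
      have h1 : w ^ p * ∏ i, (⟨x i, h.mem i⟩ : Q) ^ γ i = ⟨x i, h.mem i⟩ ^ p *
          (w ^ p * ⟨x i, h.mem i⟩ ^ (γ i - p) *
            ∏ l ∈ Finset.univ.erase i, (⟨x l, h.mem l⟩ : Q) ^ γ l) := by
        rw [← Finset.mul_prod_erase _ _ (Finset.mem_univ i)]
        nth_rewrite 1 [← Nat.add_sub_of_le hi]
        rw [pow_add]
        ring
      rw [h1]
      exact hdiv i _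
  have key : ∀ d L : ℕ, n * p + 1 ≤ L + d → ∀ q : Q, Inp Q x L (q : K) →
      q ∈ M ⊔ I • (⊤ : Submodule R Q) := by
    intro d
    induction d with
    | zero =>
      rintro L hL q ⟨E, hE, he⟩
      have h1 : q = ∑ γ ∈ E.support, coeff γ E * ∏ i, (⟨x i, h.mem i⟩ : Q) ^ γ i := by
        apply Subtype.ext
        rw [← he, ev_sum]
        push_cast
        rfl
      rw [h1]
      refine Submodule.sum_mem _ fun γ hγ => ?_
      have h2 := hE γ (mem_support_iff.1 hγ)
      have h3 : ∃ i, p ≤ γ i := by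
        by_contra hcon
        push Not at hcon
        have h4 : Finsupp.degree γ ≤ ∑ _i : Fin n, p := by
          rw [Finsupp.degree_eq_sum]
          exact Finset.sum_le_sum fun i _ => (hcon i).le
        rw [Finset.sum_const, Finset.card_univ, Fintype.card_fin, smul_eq_mul] at h4
        omega
      obtain ⟨i, hi⟩ := h3
      have h4 : coeff γ E * ∏ i, (⟨x i, h.mem i⟩ : Q) ^ γ i = ⟨x i, h.mem i⟩ ^ p *
          (coeff γ E * ⟨x i, h.mem i⟩ ^ (γ i - p) *
            ∏ l ∈ Finset.univ.erase i, (⟨x l, h.mem l⟩ : Q) ^ γ l) := by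
        rw [← Finset.mul_prod_erase _ _ (Finset.mem_univ i)]
        nth_rewrite 1 [← Nat.add_sub_of_le hi]
        rw [pow_add]
        ring
      rw [h4]
      exact hdiv i _
    | succ d ih =>
      rintro L hL q ⟨E, hE, he⟩
      choose w hw using fun γ => hsurj (coeff γ E)
      let F : MvPolynomial (Fin n) Q :=
        ∑ γ ∈ E.support.filter (fun γ => Finsupp.degree γ = L), monomial γ (w γ ^ p)
      have hF : Low L F := Low.sum _ fun γ hγ => Low.monomial (Finset.mem_filter.1 hγ).2.ge _
      have hcF : ∀ γ, Finsupp.degree γ = L → ρ (coeff γ (E - F)) = 0 := by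
        intro γ hγ
        rw [coeff_sub]
        by_cases h0 : γ ∈ E.support
        · have h1 : coeff γ F = w γ ^ p := by
            simp only [F]
            rw [coeff_sum, Finset.sum_eq_single γ]
            · rw [coeff_monomial, if_pos rfl]
            · intro δ _ hδ
              rw [coeff_monomial, if_neg hδ]
            · intro h1
              exact absurd (Finset.mem_filter.2 ⟨h0, hγ⟩) h1
          rw [h1, map_sub, hw, sub_self]
        · have h1 : coeff γ F = 0 := by
            simp only [F]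
            rw [coeff_sum]
            refine Finset.sum_eq_zero fun δ hδ => ?_
            rw [coeff_monomial, if_neg]
            rintro rfl
            exact h0 (Finset.mem_filter.1 hδ).1
          rw [notMem_support_iff.1 h0, h1, sub_zero, map_zero]
      have h1 := h.inp_succ (hE.sub hF) hcF
      have hFm : ev Q x F ∈ Q := ev_mem h.mem F
      have h2 : q = (q - ⟨ev Q x F, hFm⟩) + ⟨ev Q x F, hFm⟩ := by ring
      rw [h2]
      refine Submodule.add_mem _ (ih (L + 1) (by omega) _ ?_) ?_
      · change Inp Q x (L + 1) ((q : K) - ev Q x F)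
        rw [← he, ← map_sub]
        exact h1
      · have h3 : (⟨ev Q x F, hFm⟩ : Q) = ∑ γ ∈ E.support.filter (fun γ => Finsupp.degree γ = L),
            w γ ^ p * ∏ i, (⟨x i, h.mem i⟩ : Q) ^ γ i := by
          apply Subtype.ext
          simp only [F]
          rw [map_sum]
          push_cast
          refine Finset.sum_congr rfl fun γ _ => ?_
          rw [ev_monomial]
          push_cast
          rfl
        rw [h3]
        exact Submodule.sum_mem _ fun γ _ => hmon _ _
  have hle : (⊤ : Submodule R Q) ≤ M ⊔ I • ⊤ := fun q _ =>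
    key (n * p + 1) 0 (by omega) q (Inp.zero q.2)
  have h1 := Submodule.le_of_le_smul_of_le_jacobson_bot hfg hI hle
  have h2 : q ∈ M := h1 trivial
  have h3 : ∃ c : (Fin n → Fin p) → R, ∑ b, c b • X b = q :=
    (Submodule.mem_span_range_iff_exists_fun R).1 h2
  obtain ⟨c, hc⟩ := h3
  choose w hw using fun b => (c b).2
  refine ⟨w, ?_⟩
  rw [← hc]
  push_cast
  refine Finset.sum_congr rfl fun b _ => ?_
  change ((c b : Q) : K) * xb x b = _
  rw [← hw b]
  rfl

/-- The coefficients of `p`-th powers. -/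
lemma coeff_pow_char {k : Type v} [Field k] [CharP k p] (G : MvPolynomial (Fin n) k)
    (γ : Fin n →₀ ℕ) : coeff (p • γ) (G ^ p) = coeff γ G ^ p := by
  have hp := (Fact.out : p.Prime)
  have h1 : G ^ p = expand p (map (frobenius k p) G) := by
    induction G using MvPolynomial.induction_on with
    | C a => rw [map_C, expand_C, ← C_pow, frobenius_def]
    | add a b ha hb => rw [add_pow_char, ha, hb, map_add, map_add]
    | mul_X a i ha => rw [mul_pow, ha, map_mul, map_mul, map_X, expand_X]
  rw [h1, coeff_expand_smul p hp.ne_zero, coeff_map, frobenius_def]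

lemma coeff_pow_char_of_not_dvd {k : Type v} [Field k] [CharP k p] (G : MvPolynomial (Fin n) k)
    {δ : Fin n →₀ ℕ} {i : Fin n} (h : ¬ p ∣ δ i) : coeff δ (G ^ p) = 0 := by
  have hp := (Fact.out : p.Prime)
  have h1 : G ^ p = expand p (map (frobenius k p) G) := by
    induction G using MvPolynomial.induction_on with
    | C a => rw [map_C, expand_C, ← C_pow, frobenius_def]
    | add a b ha hb => rw [add_pow_char, ha, hb, map_add, map_add]
    | mul_X a i ha => rw [mul_pow, ha, map_mul, map_mul, map_X, expand_X]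
  rw [h1]
  exact coeff_expand_of_not_dvd _ h

lemma charP_res (h : Fra Q ρ x) : CharP k p :=
  (CharP.charP_iff_prime_eq_zero (Fact.out : p.Prime)).2 (by
    rw [← map_natCast ρ, CharP.cast_eq_zero, map_zero])

/-- The exponent of a monomial. -/
noncomputable def xe {p : ℕ} (b : Fin n → Fin p) : Fin n →₀ ℕ :=
  Finsupp.equivFunOnFinite.symm fun i => (b i : ℕ)

lemma xe_apply {p : ℕ} (b : Fin n → Fin p) (i : Fin n) : xe b i = b i := rfl

lemma ev_xe (b : Fin n → Fin p) : ev Q x (monomial (xe b) 1) = xb x b := by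
  rw [ev_monomial, OneMemClass.coe_one, one_mul]
  rfl

/-- The monomials are linearly independent over the `p`-th powers of the elements of `Q`. -/
theorem ind_pb (h : Fra Q ρ x) (hkr : ∀ q : Q, q ≠ 0 → ∃ μ, ¬ Inp Q x (μ + 1) (q : K))
    (c : (Fin n → Fin p) → Q) (hc : ∑ b, (c b : K) ^ p * xb x b = 0) : ∀ b, c b = 0 := by
  classical
  have := charP_res p h
  have hp := (Fact.out : p.Prime)
  by_contra hcon
  push Not at hcon
  have hex : ∀ b, ∃ (o : ℕ) (F : MvPolynomial (Fin n) Q), ev Q x F = c b ∧ (c b = 0 → F = 0) ∧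
      (c b ≠ 0 → Low o F ∧ ∃ γ, Finsupp.degree γ = o ∧ ρ (coeff γ F) ≠ 0) := by
    intro b
    by_cases hb : c b = 0
    · exact ⟨0, 0, by rw [map_zero, hb]; rfl, fun _ => rfl, fun h0 => absurd hb h0⟩
    · obtain ⟨μ, hμ⟩ := hkr _ hb
      obtain ⟨m, -, ⟨F, hF, hFe⟩, hm⟩ := h.exists_order (c b).2 hμ
      refine ⟨m, F, hFe, fun h0 => absurd h0 hb, fun _ => ⟨hF, ?_⟩⟩
      by_contra hno
      push Not at hno
      exact hm (hFe ▸ h.inp_succ hF hno)
  choose o F hFe hF0 hFo using hex
  let s : Finset (Fin n → Fin p) := Finset.univ.filter fun b => c b ≠ 0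
  have hs : s.Nonempty := by
    obtain ⟨b, hb⟩ := hcon
    exact ⟨b, Finset.mem_filter.2 ⟨Finset.mem_univ _, hb⟩⟩
  obtain ⟨b0, hb0, hmin⟩ := s.exists_min_image (fun b => p * o b + Finsupp.degree (xe b)) hs
  have hcb0 := (Finset.mem_filter.1 hb0).2
  obtain ⟨hlow0, γ0, hγ0, hne0⟩ := hFo b0 hcb0
  let E : MvPolynomial (Fin n) Q := ∑ b, F b ^ p * monomial (xe b) 1
  have hE : Low (p * o b0 + Finsupp.degree (xe b0)) E := by
    refine Low.sum _ fun b _ => ?_
    by_cases hb : c b = 0
    · rw [hF0 b hb, zero_pow hp.ne_zero, zero_mul]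
      exact Low.zero _
    · have h1 := ((hFo b hb).1.pow p).mul (Low.monomial (R := Q) (γ := xe b) le_rfl 1)
      exact h1.mono (hmin b (Finset.mem_filter.2 ⟨Finset.mem_univ _, hb⟩))
  have hev : ev Q x E = 0 := by
    simp only [E]
    rw [map_sum, ← hc]
    refine Finset.sum_congr rfl fun b _ => ?_
    rw [map_mul, map_pow, hFe b, ev_xe p b]
  have h1 := h.qr _ E hE hev
  have h2 : coeff (p • γ0 + xe b0) (map ρ E) = 0 := by
    refine h1.coeff_eq_zero ?_
    rw [map_add, map_nsmul, hγ0, smul_eq_mul]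
    omega
  have h3 : coeff (p • γ0 + xe b0) (map ρ E) = ρ (coeff γ0 (F b0)) ^ p := by
    simp only [E]
    rw [map_sum, coeff_sum, Finset.sum_eq_single b0]
    · rw [map_mul, map_pow, map_monomial, map_one, coeff_mul_monomial, coeff_pow_char p, mul_one,
        coeff_map]
    · intro b _ hb
      rw [map_mul, map_pow, map_monomial, map_one, coeff_mul_monomial']
      split_ifs with hle
      · rw [mul_one]
        obtain ⟨i, hi⟩ := Function.ne_iff.1 hb
        refine coeff_pow_char_of_not_dvd p _ (i := i) fun hdvd => hi ?_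
        have h4 : (p • γ0 + xe b0 - xe b) i = p * γ0 i + b0 i - b i := rfl
        have h5 : (xe b i : ℕ) ≤ (p • γ0 + xe b0) i := hle i
        have h6 : (p • γ0 + xe b0) i = p * γ0 i + b0 i := rfl
        rw [h4] at hdvd
        rw [xe_apply, h6] at h5
        have h7 : (b0 i : ℕ) % p = (b i : ℕ) % p := by
          have h8 := (Nat.modEq_iff_dvd' h5).2 hdvd
          have h9 : (p * γ0 i + b0 i) % p = (b0 i : ℕ) % p := by
            rw [Nat.mul_add_mod]
          rw [← h9]
          exact h8.symm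
        rw [Nat.mod_eq_of_lt (b0 i).2, Nat.mod_eq_of_lt (b i).2] at h7
        exact Fin.ext h7.symm
      · rfl
    · intro h4
      exact absurd (Finset.mem_univ _) h4
  rw [h2] at h3
  exact hne0 (pow_eq_zero_iff hp.ne_zero |>.1 h3.symm)

end pb

end Pool.Agent.KS6_77.IC
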