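import Pool.Agent.KS6_77.IC.Log

/-!
# Monomialization of the differential of a function
-/

set_option autoImplicit false
set_option linter.unusedVariables false
set_option linter.unusedSectionVars false

universe u v

namespace Pool.Agent.KS6_77.IC

open MvPolynomial IsLocalRing Pool.Agent.Q40.RP

section seq

variable {K : Type u} [Field K] {k : Type v} [Field k] {n : ℕ}
  {O : Subring K} {ρ0 : O →+* k} {S : Finset O} {piv : (Fin n → O) → Fin n}

/-- The derivations along the sequence. -/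
noncomputable def dq (piv : (Fin n → O) → Fin n) (s : Sta K n) (ω : ℕ → Fin n → O)
    (D : Fin n → Derivation ℤ K K) : ℕ → Fin n → Derivation ℤ K K
  | 0 => D
  | l + 1 => dnx (piv (ω l)) (sq piv s ω l).2 (dq piv s ω D l)

/-- The exceptional parameters along the sequence. -/
noncomputable def eq (piv : (Fin n → O) → Fin n) (ω : ℕ → Fin n → O) : ℕ → Finset (Fin n)
  | 0 => ∅
  | l + 1 => enx (piv (ω l)) (ω l) (eq piv ω l)

/-- The logarithmic coefficients along the sequence. -/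
noncomputable def cq (piv : (Fin n → O) → Fin n) (s : Sta K n) (ω : ℕ → Fin n → O)
    (D : Fin n → Derivation ℤ K K) (f : K) (l : ℕ) : Fin n → K :=
  Cf (sq piv s ω l).2 (dq piv s ω D l) (eq piv ω l) f

variable {ω : ℕ → Fin n → O} {s0 : Sta K n} {D0 : Fin n → Derivation ℤ K K}
  (hd : Dat O ρ0 S piv) (hω : ∀ l, IsLt S (ω l)) (h0 : Gd O ρ0 s0)

lemma dq_zero {D : Derivation ℤ K K} : True := trivial

include hd hω h0

lemma dv_seq (hD : Dv s0.1 s0.2 D0) (hS : ∀ a ∈ S, ∀ D : Derivation ℤ K K, D (a : K) = 0)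
    (l : ℕ) : Dv (sq piv s0 ω l).1 (sq piv s0 ω l).2 (dq piv s0 ω D0 l) := by
  induction l with
  | zero => exact hD
  | succ l ih =>
    exact ih.next hd (hω l) (sq_gd hd hω h0 l) fun i m => hS _ ((hω l).1 m) _

/-- The order does not increase. -/
theorem res_next {f : K} {l μ : ℕ} (h : Res (sq piv s0 ω l) (cq piv s0 ω D0 f l) μ) :
    Res (sq piv s0 ω (l + 1)) (cq piv s0 ω D0 f (l + 1)) μ := by
  have hg := sq_gd hd hω h0 l
  have h1 := res_step hd (hω l) hg h (eq piv ω l)
  obtain ⟨h2, h3⟩ := gen_next hd (hω l) hg (D := dq piv s0 ω D0 l) (eq piv ω l) f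
  exact h1.gen h2 h3

theorem res_mono {f : K} {l l' μ : ℕ} (hl : l ≤ l')
    (h : Res (sq piv s0 ω l) (cq piv s0 ω D0 f l) μ) :
    Res (sq piv s0 ω l') (cq piv s0 ω D0 f l') μ := by
  induction l', hl using Nat.le_induction with
  | base => exact h
  | succ l' hl ih => exact res_next hd hω h0 ih

omit hd hω h0 in
lemma eq_toric (hd : Dat O ρ0 S piv) {a : O} (ha : a ≠ 0) {q : ℕ}
    (hp : ∀ t : Fin n, ω (q + t) = Pi.single t a) (t : ℕ) (ht : t ≤ n) :
    (∀ i, i ∈ eq piv ω q → i ∈ eq piv ω (q + t)) ∧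
      ∀ i : Fin n, (i : ℕ) < t → i ∈ eq piv ω (q + t) := by
  induction t with
  | zero => exact ⟨fun i hi => hi, fun i hi => absurd hi (Nat.not_lt_zero _)⟩
  | succ t ih =>
    obtain ⟨h1, h2⟩ := ih (by omega)
    have htn : t < n := by omega
    have hωt : ω (q + t) = Pi.single (⟨t, htn⟩ : Fin n) a := hp ⟨t, htn⟩
    have h3 : ∀ i, i ∈ eq piv ω (q + t) → i ∈ eq piv ω (q + (t + 1)) := by
      intro i hi
      change i ∈ enx (piv (ω (q + t))) (ω (q + t)) (eq piv ω (q + t))
      rw [mem_enx, hωt, hd.piv_single ha]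
      by_cases hit : i = ⟨t, htn⟩
      · exact Or.inl hit
      · exact Or.inr ⟨hi, Pi.single_eq_of_ne hit _⟩
    refine ⟨fun i hi => h3 i (h1 i hi), fun i hi => ?_⟩
    by_cases hit : (i : ℕ) < t
    · exact h3 i (h2 i hit)
    · have hit' : i = ⟨t, htn⟩ := Fin.ext (by change (i : ℕ) = t; omega)
      change i ∈ enx (piv (ω (q + t))) (ω (q + t)) (eq piv ω (q + t))
      rw [mem_enx, hωt, hd.piv_single ha]
      exact Or.inl hit'

/-- A toric cycle which starts with all parameters exceptional lowers the order. -/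
theorem res_drop {a : O} (ha : a ≠ 0) {q : ℕ} (hp : ∀ t : Fin n, ω (q + t) = Pi.single t a)
    (hE : ∀ i, i ∈ eq piv ω q) {f : K} {μ : ℕ}
    (h : Res (sq piv s0 ω q) (cq piv s0 ω D0 f q) (μ + 1)) :
    Res (sq piv s0 ω (q + n)) (cq piv s0 ω D0 f (q + n)) μ := by
  classical
  by_contra hcon
  have hgd := sq_gd hd hω h0
  obtain ⟨h1, hm1, hC1, i1, hi1⟩ := id h
  have hh1 := Mo.ne (hgd q) hm1
  set C := cq piv s0 ω D0 f q with hC
  -- the logarithmic coefficients do not change
  have hgen : ∀ t, t ≤ n → Gen (sq piv s0 ω (q + t)).1 (cq piv s0 ω D0 f (q + t)) C ∧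
      Gen (sq piv s0 ω (q + t)).1 C (cq piv s0 ω D0 f (q + t)) := by
    intro t ht
    induction t with
    | zero => exact ⟨Gen.refl _, Gen.refl _⟩
    | succ t ih =>
      obtain ⟨h2, h3⟩ := ih (by omega)
      obtain ⟨h4, h5⟩ := gen_next hd (hω (q + t)) (hgd (q + t)) (D := dq piv s0 ω D0 (q + t))
        (eq piv ω (q + t)) f
      have h6 : (fun i => (if i ∈ eq piv ω (q + t) then 1 else
          (sq piv s0 ω (q + t)).2 (piv (ω (q + t)))) *
          Cf (sq piv s0 ω (q + t)).2 (dq piv s0 ω D0 (q + t)) (eq piv ω (q + t)) f i) =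
          cq piv s0 ω D0 f (q + t) := by
        funext i
        rw [if_pos ((eq_toric hd ha hp t (by omega)).1 i (hE i)), one_mul]
        rfl
      rw [h6] at h4 h5
      have hle : (sq piv s0 ω (q + t)).1 ≤ (sq piv s0 ω (q + (t + 1))).1 :=
        sq_mono (piv := piv) (s0 := s0) (ω := ω) (by omega)
      exact ⟨Gen.trans h5 (h2.mono hle), Gen.trans (h3.mono hle) h4⟩
  -- the products of the powers of the exceptional parameters
  let M : ℕ → K := fun t => ∏ l ∈ Finset.range t,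
    (sq piv s0 ω (q + l)).2 (piv (ω (q + l))) ^ (μ + 1)
  have hM0 : ∀ t, M t ≠ 0 := fun t => Finset.prod_ne_zero_iff.2 fun l _ =>
    pow_ne_zero _ ((hgd (q + l)).nu _).2.1
  have hMs : ∀ t (g : K), g / M (t + 1) =
      g / M t / (sq piv s0 ω (q + t)).2 (piv (ω (q + t))) ^ (μ + 1) := by
    intro t g
    simp only [M]
    rw [Finset.prod_range_succ, div_mul_eq_div_div]
  have hMmo : ∀ t, Mo (sq piv s0 ω (q + t)).1 (sq piv s0 ω (q + t)).2 (h1 * M t) := by
    intro t
    refine (sq_mo hd hω h0 (Nat.le_add_right _ _) hm1).mul (Mo.prod _ fun l hl => Mo.pow ?_ _)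
    exact sq_mo hd hω h0 (by have := Finset.mem_range.1 hl; omega) (Mo.self _ _ _)
  have hno : ∀ t, t ≤ n → ¬ Res (sq piv s0 ω (q + t)) C μ := by
    intro t ht hr
    apply hcon
    obtain ⟨h2, h3⟩ := hgen t ht
    have h4 : Res (sq piv s0 ω (q + t)) (cq piv s0 ω D0 f (q + t)) μ := hr.gen h3 h2
    exact res_mono hd hω h0 (by omega) h4
  have hall : ∀ t, t ≤ n → (∀ i, C i / h1 / M t ∈ (sq piv s0 ω (q + t)).1) →
      ∀ i, Inp (sq piv s0 ω (q + t)).1 (sq piv s0 ω (q + t)).2 (μ + 1) (C i / h1 / M t) := by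
    intro t ht hi i
    by_contra h2
    refine hno t ht ⟨h1 * M t, hMmo t, fun l => ?_, i, ?_⟩
    · rw [div_mul_eq_div_div]
      exact hi l
    · rw [div_mul_eq_div_div]
      exact h2
  have hmem : ∀ t, t ≤ n → ∀ i, C i / h1 / M t ∈ (sq piv s0 ω (q + t)).1 := by
    intro t ht
    induction t with
    | zero =>
      intro i
      have hM : M 0 = 1 := by simp [M]
      rw [hM, div_one]
      exact hC1 i
    | succ t ih =>
      intro i
      have h2 := hall t (by omega) (ih (by omega)) i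
      rw [hMs]
      obtain ⟨hO, ρ, hfr, hρ⟩ := hgd (q + t)
      obtain ⟨b, hb0, hb', hbc, hb⟩ := hd.step (hω (q + t)) hO hfr hρ
      exact hfr.div hb0 hb h2
  obtain ⟨hO, ρ, hfr, hρ⟩ := hgd q
  obtain ⟨F, hF, hFe⟩ := hall 0 (Nat.zero_le _) (hmem 0 (Nat.zero_le _)) i1
  have hch := chain (s0 := s0) (m := μ + 1) hd ha hp (z := fun t => C i1 / h1 / M t) (fun t => by
      have h2 := hMs t (C i1 / h1)
      rw [hp t, hd.piv_single ha] at h2
      exact h2)
    (fun t ht => hall t ht (hmem t ht) i1) n 0 (by omega) ρ hfr F hF hFe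
  apply hi1
  have hM : M 0 = 1 := by simp [M]
  rw [hM, div_one] at hFe
  rw [← hFe]
  refine hfr.inp_succ hF fun γ hγ => ?_
  by_contra hne
  have h2 := hch γ hγ (fun i hi => absurd hi (Nat.not_lt_zero _)) hne
  rw [h2, map_zero] at hγ
  omega

/-- The differential becomes a monomial times a nonvanishing logarithmic differential. -/
theorem exists_res_zero {a : O} (ha : a ≠ 0)
    (hpat : ∀ N, ∃ q, N ≤ q ∧ ∀ t : Fin n, ω (q + t) = Pi.single t a ∧
      ω (q + n + t) = Pi.single t a) {f : K} (μ : ℕ) : ∀ l,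
    Res (sq piv s0 ω l) (cq piv s0 ω D0 f l) μ → ∃ l', l ≤ l' ∧
      Res (sq piv s0 ω l') (cq piv s0 ω D0 f l') 0 := by
  induction μ with
  | zero => exact fun l h => ⟨l, le_rfl, h⟩
  | succ μ ih =>
    intro l h
    obtain ⟨q, hq, hp⟩ := hpat l
    have h1 := res_mono hd hω h0 (l' := q + n) (by omega) h
    have h2 := res_drop hd hω h0 ha (q := q + n) (fun t => (hp t).2) (fun i =>
      (eq_toric hd ha (fun t => (hp t).1) n le_rfl).2 i i.2) h1
    obtain ⟨l', hl', h3⟩ := ih _ h2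
    exact ⟨l', by omega, h3⟩

end seq

end Pool.Agent.KS6_77.IC
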