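import Pool.Agent.KS6_77.IC.Der

/-!
# Logarithmic derivatives along the blowings-up
-/

set_option autoImplicit false
set_option linter.unusedVariables false
set_option linter.unusedSectionVars false

universe u v

namespace Pool.Agent.KS6_77.IC

open MvPolynomial IsLocalRing Pool.Agent.Q40.RP

section inp

variable {K : Type u} [Field K] {n : ℕ} {Q : Subring K} {x : Fin n → K}

lemma inp_add {m : ℕ} {f g : K} (hf : Inp Q x m f) (hg : Inp Q x m g) : Inp Q x m (f + g) := by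
  obtain ⟨E, hE, rfl⟩ := hf
  obtain ⟨F, hF, rfl⟩ := hg
  exact ⟨E + F, hE.add hF, map_add _ _ _⟩

lemma inp_mul {m : ℕ} {q f : K} (hq : q ∈ Q) (hf : Inp Q x m f) : Inp Q x m (q * f) := by
  obtain ⟨E, hE, rfl⟩ := hf
  exact ⟨C ⟨q, hq⟩ * E, hE.mul_left _, by rw [map_mul, ev_C]⟩

lemma inp_zero' {m : ℕ} : Inp Q x m 0 := ⟨0, Low.zero _, map_zero _⟩

lemma inp_sum {ι : Type} (s : Finset ι) {m : ℕ} {f : ι → K} (h : ∀ i ∈ s, Inp Q x m (f i)) :
    Inp Q x m (∑ i ∈ s, f i) := by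
  classical
  induction s using Finset.induction_on with
  | empty => rw [Finset.sum_empty]; exact inp_zero'
  | insert a s ha ih =>
    rw [Finset.sum_insert ha]
    exact inp_add (h a (Finset.mem_insert_self _ _))
      (ih fun i hi => h i (Finset.mem_insert_of_mem hi))

/-- The family `b` is generated by the family `a`. -/
def Gen (Q : Subring K) (a b : Fin n → K) : Prop :=
  ∀ i, ∃ c : Fin n → K, (∀ l, c l ∈ Q) ∧ b i = ∑ l, c l * a l

lemma Gen.refl (a : Fin n → K) : Gen Q a a := by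
  classical
  intro i
  refine ⟨Pi.single i 1, fun l => ?_, ?_⟩
  · by_cases h : l = i
    · rw [h, Pi.single_eq_same]; exact Q.one_mem
    · rw [Pi.single_eq_of_ne h]; exact Q.zero_mem
  · rw [Finset.sum_eq_single i]
    · rw [Pi.single_eq_same, one_mul]
    · intro l _ hl
      rw [Pi.single_eq_of_ne hl, zero_mul]
    · intro h
      exact absurd (Finset.mem_univ _) h

lemma gen_single {a : Fin n → K} {q : K} (hq : q ∈ Q) (i : Fin n) :
    ∃ c : Fin n → K, (∀ l, c l ∈ Q) ∧ q * a i = ∑ l, c l * a l := by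
  classical
  refine ⟨Pi.single i q, fun l => ?_, ?_⟩
  · by_cases h : l = i
    · rw [h, Pi.single_eq_same]; exact hq
    · rw [Pi.single_eq_of_ne h]; exact Q.zero_mem
  · rw [Finset.sum_eq_single i]
    · rw [Pi.single_eq_same]
    · intro l _ hl
      rw [Pi.single_eq_of_ne hl, zero_mul]
    · intro h
      exact absurd (Finset.mem_univ _) h

lemma Gen.trans {a b c : Fin n → K} (h : Gen Q a b) (h' : Gen Q b c) : Gen Q a c := by
  intro i
  obtain ⟨d, hd, hi⟩ := h' i
  choose e he hel using h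
  refine ⟨fun l => ∑ m, d m * e m l, fun l => Q.sum_mem fun m _ => Q.mul_mem (hd m) (he m l), ?_⟩
  rw [hi]
  simp only [Finset.sum_mul]
  rw [Finset.sum_comm]
  refine Finset.sum_congr rfl fun m _ => ?_
  rw [hel m, Finset.mul_sum]
  exact Finset.sum_congr rfl fun l _ => by ring

lemma Gen.mono {Q' : Subring K} (hQ : Q ≤ Q') {a b : Fin n → K} (h : Gen Q a b) : Gen Q' a b := by
  intro i
  obtain ⟨c, hc, hi⟩ := h i
  exact ⟨c, fun l => hQ (hc l), hi⟩

end inp

section res

variable {K : Type u} [Field K] {k : Type v} [Field k] {n : ℕ}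
  {O : Subring K} {ρ0 : O →+* k} {S : Finset O} {piv : (Fin n → O) → Fin n}

/-- The family is a monomial times a family of elements of the ring, one of which has order at most
`μ`. -/
def Res (s : Sta K n) (C : Fin n → K) (μ : ℕ) : Prop :=
  ∃ h, Mo s.1 s.2 h ∧ (∀ i, C i / h ∈ s.1) ∧ ∃ i, ¬ Inp s.1 s.2 (μ + 1) (C i / h)

lemma Res.gen {s : Sta K n} {C C' : Fin n → K} {μ : ℕ} (h : Res s C μ) (h1 : Gen s.1 C C')
    (h2 : Gen s.1 C' C) : Res s C' μ := by
  obtain ⟨m, hm, hC, i, hi⟩ := h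
  refine ⟨m, hm, fun l => ?_, ?_⟩
  · obtain ⟨c, hc, hl⟩ := h1 l
    rw [hl, Finset.sum_div]
    refine s.1.sum_mem fun l _ => ?_
    rw [mul_div_assoc]
    exact s.1.mul_mem (hc l) (hC l)
  · by_contra hcon
    push Not at hcon
    apply hi
    obtain ⟨c, hc, hl⟩ := h2 i
    rw [hl, Finset.sum_div]
    refine inp_sum _ fun l _ => ?_
    rw [mul_div_assoc]
    exact inp_mul (hc l) (hcon l)

lemma Mo.ne {s : Sta K n} (h : Gd O ρ0 s) {m : K} (hm : Mo s.1 s.2 m) : m ≠ 0 := by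
  obtain ⟨u, u0, u1, u2, γ, rfl⟩ := hm
  exact mul_ne_zero u0 (Finset.prod_ne_zero_iff.2 fun i _ => pow_ne_zero _ (h.nu i).2.1)

/-- The order does not increase. -/
theorem res_step' (hd : Dat O ρ0 S piv) {c : Fin n → O} (hc : IsLt S c) {s : Sta K n}
    (hs : Gd O ρ0 s) {C : Fin n → K} {μ : ℕ} (h : Res s C μ) (E : Finset (Fin n)) :
    ∃ (h0 : K) (N : ℕ), Mo s.1 s.2 h0 ∧ (∀ i, (if i ∈ E then 1 else s.2 (piv c)) * C i /
      (h0 * s.2 (piv c) ^ N) ∈ (nx piv s c).1) ∧ ∃ i, ¬ Inp (nx piv s c).1 (nx piv s c).2 (μ + 1)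
        ((if i ∈ E then 1 else s.2 (piv c)) * C i / (h0 * s.2 (piv c) ^ N)) := by
  classical
  obtain ⟨h0, hm, hC, i1, hi1⟩ := h
  have hh0 := Mo.ne hs hm
  have hxj := (hs.nu (piv c)).2.1
  let w : Fin n → ℕ := fun i => if i ∈ E then 0 else 1
  have hw1 : ∀ i, w i ≤ 1 := fun i => by simp only [w]; split_ifs <;> omega
  have hex : ∃ N i, ¬ Inp s.1 s.2 (N + 1 - w i) (C i / h0) :=
    ⟨μ + w i1, i1, by rwa [show μ + w i1 + 1 - w i1 = μ + 1 by omega]⟩
  obtain ⟨i2, hi2⟩ := Nat.find_spec hex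
  have hNle : Nat.find hex ≤ μ + w i1 := Nat.find_min' hex
    ⟨i1, by rwa [show μ + w i1 + 1 - w i1 = μ + 1 by omega]⟩
  have hall : ∀ i, Inp s.1 s.2 (Nat.find hex - w i) (C i / h0) := by
    intro i
    by_cases hN : Nat.find hex = 0
    · rw [hN, Nat.zero_sub]
      exact Inp.zero (hC i)
    · by_contra hcon
      refine Nat.find_min hex (m := Nat.find hex - 1) (by omega) ⟨i, ?_⟩
      rwa [show Nat.find hex - 1 + 1 - w i = Nat.find hex - w i by omega]
  set N := Nat.find hex with hNdef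
  have hdiv : ∀ (m : ℕ) (f : K), Inp s.1 s.2 m f → f / s.2 (piv c) ^ m ∈ (nx piv s c).1 := by
    intro m f hf
    obtain ⟨hO, ρ, hfr, hρ⟩ := id hs
    obtain ⟨a, ha, ha', hac, hb⟩ := hd.step hc hO hfr hρ
    exact hfr.div ha hb hf
  have heq0 : ∀ i, w i = 0 → (if i ∈ E then 1 else s.2 (piv c)) * C i /
      (h0 * s.2 (piv c) ^ N) = C i / h0 / s.2 (piv c) ^ (N - w i) := by
    intro i hi
    have hiE : i ∈ E := by
      by_contra hcon
      simp only [w, if_neg hcon] at hi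
      omega
    rw [if_pos hiE, hi, Nat.sub_zero]
    field_simp
  have heq1 : ∀ i, w i = 1 → 1 ≤ N → (if i ∈ E then 1 else s.2 (piv c)) * C i /
      (h0 * s.2 (piv c) ^ N) = C i / h0 / s.2 (piv c) ^ (N - w i) := by
    intro i hi hN1
    have hiE : i ∉ E := by
      intro hcon
      simp only [w, if_pos hcon] at hi
      omega
    obtain ⟨M, hM⟩ := Nat.exists_eq_add_of_le' hN1
    rw [if_neg hiE, hi, hM, Nat.add_sub_cancel, pow_succ]
    field_simp
  have heq : ∀ i, (w i = 0 ∨ 1 ≤ N) → (if i ∈ E then 1 else s.2 (piv c)) * C i /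
      (h0 * s.2 (piv c) ^ N) = C i / h0 / s.2 (piv c) ^ (N - w i) := by
    intro i hi
    have h1 := hw1 i
    rcases Nat.eq_zero_or_pos (w i) with h2 | h2
    · exact heq0 i h2
    · exact heq1 i (by omega) (by omega)
  refine ⟨h0, N, hm, ?_, ?_⟩
  · intro i
    by_cases hi : w i = 0 ∨ 1 ≤ N
    · change (if i ∈ E then 1 else s.2 (piv c)) * C i / (h0 * s.2 (piv c) ^ N) ∈ _
      rw [heq i hi]
      exact hdiv _ _ (hall i)
    · push Not at hi
      have hN0 : N = 0 := by omega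
      have hle : s.1 ≤ (nx piv s c).1 := le_nr _ _
      change (if i ∈ E then 1 else s.2 (piv c)) * C i / (h0 * s.2 (piv c) ^ N) ∈ _
      rw [hN0, pow_zero, mul_one, mul_div_assoc]
      refine Subring.mul_mem _ ?_ (hle (hC i))
      split_ifs
      · exact Subring.one_mem _
      · exact hle (hs.nu _).1
  · -- an element of small order
    have hkey : ∀ i, (w i = 0 ∨ 1 ≤ N) → N - w i ≤ μ →
        ¬ Inp s.1 s.2 (N - w i + 1) (C i / h0) →
        ¬ Inp (nx piv s c).1 (nx piv s c).2 (μ + 1)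
          ((if i ∈ E then 1 else s.2 (piv c)) * C i / (h0 * s.2 (piv c) ^ N)) := by
      intro i hi hle hno hcon
      rw [heq i hi] at hcon
      exact not_inp_next hd hc hs (hall i) hno (hcon.mono (by omega))
    have hw2 := hw1 i2
    by_cases h2 : w i2 = 0
    · rw [h2, Nat.sub_zero] at hi2
      by_cases h3 : N ≤ μ
      · exact ⟨i2, hkey i2 (Or.inl h2) (by omega) (by rwa [h2, Nat.sub_zero])⟩
      · have h4 := hw1 i1
        have h5 : w i1 = 1 := by omega
        have h6 : N = μ + 1 := by omega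
        refine ⟨i1, hkey i1 (Or.inr (by omega)) (by omega) ?_⟩
        rwa [show N - w i1 + 1 = μ + 1 by omega]
    · have h3 : 1 ≤ N := by
        by_contra h4
        have h5 : N = 0 := by omega
        rw [h5, show 0 + 1 - w i2 = 0 by omega] at hi2
        exact hi2 (Inp.zero (hC i2))
      have h4 := hw1 i1
      refine ⟨i2, hkey i2 (Or.inr h3) (by omega) ?_⟩
      rwa [show N - w i2 + 1 = N + 1 - w i2 by omega]

theorem res_step (hd : Dat O ρ0 S piv) {c : Fin n → O} (hc : IsLt S c) {s : Sta K n}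
    (hs : Gd O ρ0 s) {C : Fin n → K} {μ : ℕ} (h : Res s C μ) (E : Finset (Fin n)) :
    Res (nx piv s c) (fun i => (if i ∈ E then 1 else s.2 (piv c)) * C i) μ := by
  obtain ⟨h0, N, hm, h1, h2⟩ := res_step' hd hc hs h E
  exact ⟨h0 * s.2 (piv c) ^ N, (hs.mo hd hc hm).mul ((hs.mo hd hc (Mo.self _ _ _)).pow N), h1, h2⟩

end res

end Pool.Agent.KS6_77.IC
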