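import Pool.Agent.KS6_77.IC.NF3

/-!
# Change of one parameter, and the fields between a field and its `p`-th powers
-/

set_option autoImplicit false
set_option linter.unusedVariables false
set_option linter.unusedSectionVars false

universe u v w

namespace Pool.Agent.KS6_77.IC

open MvPolynomial IsLocalRing Pool.Agent.Q40.RP Pool.Agent.W418.LU2

section upd

variable {K : Type u} [Field K] {k : Type v} [Field k] {n : ℕ}
  {Q : Subring K} {ρ : Q →+* k} {x : Fin n → K}

/-- Change of one parameter. -/
theorem fra_update (h : Fra Q ρ x) {i : Fin n} {q : Fin n → Q} (hq : ρ (q i) ≠ 0) {y : K}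
    (hy : y = ∑ l, (q l : K) * x l) : Fra Q ρ (Function.update x i y) := by
  classical
  have hqi := h.inv _ hq
  have hqi0 : (q i : K) ≠ 0 := by
    intro h0
    apply hq
    rw [show q i = 0 from Subtype.ext h0, map_zero]
  let r : Q := ⟨_, hqi⟩
  have hr : r * q i = 1 := Subtype.ext (inv_mul_cancel₀ hqi0)
  have hyQ : y ∈ Q := by
    rw [hy]
    exact Q.sum_mem fun l _ => Q.mul_mem (q l).2 (h.mem l)
  have hxi : x i = (r : K) * y - ∑ l ∈ Finset.univ.erase i, ((r * q l : Q) : K) * x l := by
    rw [hy, ← Finset.add_sum_erase _ _ (Finset.mem_univ i), mul_add, ← mul_assoc]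
    have h1 : (r : K) * q i = 1 := congrArg Subtype.val hr
    rw [h1, one_mul, Finset.mul_sum]
    have h2 : ∑ l ∈ Finset.univ.erase i, (r : K) * ((q l : K) * x l) =
        ∑ l ∈ Finset.univ.erase i, ((r * q l : Q) : K) * x l := by
      refine Finset.sum_congr rfl fun l _ => ?_
      push_cast
      ring
    rw [h2]
    ring
  refine ⟨h.surj, h.inv, fun l => ?_, ?_, ?_⟩
  · by_cases hl : l = i
    · rw [hl, Function.update_self]; exact hyQ
    · rw [Function.update_of_ne hl]; exact h.mem l
  · intro z
    rw [h.ker]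
    constructor
    · rintro ⟨c, hc⟩
      refine ⟨fun l => if l = i then c i * r else c l - c i * (r * q l), ?_⟩
      rw [hc, ← Finset.add_sum_erase _ _ (Finset.mem_univ i),
        ← Finset.add_sum_erase _ _ (Finset.mem_univ i), hxi, Function.update_self]
      simp only [if_true]
      have h1 : ∑ l ∈ Finset.univ.erase i, ((if l = i then c i * r else
          c l - c i * (r * q l) : Q) : K) * Function.update x i y l =
          ∑ l ∈ Finset.univ.erase i, (c l : K) * x l -
          (c i : K) * ∑ l ∈ Finset.univ.erase i, ((r * q l : Q) : K) * x l := by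
        rw [Finset.mul_sum, ← Finset.sum_sub_distrib]
        refine Finset.sum_congr rfl fun l hl => ?_
        have hl' := Finset.ne_of_mem_erase hl
        rw [if_neg hl', Function.update_of_ne hl']
        push_cast
        ring
      rw [h1]
      push_cast
      ring
    · rintro ⟨c, hc⟩
      refine ⟨fun l => if l = i then c i * q i else c l + c i * q l, ?_⟩
      rw [hc, ← Finset.add_sum_erase _ _ (Finset.mem_univ i),
        ← Finset.add_sum_erase (s := Finset.univ) (f := fun l =>
          ((if l = i then c i * q i else c l + c i * q l : Q) : K) * x l)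
          (h := Finset.mem_univ i), Function.update_self]
      simp only [if_true]
      have h1 : ∑ l ∈ Finset.univ.erase i, ((if l = i then c i * q i else
          c l + c i * q l : Q) : K) * x l =
          ∑ l ∈ Finset.univ.erase i, (c l : K) * Function.update x i y l +
          (c i : K) * ∑ l ∈ Finset.univ.erase i, (q l : K) * x l := by
        rw [Finset.mul_sum, ← Finset.sum_add_distrib]
        refine Finset.sum_congr rfl fun l hl => ?_
        have hl' := Finset.ne_of_mem_erase hl
        rw [if_neg hl', Function.update_of_ne hl']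
        push_cast
        ring
      rw [h1, hy, ← Finset.add_sum_erase _ _ (Finset.mem_univ i)]
      push_cast
      ring
  · intro m E hE h0
    let L : Fin n → MvPolynomial (Fin n) Q := fun l =>
      if l = i then ∑ l, C (q l) * X l else X l
    have hL : ∀ l, Low 1 (L l) := by
      intro l
      simp only [L]
      split_ifs
      · exact Low.sum _ fun l _ => (Low.X l).mul_left _
      · exact Low.X l
    have h1 : Function.update x i y = fun l => ev Q x (L l) := by
      funext l
      simp only [L]
      by_cases hl : l = i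
      · rw [if_pos hl, hl, Function.update_self, hy, map_sum]
        exact Finset.sum_congr rfl fun l _ => by rw [map_mul, ev_C, ev_X]
      · rw [if_neg hl, Function.update_of_ne hl, ev_X]
    rw [h1, ← ev_bind] at h0
    have h2 := h.qr m _ (hE.bind hL) h0
    rw [Pool.Agent.Q40.RP.map_bind] at h2
    let L' : Fin n → MvPolynomial (Fin n) k := fun l =>
      if l = i then C (ρ r) * (X i - ∑ l ∈ Finset.univ.erase i, C (ρ (q l)) * X l) else X l
    have hL' : ∀ l, Low 1 (L' l) := by
      intro l
      simp only [L']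
      split_ifs
      · exact ((Low.X i).sub (Low.sum _ fun l _ => (Low.X l).mul_left _)).mul_left _
      · exact Low.X l
    have h4 := h2.bind hL'
    have h5 : (bind₁ L').comp (bind₁ (fun l => MvPolynomial.map ρ (L l))) = AlgHom.id k _ := by
      apply MvPolynomial.algHom_ext
      intro l
      rw [AlgHom.comp_apply, bind₁_X_right, AlgHom.id_apply]
      simp only [L]
      by_cases hl : l = i
      · subst hl
        rw [if_pos rfl, map_sum, map_sum, ← Finset.add_sum_erase _ _ (Finset.mem_univ l)]
        have h6 : ∀ l', bind₁ L' (MvPolynomial.map ρ (C (q l') * X l')) =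
            C (ρ (q l')) * L' l' := by
          intro l'
          rw [map_mul, map_C, map_X, map_mul, bind₁_C_right, bind₁_X_right]
        have h7 : ∑ l' ∈ Finset.univ.erase l, bind₁ L' (MvPolynomial.map ρ (C (q l') * X l')) =
            ∑ l' ∈ Finset.univ.erase l, C (ρ (q l')) * X l' := by
          refine Finset.sum_congr rfl fun l' hl' => ?_
          rw [h6]
          simp only [L', if_neg (Finset.ne_of_mem_erase hl')]
        rw [h7, h6]
        simp only [L', if_true]
        have h8 : (C (ρ (q l)) : MvPolynomial (Fin n) k) * C (ρ r) = 1 := by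
          rw [← C_mul, ← map_mul, mul_comm, hr, map_one, C_1]
        rw [← mul_assoc, h8, one_mul]
        ring
      · rw [if_neg hl, map_X, bind₁_X_right]
        simp only [L', if_neg hl]
    have h6 := DFunLike.congr_fun h5 (MvPolynomial.map ρ E)
    rw [AlgHom.comp_apply, AlgHom.id_apply] at h6
    rwa [h6] at h4

end upd

section tp

variable {K : Type u} [Field K] (p : ℕ) [hpr : Fact p.Prime] [CharP K p]

/-- The polynomials in `Y` whose coefficients are `p`-th powers. -/
def Tp (Y v : K) : Prop := ∃ c : Fin p → K, v = ∑ e, c e ^ p * Y ^ (e : ℕ)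

lemma tp_add {Y v w : K} (hv : Tp p Y v) (hw : Tp p Y w) : Tp p Y (v + w) := by
  obtain ⟨c, rfl⟩ := hv
  obtain ⟨d, rfl⟩ := hw
  refine ⟨c + d, ?_⟩
  rw [← Finset.sum_add_distrib]
  refine Finset.sum_congr rfl fun e _ => ?_
  rw [Pi.add_apply, add_pow_char, add_mul]

lemma tp_zero {Y : K} : Tp p Y 0 := ⟨0, by simp [hpr.out.ne_zero]⟩

lemma tp_sum {Y : K} {ι : Type} (s : Finset ι) {f : ι → K} (h : ∀ i ∈ s, Tp p Y (f i)) :
    Tp p Y (∑ i ∈ s, f i) := by
  classical
  induction s using Finset.induction_on with
  | empty => rw [Finset.sum_empty]; exact tp_zero p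
  | insert a s ha ih =>
    rw [Finset.sum_insert ha]
    exact tp_add p (h a (Finset.mem_insert_self _ _)) (ih fun i hi => h i (Finset.mem_insert_of_mem hi))

lemma tp_mon {Y : K} (c : K) (m : ℕ) : Tp p Y (c ^ p * Y ^ m) := by
  classical
  refine ⟨Pi.single ⟨m % p, Nat.mod_lt _ hpr.out.pos⟩ (c * Y ^ (m / p)), ?_⟩
  rw [Finset.sum_eq_single (⟨m % p, Nat.mod_lt _ hpr.out.pos⟩ : Fin p)]
  · rw [Pi.single_eq_same, mul_pow, mul_assoc, ← pow_mul, ← pow_add, mul_comm (m / p) p,
      Nat.div_add_mod]
  · intro e _ he
    rw [Pi.single_eq_of_ne he, zero_pow hpr.out.ne_zero, zero_mul]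
  · intro h
    exact absurd (Finset.mem_univ _) h

lemma tp_mul {Y v w : K} (hv : Tp p Y v) (hw : Tp p Y w) : Tp p Y (v * w) := by
  obtain ⟨c, rfl⟩ := hv
  obtain ⟨d, rfl⟩ := hw
  rw [Finset.sum_mul_sum]
  refine tp_sum p _ fun e _ => tp_sum p _ fun e' _ => ?_
  have h1 : c e ^ p * Y ^ (e : ℕ) * (d e' ^ p * Y ^ (e' : ℕ)) =
      (c e * d e') ^ p * Y ^ ((e : ℕ) + (e' : ℕ)) := by
    rw [mul_pow, pow_add]
    ring
  rw [h1]
  exact tp_mon p _ _

lemma tp_pp {Y : K} (c : K) : Tp p Y (c ^ p) := by
  have := tp_mon p (Y := Y) c 0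
  rwa [pow_zero, mul_one] at this

lemma tp_pow {Y v : K} (hv : Tp p Y v) (m : ℕ) : Tp p Y (v ^ m) := by
  induction m with
  | zero =>
    have := tp_pp p (Y := Y) 1
    rw [pow_zero]
    rwa [one_pow] at this
  | succ m ih =>
    rw [pow_succ]
    exact tp_mul p ih hv

lemma tp_trans {Y f v : K} (hf : Tp p Y f) (hv : Tp p f v) : Tp p Y v := by
  obtain ⟨c, rfl⟩ := hv
  exact tp_sum p _ fun e _ => tp_mul p (tp_pp p _) (tp_pow p hf _)

/-- The differentials of the elements are proportional. -/
lemma tp_der {Y v : K} (hv : Tp p Y v) : ∃ θ : K, ∀ D : Derivation ℤ K K, D v = θ * D Y := by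
  obtain ⟨c, rfl⟩ := hv
  refine ⟨∑ e : Fin p, c e ^ p * (((e : ℕ) : K) * Y ^ ((e : ℕ) - 1)), fun D => ?_⟩
  rw [map_sum, Finset.sum_mul]
  refine Finset.sum_congr rfl fun e _ => ?_
  rw [der_pow_p_mul p, Derivation.leibniz_pow, nsmul_eq_mul, smul_eq_mul]
  ring

variable {n : ℕ} {x : Fin n → K}

/-- Integrality of the coefficients. -/
theorem tp_int {Q : Subring K} (hli : Li p x)
    (hpb : ∀ q : Q, ∃ c : (Fin n → Fin p) → Q, (q : K) = ∑ b, (c b : K) ^ p * xb x b) {i : Fin n}
    {v : K} (hvQ : v ∈ Q) (hv : Tp p (x i) v) :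
    ∃ c : Fin p → Q, v = ∑ e, (c e : K) ^ p * x i ^ (e : ℕ) := by
  classical
  obtain ⟨d, hd⟩ := hv
  obtain ⟨c, hc⟩ := hpb ⟨v, hvQ⟩
  change v = _ at hc
  let z0 : Fin p := ⟨0, hpr.out.pos⟩
  let ι : Fin p → Fin n → Fin p := fun e => Function.update (fun _ => z0) i e
  have hι : Function.Injective ι := by
    intro e e' h
    have := congrFun h i
    simp only [ι, Function.update_self] at this
    exact this
  have hxb : ∀ e, xb x (ι e) = x i ^ (e : ℕ) := by
    intro e
    unfold xb
    rw [Finset.prod_eq_single i]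
    · simp only [ι, Function.update_self]
    · intro l _ hl
      simp only [ι, Function.update_of_ne hl]
      exact pow_zero _
    · intro h
      exact absurd (Finset.mem_univ _) h
  let d' : (Fin n → Fin p) → K := Function.extend ι d 0
  have h1 : v = ∑ b, d' b ^ p * xb x b := by
    rw [hd]
    refine Fintype.sum_of_injective ι hι _ _ ?_ ?_
    · intro b hb
      simp only [d']
      rw [Function.extend_apply' _ _ _ hb, Pi.zero_apply, zero_pow hpr.out.ne_zero, zero_mul]
    · intro e
      simp only [d']
      rw [hι.extend_apply, hxb]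
  have h2 : d' = fun b => (c b : K) := hli.unique p (h1.symm.trans hc)
  refine ⟨fun e => c (ι e), ?_⟩
  rw [hd]
  refine Finset.sum_congr rfl fun e _ => ?_
  have h3 := congrFun h2 (ι e)
  simp only [d'] at h3
  rw [hι.extend_apply] at h3
  rw [h3]

end tp

end Pool.Agent.KS6_77.IC
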